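import Mathlib

set_option autoImplicit false
set_option linter.unusedSectionVars false

namespace Pool.Agent.Lib.MP_6d85b4_al

open Real CoxeterSystem

/-- solutions of the rank two recurrence -/
def sq (c p q : ℝ) : ℕ → ℝ
  | 0 => p
  | 1 => q
  | k + 2 => c * sq c p q (k + 1) - sq c p q k

theorem sq_succ (c p q : ℝ) (k : ℕ) :
    sq c p q (k + 1) = q * sq c 0 1 (k + 1) - p * sq c 0 1 k := by
  induction k using Nat.strong_induction_on with
  | _ k ih =>
    match k with
    | 0 => simp [sq]
    | 1 => simp only [sq]; ring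
    | k + 2 =>
      have h1 := ih (k + 1) (by omega)
      have h0 := ih k (by omega)
      have e1 : sq c p q (k + 2 + 1) = c * sq c p q (k + 1 + 1) - sq c p q (k + 1) := rfl
      have e2 : sq c 0 1 (k + 2 + 1) = c * sq c 0 1 (k + 1 + 1) - sq c 0 1 (k + 1) := rfl
      have e3 : sq c 0 1 (k + 2) = c * sq c 0 1 (k + 1) - sq c 0 1 k := rfl
      have e4 : sq c 0 1 (k + 1 + 1) = sq c 0 1 (k + 2) := rfl
      rw [e1, e2, h1, h0, e4, e3]
      ring

theorem sq_sin (x : ℝ) (k : ℕ) : sq (2 * cos x) 0 1 k * sin x = sin (k * x) := by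
  induction k using Nat.strong_induction_on with
  | _ k ih =>
    match k with
    | 0 => simp [sq]
    | 1 => simp [sq]
    | k + 2 =>
      have h1 := ih (k + 1) (by omega)
      have h0 := ih k (by omega)
      have e : sq (2 * cos x) 0 1 (k + 2) =
        2 * cos x * sq (2 * cos x) 0 1 (k + 1) - sq (2 * cos x) 0 1 k := rfl
      have a1 : ((k + 2 : ℕ) : ℝ) * x = ((k + 1 : ℕ) : ℝ) * x + x := by push_cast; ring
      have a0 : (k : ℝ) * x = ((k + 1 : ℕ) : ℝ) * x - x := by push_cast; ring
      rw [e, sub_mul, mul_assoc, h1, h0, a1, a0, sin_add, sin_sub]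
      ring

theorem sq_two (k : ℕ) : sq 2 0 1 k = k := by
  induction k using Nat.strong_induction_on with
  | _ k ih =>
    match k with
    | 0 => simp [sq]
    | 1 => simp [sq]
    | k + 2 =>
      have e : sq 2 0 1 (k + 2) = 2 * sq 2 0 1 (k + 1) - sq 2 0 1 k := rfl
      rw [e, ih (k + 1) (by omega), ih k (by omega)]
      push_cast
      ring

/-- the Chebyshev sequence attached to the label `m` -/
noncomputable def ch (m k : ℕ) : ℝ := sq (2 * cos (π / m)) 0 1 k

theorem sin_pos_m {m : ℕ} (hm : 2 ≤ m) : 0 < sin (π / m) := by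
  have h : (2 : ℝ) ≤ m := by exact_mod_cast hm
  refine sin_pos_of_pos_of_lt_pi (by positivity) ?_
  rw [div_lt_iff₀ (by linarith)]
  nlinarith [pi_pos]

theorem ch_sin (m k : ℕ) : ch m k * sin (π / m) = sin (k * (π / m)) := sq_sin _ _

theorem ch_pos {m k : ℕ} (hm : 2 ≤ m) (h0 : 0 < k) (hk : k < m) : 0 < ch m k := by
  have hs := sin_pos_m hm
  have h : (2 : ℝ) ≤ m := by exact_mod_cast hm
  have h1 : (k : ℝ) < m := by exact_mod_cast hk
  have h2 : (0 : ℝ) < k := by exact_mod_cast h0
  have : 0 < sin (k * (π / m)) := by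
    refine sin_pos_of_pos_of_lt_pi (by positivity) ?_
    rw [← mul_div_assoc, div_lt_iff₀ (by linarith)]
    nlinarith [pi_pos]
  rw [← ch_sin] at this
  exact (mul_pos_iff_of_pos_right hs).1 this

theorem ch_val {m k : ℕ} (hm : 2 ≤ m) {y : ℝ} (h : sin (k * (π / m)) = y * sin (π / m)) :
    ch m k = y := by
  rw [← ch_sin] at h
  exact mul_right_cancel₀ (sin_pos_m hm).ne' h

theorem ch_self {m : ℕ} (hm : 2 ≤ m) : ch m m = 0 := by
  have h : (m : ℝ) ≠ 0 := by exact_mod_cast (by omega : m ≠ 0)
  refine ch_val hm ?_
  rw [mul_div_cancel₀ _ h]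
  simp

theorem ch_succ_self {m : ℕ} (hm : 2 ≤ m) : ch m (m + 1) = -1 := by
  have h : (m : ℝ) ≠ 0 := by exact_mod_cast (by omega : m ≠ 0)
  refine ch_val hm ?_
  have : ((m + 1 : ℕ) : ℝ) * (π / m) = π / m + π := by push_cast; field_simp; ring
  rw [this, sin_add_pi]
  ring

theorem ch_pred_self {m : ℕ} (hm : 2 ≤ m) : ch m (m - 1) = 1 := by
  have h : (m : ℝ) ≠ 0 := by exact_mod_cast (by omega : m ≠ 0)
  refine ch_val hm ?_
  have : ((m - 1 : ℕ) : ℝ) * (π / m) = π - π / m := by
    rw [Nat.cast_sub (by omega)]; push_cast; field_simp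
  rw [this, sin_pi_sub]
  ring

theorem ch_nonneg {m k : ℕ} (hm : m ≠ 1) (hk : m = 0 ∨ k ≤ m) : 0 ≤ ch m k := by
  rcases Nat.eq_zero_or_pos m with rfl | h
  · simp [ch, sq_two]
  · have hm2 : 2 ≤ m := by omega
    rcases Nat.eq_zero_or_pos k with rfl | h0
    · simp [ch, sq]
    · rcases Nat.lt_or_ge k m with h1 | h1
      · exact (ch_pos hm2 h0 h1).le
      · have : k = m := by omega
        rw [this, ch_self hm2]

theorem sq_self {m : ℕ} (hm : 2 ≤ m) (p q : ℝ) :
    sq (2 * cos (π / m)) p q m = -p ∧ sq (2 * cos (π / m)) p q (m + 1) = -q := by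
  have h1 := ch_self hm
  have h2 := ch_succ_self hm
  have h3 := ch_pred_self hm
  unfold ch at h1 h2 h3
  constructor
  · have := sq_succ (2 * cos (π / m)) p q (m - 1)
    rw [Nat.sub_add_cancel (by omega), h1, h3] at this
    rw [this]
    ring
  · rw [sq_succ, h1, h2]
    ring

theorem sq_shift (c p q : ℝ) (j k : ℕ) :
    sq c p q (j + k) = sq c (sq c p q j) (sq c p q (j + 1)) k := by
  induction k using Nat.strong_induction_on with
  | _ k ih =>
    match k with
    | 0 => rfl
    | 1 => rfl
    | k + 2 =>
      have e1 : sq c p q (j + (k + 2)) = c * sq c p q (j + (k + 1)) - sq c p q (j + k) := rfl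
      rw [e1, ih (k + 1) (by omega), ih k (by omega)]
      rfl

theorem cos_inj {m n : ℕ} (h : cos (π / m) = cos (π / n)) : m = n := by
  have key : ∀ k : ℕ, π / k ∈ Set.Icc (0 : ℝ) π := by
    intro k
    refine ⟨by positivity, ?_⟩
    rcases Nat.eq_zero_or_pos k with rfl | h
    · simp [pi_pos.le]
    · have : (1 : ℝ) ≤ k := by exact_mod_cast h
      exact div_le_self pi_pos.le this
  have h1 := injOn_cos (key m) (key n) h
  rw [div_eq_mul_inv, div_eq_mul_inv] at h1
  have h2 := inv_injective (mul_left_cancel₀ pi_pos.ne' h1)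
  exact_mod_cast h2

variable {B : Type} [Fintype B] [DecidableEq B] (M : CoxeterMatrix B)

/-- minus twice the canonical bilinear form on simple roots -/
noncomputable def cc (i j : B) : ℝ := 2 * cos (π / M i j)

omit [Fintype B] [DecidableEq B] in
theorem cc_self (i : B) : cc M i i = -2 := by simp [cc]

omit [Fintype B] [DecidableEq B] in
theorem cc_symm (i j : B) : cc M i j = cc M j i := by rw [cc, cc, M.symmetric]

/-- simple root -/
def al (i : B) : B → ℝ := Pi.single i 1

omit [Fintype B] in
@[simp] theorem al_self (i : B) : al i i = 1 := by simp [al]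

omit [Fintype B] in
theorem al_ne {i j : B} (h : j ≠ i) : al i j = 0 := by simp [al, h]

omit [Fintype B] in
theorem al_inj {i j : B} (h : al i = al j) : i = j := by
  by_contra hne
  have := congrFun h i
  rw [al_self, al_ne hne] at this
  exact one_ne_zero this

/-- pairing with a simple root -/
noncomputable def ip (i : B) : (B → ℝ) →ₗ[ℝ] ℝ := ∑ j, cc M i j • LinearMap.proj j

theorem ip_apply (i : B) (x : B → ℝ) : ip M i x = ∑ j, cc M i j * x j := by
  simp [ip, LinearMap.sum_apply]

theorem ip_al (i j : B) : ip M i (al j) = cc M i j := by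
  rw [ip_apply, Finset.sum_eq_single j]
  · simp
  · intro b _ hb
    rw [al_ne hb, mul_zero]
  · simp

/-- simple reflection -/
noncomputable def rf (i : B) : Module.End ℝ (B → ℝ) :=
  LinearMap.id + (ip M i).smulRight (al i)

theorem rf_apply (i : B) (x : B → ℝ) : rf M i x = x + ip M i x • al i := by simp [rf]

theorem rf_al (i j : B) : rf M i (al j) = al j + cc M i j • al i := by rw [rf_apply, ip_al]

theorem rf_self (i : B) : rf M i (al i) = -al i := by
  rw [rf_al, cc_self]
  module

theorem rf_coord {i j : B} (h : j ≠ i) (x : B → ℝ) : rf M i x j = x j := by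
  rw [rf_apply]
  simp [al_ne h]

theorem rf_rf (i : B) (x : B → ℝ) : rf M i (rf M i x) = x := by
  rw [rf_apply M i x, map_add, map_smul, rf_self, rf_apply]
  module

/-- the invariant form -/
noncomputable def bf (x y : B → ℝ) : ℝ := ∑ i, x i * ip M i y

theorem bf_symm (x y : B → ℝ) : bf M x y = bf M y x := by
  simp only [bf, ip_apply, Finset.mul_sum]
  rw [Finset.sum_comm]
  refine Finset.sum_congr rfl fun i _ => Finset.sum_congr rfl fun j _ => ?_
  rw [cc_symm M j i]
  ring

theorem bf_al (i : B) (y : B → ℝ) : bf M (al i) y = ip M i y := by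
  rw [bf, Finset.sum_eq_single i]
  · simp
  · intro b _ hb
    rw [al_ne hb, zero_mul]
  · simp

theorem bf_add_smul (x z y : B → ℝ) (a : ℝ) : bf M (x + a • z) y = bf M x y + a * bf M z y := by
  simp only [bf, Finset.mul_sum, ← Finset.sum_add_distrib]
  refine Finset.sum_congr rfl fun i _ => ?_
  simp only [Pi.add_apply, Pi.smul_apply, smul_eq_mul]
  ring

theorem bf_smul (z y : B → ℝ) (a : ℝ) : bf M (a • z) y = a * bf M z y := by
  simp only [bf, Finset.mul_sum]
  refine Finset.sum_congr rfl fun i _ => ?_
  simp only [Pi.smul_apply, smul_eq_mul]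
  ring

theorem bf_rf (i : B) (x y : B → ℝ) : bf M (rf M i x) (rf M i y) = bf M x y := by
  rw [rf_apply M i x, bf_add_smul, bf_al, bf_symm, rf_apply M i y, bf_add_smul, bf_al, map_add,
    map_smul, ip_al, cc_self, bf_symm M y x, smul_eq_mul]
  ring

/-- product of the reflections of a word -/
noncomputable def wE (l : List B) : Module.End ℝ (B → ℝ) := (l.map (rf M)).prod

theorem wE_cons (i : B) (l : List B) (x : B → ℝ) : wE M (i :: l) x = rf M i (wE M l x) := by
  simp [wE]

theorem rf_plane {u v : B} (p q : ℝ) :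
    rf M u (p • al u + q • al v) = q • al v + (cc M u v * q - p) • al u := by
  rw [map_add, map_smul, map_smul, rf_self, rf_al]
  module

theorem wE_alt (u v : B) (p q : ℝ) (k : ℕ) :
    wE M (alternatingWord u v k) (p • al v + q • al u) =
      sq (cc M u v) p q k • al (if Even k then v else u) +
        sq (cc M u v) p q (k + 1) • al (if Even k then u else v) := by
  induction k with
  | zero => simp [alternatingWord, wE, sq]
  | succ k ih =>
    rw [alternatingWord_succ', wE_cons, ih, rf_plane]
    have e : sq (cc M u v) p q (k + 1 + 1) =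
      cc M u v * sq (cc M u v) p q (k + 1) - sq (cc M u v) p q k := rfl
    rw [e]
    by_cases h : Even k
    · have h' : ¬ Even (k + 1) := by simpa [Nat.even_add_one] using h
      simp only [if_pos h, if_neg h', cc_symm M v u]
    · have h' : Even (k + 1) := by simpa [Nat.even_add_one] using h
      simp only [if_neg h, if_pos h']

theorem wE_fix (u v : B) (k : ℕ) {y : B → ℝ} (hu : ip M u y = 0) (hv : ip M v y = 0) :
    wE M (alternatingWord u v k) y = y := by
  induction k with
  | zero => simp [alternatingWord, wE]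
  | succ k ih =>
    rw [alternatingWord_succ', wE_cons, ih, rf_apply]
    split_ifs
    · rw [hv]; simp
    · rw [hu]; simp

theorem wE_two_mul (u v : B) (k : ℕ) :
    wE M (alternatingWord u v (2 * k)) = (rf M u * rf M v) ^ k := by
  induction k with
  | zero => simp [alternatingWord, wE]
  | succ k ih =>
    have h1 : Even (2 * k) := even_two_mul k
    have h2 : ¬ Even (2 * k + 1) := by simp
    rw [show 2 * (k + 1) = 2 * k + 1 + 1 by ring, alternatingWord_succ', alternatingWord_succ',
      if_pos h1, if_neg h2, pow_succ', ← ih]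
    simp [wE, mul_assoc]

theorem liftable : M.IsLiftable (rf M) := by
  intro i j
  by_cases hij : i = j
  · subst hij
    rw [M.diagonal, pow_one]
    exact LinearMap.ext fun x => rf_rf M i x
  rcases Nat.eq_zero_or_pos (M i j) with h0 | h0
  · rw [h0, pow_zero]
  have hm : 2 ≤ M i j := by
    have := M.off_diagonal i j hij
    omega
  rw [← wE_two_mul]
  refine LinearMap.ext fun x => ?_
  have hd : 4 - cc M i j ^ 2 ≠ 0 := by
    have h1 := sin_pos_m hm
    have h2 := sin_sq_add_cos_sq (π / M i j)
    have : 4 - cc M i j ^ 2 = 4 * sin (π / M i j) ^ 2 := by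
      rw [cc]
      nlinarith
    rw [this]
    positivity
  set p := -(2 * ip M j x + cc M i j * ip M i x) / (4 - cc M i j ^ 2) with hp
  set q := -(2 * ip M i x + cc M i j * ip M j x) / (4 - cc M i j ^ 2) with hq
  have hx : x = (x - (p • al j + q • al i)) + (p • al j + q • al i) := by abel
  have e1 : ip M i (x - (p • al j + q • al i)) = 0 := by
    rw [map_sub, map_add, map_smul, map_smul, ip_al, ip_al, cc_self, smul_eq_mul, smul_eq_mul,
      hp, hq]
    field_simp
    ring
  have e2 : ip M j (x - (p • al j + q • al i)) = 0 := by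
    rw [map_sub, map_add, map_smul, map_smul, ip_al, ip_al, cc_self, smul_eq_mul, smul_eq_mul,
      cc_symm M j i, hp, hq]
    field_simp
    ring
  have e3 : wE M (alternatingWord i j (2 * M i j)) (p • al j + q • al i) =
      p • al j + q • al i := by
    have h1 : Even (2 * M i j) := even_two_mul _
    have a := sq_self hm p q
    have b := sq_self hm (-p) (-q)
    have s1 := sq_shift (2 * cos (π / M i j)) p q (M i j) (M i j)
    have s2 := sq_shift (2 * cos (π / M i j)) p q (M i j) (M i j + 1)
    rw [a.1, a.2, b.1, neg_neg] at s1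
    rw [a.1, a.2, b.2, neg_neg] at s2
    rw [wE_alt, if_pos h1, if_pos h1, two_mul, add_assoc, cc, s1, s2]
  rw [hx, map_add, wE_fix M i j _ e1 e2, e3]
  rfl

/-- the geometric representation -/
noncomputable def rho : M.Group →* Module.End ℝ (B → ℝ) :=
  M.toCoxeterSystem.lift ⟨rf M, liftable M⟩

theorem rho_simple (i : B) : rho M (M.toCoxeterSystem.simple i) = rf M i :=
  M.toCoxeterSystem.lift_apply_simple (liftable M) i

theorem rho_word (l : List B) : rho M (M.toCoxeterSystem.wordProd l) = wE M l := by
  induction l with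
  | nil => simp [wE]
  | cons i l ih =>
    rw [wordProd_cons, map_mul, rho_simple, ih]
    simp [wE]

theorem rho_mul (w w' : M.Group) (x : B → ℝ) : rho M (w * w') x = rho M w (rho M w' x) := by
  rw [map_mul]
  rfl

theorem rho_inv (w : M.Group) (x : B → ℝ) : rho M w⁻¹ (rho M w x) = x := by
  rw [← rho_mul, inv_mul_cancel, map_one]
  rfl

theorem bf_rho (w : M.Group) (x y : B → ℝ) : bf M (rho M w x) (rho M w y) = bf M x y := by
  induction w using M.toCoxeterSystem.simple_induction_left with
  | one => simp
  | mul_simple_left w i ih => rw [rho_mul, rho_mul, rho_simple, bf_rf, ih]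

/-- all coordinates are nonnegative -/
def Pos (x : B → ℝ) : Prop := ∀ i, 0 ≤ x i

omit [Fintype B] in
theorem pos_al (i : B) : Pos (al i) := by
  intro j
  by_cases h : j = i
  · rw [h, al_self]; exact zero_le_one
  · rw [al_ne h]

theorem pos_of_not_descent (w : M.Group) (i : B) (h : ¬ M.toCoxeterSystem.IsRightDescent w i) :
    Pos (rho M w (al i)) := by
  classical
  set cs := M.toCoxeterSystem with hcs
  induction hn : cs.length w using Nat.strong_induction_on generalizing w i with
  | _ n ih =>
  by_cases hw : w = 1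
  · subst hw
    simpa using pos_al i
  obtain ⟨j, hj⟩ := cs.exists_rightDescent_of_ne_one hw
  have hij : i ≠ j := fun e => h (e ▸ hj)
  let P : ℕ → Prop := fun k => ∃ v, w = v * cs.wordProd (alternatingWord i j k) ∧
    cs.length v + k = cs.length w
  have hP1 : P 1 := ⟨w * cs.simple j, by simp [alternatingWord],
    (cs.isRightDescent_iff).1 hj⟩
  have hn1 : 1 ≤ cs.length w := by
    obtain ⟨v, -, h2⟩ := hP1
    omega
  set k := Nat.findGreatest P (cs.length w) with hk
  have hk1 : 1 ≤ k := Nat.le_findGreatest hn1 hP1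
  have hPk : P k := Nat.findGreatest_spec hn1 hP1
  obtain ⟨v, hv1, hv2⟩ := hPk
  have hnx : ¬ cs.IsRightDescent v (if Even k then j else i) := by
    intro hd
    have hd' := (cs.isRightDescent_iff).1 hd
    refine Nat.findGreatest_is_greatest (P := P) (n := cs.length w) (k := k + 1)
      (by omega) (by omega) ⟨v * cs.simple (if Even k then j else i), ?_, by omega⟩
    rw [alternatingWord_succ', wordProd_cons, mul_assoc, cs.simple_mul_simple_cancel_left]
    exact hv1
  have hls : ¬ cs.IsRightDescent v (if Even k then i else j) := by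
    intro hd
    have hd' := (cs.isRightDescent_iff).1 hd
    obtain ⟨k', hk'⟩ : ∃ k', k = k' + 1 := ⟨k - 1, by omega⟩
    have e : (if Even k' then j else i) = (if Even k then i else j) := by
      rw [hk']
      by_cases h : Even k' <;> simp [h, Nat.even_add_one]
    rw [hk', alternatingWord_succ', wordProd_cons, e, ← mul_assoc] at hv1
    have h1 := cs.length_mul_le (v * cs.simple (if Even k then i else j))
      (cs.wordProd (alternatingWord i j k'))
    have h2 := cs.length_wordProd_le (alternatingWord i j k')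
    rw [length_alternatingWord] at h2
    rw [← hv1] at h1
    omega
  have p1 := ih (cs.length v) (by omega) v _ hnx rfl
  have p2 := ih (cs.length v) (by omega) v _ hls rfl
  have hm : M i j = 0 ∨ k + 1 ≤ M i j := by
    by_contra hc
    push Not at hc
    have h1 := cs.not_isReduced_alternatingWord j i (m := k + 1)
      (by rw [M.symmetric]; exact hc.1) (by rw [M.symmetric]; exact hc.2)
    have h2 := (cs.not_isRightDescent_iff).1 h
    have h3 : w * cs.simple i = v * cs.wordProd (alternatingWord j i (k + 1)) := by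
      rw [alternatingWord_succ, wordProd_concat, ← mul_assoc, ← hv1]
    have h4 := cs.length_mul_le v (cs.wordProd (alternatingWord j i (k + 1)))
    have h5 := cs.length_wordProd_le (alternatingWord j i (k + 1))
    unfold CoxeterSystem.IsReduced at h1
    rw [length_alternatingWord] at h1 h5
    rw [← h3] at h4
    omega
  have c1 : 0 ≤ sq (cc M i j) 0 1 k :=
    ch_nonneg (M.off_diagonal i j hij) (by omega)
  have c2 : 0 ≤ sq (cc M i j) 0 1 (k + 1) :=
    ch_nonneg (M.off_diagonal i j hij) hm
  have e := wE_alt M i j 0 1 k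
  rw [zero_smul, zero_add, one_smul] at e
  rw [hv1, rho_mul, rho_word, e, map_add, map_smul, map_smul]
  intro b
  exact add_nonneg (mul_nonneg c1 (p1 b)) (mul_nonneg c2 (p2 b))

theorem dichotomy (w : M.Group) (i : B) : Pos (rho M w (al i)) ∨ Pos (-rho M w (al i)) := by
  by_cases h : M.toCoxeterSystem.IsRightDescent w i
  · right
    have := pos_of_not_descent M _ i
      ((M.toCoxeterSystem.isRightDescent_iff_not_isRightDescent_mul).1 h)
    rwa [rho_mul, rho_simple, rf_self, map_neg] at this
  · exact Or.inl (pos_of_not_descent M w i h)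

theorem root_norm (w : M.Group) (t : B) : bf M (rho M w (al t)) (rho M w (al t)) = -2 := by
  rw [bf_rho, bf_al, ip_al, cc_self]

theorem root_eq {w : M.Group} {t u : B} {p : ℝ} (hp : 0 ≤ p) (h : rho M w (al t) = p • al u) :
    p = 1 := by
  have := root_norm M w t
  rw [h, bf_smul, bf_al, map_smul, ip_al, cc_self, smul_eq_mul] at this
  nlinarith

theorem pos_rf {w : M.Group} {t u : B} (hp : Pos (rho M w (al t)))
    (hne : rho M w (al t) ≠ al u) : Pos (rf M u (rho M w (al t))) := by
  have := dichotomy M (M.toCoxeterSystem.simple u * w) t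
  rw [rho_mul, rho_simple] at this
  refine this.resolve_right fun hneg => hne ?_
  have e : rho M w (al t) = rho M w (al t) u • al u := by
    funext j
    by_cases h : j = u
    · simp [h]
    · have h1 := hneg j
      rw [Pi.neg_apply, rf_coord M h] at h1
      have h2 := hp j
      rw [Pi.smul_apply, al_ne h, smul_zero]
      linarith
  rw [e, root_eq M (hp u) e, one_smul]

theorem rf_conj {w : M.Group} {t u : B} (h : rho M w (al t) = al u) (x : B → ℝ) :
    rf M u (rho M w x) = rho M w (rf M t x) := by
  rw [rf_apply, rf_apply, map_add, map_smul, h, ← bf_al, ← bf_al, ← bf_rho M w (al t), h]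

/-- supported on the two coordinates `u`, `v` -/
def InP (u v : B) (x : B → ℝ) : Prop := ∀ j, j ≠ u → j ≠ v → x j = 0

omit [Fintype B] [DecidableEq B] in
theorem InP.symm {u v : B} {x : B → ℝ} (h : InP u v x) : InP v u x := fun j a b => h j b a

omit [Fintype B] in
theorem InP.eq {u v : B} (huv : u ≠ v) {x : B → ℝ} (h : InP u v x) :
    x = x u • al u + x v • al v := by
  funext j
  by_cases h1 : j = u
  · subst h1
    simp [al_ne huv]
  · by_cases h2 : j = v
    · subst h2
      simp [al_ne h1]
    · simp [al_ne h1, al_ne h2, h j h1 h2]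

omit [Fintype B] in
theorem inP_al (u v : B) : InP u v (al u) := fun _ h _ => al_ne h

theorem inP_rf (u v : B) (x : B → ℝ) : InP u v (rf M u x) ↔ InP u v x := by
  constructor
  · intro h j a b
    rw [← rf_coord M a x]
    exact h j a b
  · intro h j a b
    rw [rf_coord M a x]
    exact h j a b

theorem two_in_plane {w : M.Group} {t t' u v : B} (htt : t ≠ t') (huv : u ≠ v)
    (p1 : Pos (rho M w (al t))) (p2 : Pos (rho M w (al t')))
    (i1 : InP u v (rho M w (al t))) (i2 : InP u v (rho M w (al t'))) :
    (rho M w (al t) = al u ∧ rho M w (al t') = al v) ∨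
      (rho M w (al t) = al v ∧ rho M w (al t') = al u) := by
  have e1 := i1.eq huv
  have e2 := i2.eq huv
  have a1 := p1 u
  have a2 := p1 v
  have a3 := p2 u
  have a4 := p2 v
  generalize rho M w (al t) u = p at e1 a1
  generalize rho M w (al t) v = q at e1 a2
  generalize rho M w (al t') u = p' at e2 a3
  generalize rho M w (al t') v = q' at e2 a4
  have f1 := congrArg (rho M w⁻¹) e1
  have f2 := congrArg (rho M w⁻¹) e2
  rw [rho_inv, map_add, map_smul, map_smul] at f1 f2
  have key : ∀ s : B, 0 ≤ rho M w⁻¹ (al s) t * rho M w⁻¹ (al s) t' := by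
    intro s
    rcases dichotomy M w⁻¹ s with h | h
    · exact mul_nonneg (h t) (h t')
    · have := mul_nonneg (h t) (h t')
      simpa using this
  have k1 := key u
  have k2 := key v
  have g1 := congrFun f1 t
  have g2 := congrFun f1 t'
  have g3 := congrFun f2 t
  have g4 := congrFun f2 t'
  simp only [Pi.add_apply, Pi.smul_apply, smul_eq_mul, al_self, al_ne htt, al_ne htt.symm]
    at g1 g2 g3 g4
  generalize rho M w⁻¹ (al u) t = a at *
  generalize rho M w⁻¹ (al u) t' = a' at *
  generalize rho M w⁻¹ (al v) t = b at *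
  generalize rho M w⁻¹ (al v) t' = b' at *
  have d1 : (p * q' - p' * q) * a = q' := by linear_combination (-q') * g1 + q * g3
  have d2 : (p * q' - p' * q) * a' = -q := by linear_combination (-q') * g2 + q * g4
  have d3 : (p * q' - p' * q) * b = -p' := by linear_combination p' * g1 - p * g3
  have d4 : (p * q' - p' * q) * b' = p := by linear_combination p' * g2 - p * g4
  have z1 : q * q' = 0 := by
    have : (p * q' - p' * q) ^ 2 * (a * a') = -(q * q') := by
      rw [show (p * q' - p' * q) ^ 2 * (a * a') =
        ((p * q' - p' * q) * a) * ((p * q' - p' * q) * a') by ring, d1, d2]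
      ring
    nlinarith [mul_nonneg (sq_nonneg (p * q' - p' * q)) k1, mul_nonneg a2 a4]
  have z2 : p * p' = 0 := by
    have : (p * q' - p' * q) ^ 2 * (b * b') = -(p * p') := by
      rw [show (p * q' - p' * q) ^ 2 * (b * b') =
        ((p * q' - p' * q) * b) * ((p * q' - p' * q) * b') by ring, d3, d4]
      ring
    nlinarith [mul_nonneg (sq_nonneg (p * q' - p' * q)) k2, mul_nonneg a1 a3]
  rcases mul_eq_zero.1 z1 with h | h
  · left
    rw [h, zero_smul, add_zero] at e1
    have h1 := root_eq M a1 e1
    rw [h1, one_mul] at z2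
    rw [z2, zero_smul, zero_add] at e2
    have h2 := root_eq M a4 e2
    rw [h1, one_smul] at e1
    rw [h2, one_smul] at e2
    exact ⟨e1, e2⟩
  · right
    rw [h, zero_smul, add_zero] at e2
    have h1 := root_eq M a3 e2
    rw [h1, mul_one] at z2
    rw [z2, zero_smul, zero_add] at e1
    have h2 := root_eq M a2 e1
    rw [h1, one_smul] at e2
    rw [h2, one_smul] at e1
    exact ⟨e1, e2⟩

theorem label_eq {w : M.Group} {t t' u v : B}
    (h1 : rho M w (al t) = al u) (h2 : rho M w (al t') = al v) : M t t' = M u v := by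
  have := bf_rho M w (al t) (al t')
  rw [h1, h2, bf_al, bf_al, ip_al, ip_al, cc, cc] at this
  exact cos_inj (by linarith)

omit [Fintype B] [DecidableEq B] in
theorem eq_two_of_cc {s t : B} (h : cc M s t = 0) : M s t = 2 := by
  refine cos_inj ?_
  rw [cc] at h
  rw [Nat.cast_ofNat, cos_pi_div_two]
  linarith

end Pool.Agent.Lib.MP_6d85b4_al
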