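import Mathlib
import Pool.Agent.Lib.MP_6d85b4_al.Roots

set_option autoImplicit false
set_option linter.unusedSectionVars false

namespace Pool.Agent.Lib.MP_6d85b4_al

open Real CoxeterSystem

variable {B : Type} [Fintype B] [DecidableEq B] (M : CoxeterMatrix B)

/-- the braid relators -/
def rels : Set (FreeGroup B) :=
  {r : FreeGroup B | ∃ i j : B, M i j ≠ 0 ∧
    r = ((alternatingWord i j (M i j)).map FreeGroup.of).prod *
      (((alternatingWord j i (M i j)).map FreeGroup.of).prod)⁻¹}

/-- the Artin group -/
abbrev Art := PresentedGroup (rels M)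

/-- standard generator -/
def gen (i : B) : Art M := PresentedGroup.of i

theorem lift_ok {G : Type} [Group G] (f : B → G)
    (h : ∀ i j, M i j ≠ 0 → ((alternatingWord i j (M i j)).map f).prod =
      ((alternatingWord j i (M i j)).map f).prod) :
    ∀ r ∈ rels M, FreeGroup.lift f r = 1 := by
  rintro r ⟨i, j, h0, rfl⟩
  have e : (FreeGroup.lift f) ∘ FreeGroup.of = f := by
    funext x
    simp
  rw [map_mul, map_inv, map_list_prod, map_list_prod, List.map_map, List.map_map, e, h i j h0,
    mul_inv_cancel]

theorem braid {i j : B} (h : M i j ≠ 0) : ((alternatingWord i j (M i j)).map (gen M)).prod =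
    ((alternatingWord j i (M i j)).map (gen M)).prod := by
  have h1 : (PresentedGroup.mk (rels M)) (((alternatingWord i j (M i j)).map FreeGroup.of).prod *
      (((alternatingWord j i (M i j)).map FreeGroup.of).prod)⁻¹) = 1 :=
    PresentedGroup.one_of_mem ⟨i, j, h, rfl⟩
  rw [map_mul, map_inv, map_list_prod, map_list_prod, List.map_map, List.map_map,
    mul_inv_eq_one] at h1
  exact h1

/-- the projection to the Coxeter group -/
noncomputable def pr : Art M →* M.Group :=
  PresentedGroup.toGroup (lift_ok M M.toCoxeterSystem.simple fun i j _ => by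
    have := M.toCoxeterSystem.wordProd_braidWord_eq i j
    unfold braidWord at this
    rw [M.symmetric j i] at this
    exact this)

theorem pr_gen (i : B) : pr M (gen M i) = M.toCoxeterSystem.simple i :=
  PresentedGroup.toGroup.of _

/-- the coset part of a state -/
noncomputable def ee (x : Art M × M.Group) : M.Group := x.2 * (pr M x.1)⁻¹

/-- admissible states -/
def Good (T : Set B) (x : Art M × M.Group) : Prop := ∀ t ∈ T, Pos (rho M (ee M x) (al t))

open Classical in
/-- one step of the retraction automaton -/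
noncomputable def stp (T : Set B) (g : B → Art M) (u : B) (x : Art M × M.Group) :
    Art M × M.Group :=
  if h : ∃ t ∈ T, rho M (ee M x) (al t) = al u then
    (g h.choose * x.1, M.toCoxeterSystem.simple u * x.2)
  else (x.1, M.toCoxeterSystem.simple u * x.2)

variable {M} {T : Set B} {g : B → Art M}

theorem rho_al_inj {w : M.Group} {t t' : B} (h : rho M w (al t) = rho M w (al t')) : t = t' := by
  have := congrArg (rho M w⁻¹) h
  rw [rho_inv, rho_inv] at this
  exact al_inj this

theorem stp_hit {u t : B} {x : Art M × M.Group} (ht : t ∈ T)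
    (h : rho M (ee M x) (al t) = al u) :
    stp M T g u x = (g t * x.1, M.toCoxeterSystem.simple u * x.2) := by
  have h' : ∃ t ∈ T, rho M (ee M x) (al t) = al u := ⟨t, ht, h⟩
  rw [stp, dif_pos h', rho_al_inj (h'.choose_spec.2.trans h.symm)]

theorem stp_miss {u : B} {x : Art M × M.Group}
    (h : ¬ ∃ t ∈ T, rho M (ee M x) (al t) = al u) :
    stp M T g u x = (x.1, M.toCoxeterSystem.simple u * x.2) := by
  rw [stp, dif_neg h]

theorem stp_snd (u : B) (x : Art M × M.Group) :
    (stp M T g u x).2 = M.toCoxeterSystem.simple u * x.2 := by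
  unfold stp
  split_ifs <;> rfl

theorem ee_hit (hg : ∀ t, pr M (g t) = M.toCoxeterSystem.simple t) {u t : B}
    {x : Art M × M.Group} (ht : t ∈ T) (h : rho M (ee M x) (al t) = al u) (y : B → ℝ) :
    rho M (ee M (stp M T g u x)) y = rho M (ee M x) y := by
  have e : ee M (stp M T g u x) =
      M.toCoxeterSystem.simple u * (ee M x * M.toCoxeterSystem.simple t) := by
    rw [stp_hit ht h]
    simp only [ee, map_mul, hg, mul_inv_rev, inv_simple, mul_assoc]
  rw [e, rho_mul, rho_mul, rho_simple, rho_simple, ← rf_conj M h, rf_rf]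

theorem ee_miss {u : B} {x : Art M × M.Group}
    (h : ¬ ∃ t ∈ T, rho M (ee M x) (al t) = al u) (y : B → ℝ) :
    rho M (ee M (stp M T g u x)) y = rf M u (rho M (ee M x) y) := by
  have e : ee M (stp M T g u x) = M.toCoxeterSystem.simple u * ee M x := by
    rw [stp_miss h]
    simp only [ee, mul_assoc]
  rw [e, rho_mul, rho_simple]

theorem good_stp (hg : ∀ t, pr M (g t) = M.toCoxeterSystem.simple t) (u : B)
    {x : Art M × M.Group} (hx : Good M T x) : Good M T (stp M T g u x) := by
  intro t ht
  by_cases h : ∃ t ∈ T, rho M (ee M x) (al t) = al u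
  · obtain ⟨t', ht', h⟩ := h
    rw [ee_hit hg ht' h]
    exact hx t ht
  · rw [ee_miss h]
    exact pos_rf M (hx t ht) fun e => h ⟨t, ht, e⟩

theorem stp_stp {g' : B → Art M} (hg : ∀ t, pr M (g t) = M.toCoxeterSystem.simple t)
    (hgg : ∀ t, g' t * g t = 1) (u : B) {x : Art M × M.Group} (hx : Good M T x) :
    stp M T g' u (stp M T g u x) = x := by
  by_cases h : ∃ t ∈ T, rho M (ee M x) (al t) = al u
  · obtain ⟨t, ht, h⟩ := h
    rw [stp_hit ht ((ee_hit hg ht h _).trans h), stp_hit ht h]
    simp only [← mul_assoc, hgg, one_mul, simple_mul_simple_self]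
  · have h' : ¬ ∃ t ∈ T, rho M (ee M (stp M T g u x)) (al t) = al u := by
      rintro ⟨t, ht, e⟩
      rw [ee_miss h] at e
      have e2 := congrArg (rf M u) e
      rw [rf_rf, rf_self] at e2
      have := hx t ht u
      rw [e2, Pi.neg_apply, al_self] at this
      linarith
    rw [stp_miss h', stp_miss h]
    simp only [← mul_assoc, one_mul, simple_mul_simple_self]

theorem pr_gen_inv (i : B) : pr M (gen M i)⁻¹ = M.toCoxeterSystem.simple i := by
  rw [map_inv, pr_gen, inv_simple]

variable (M T) in
/-- the permutation of admissible states given by a generator -/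
noncomputable def pm (u : B) : Equiv.Perm {x // Good M T x} where
  toFun x := ⟨stp M T (gen M) u x.1, good_stp (pr_gen M) u x.2⟩
  invFun x := ⟨stp M T (fun t => (gen M t)⁻¹) u x.1, good_stp pr_gen_inv u x.2⟩
  left_inv x := Subtype.ext (stp_stp (pr_gen M) (fun _ => inv_mul_cancel _) u x.2)
  right_inv x := Subtype.ext (stp_stp pr_gen_inv (fun _ => mul_inv_cancel _) u x.2)

variable (M T) in
/-- running the automaton along a word, last letter first -/
noncomputable def run (l : List B) (x : Art M × M.Group) : Art M × M.Group :=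
  l.foldr (stp M T (gen M)) x

theorem prod_pm (l : List B) (x : {x // Good M T x}) :
    ((l.map (pm M T)).prod x).1 = run M T l x.1 := by
  induction l with
  | nil => rfl
  | cons u l ih =>
    rw [List.map_cons, List.prod_cons, Equiv.Perm.mul_apply]
    change stp M T (gen M) u _ = stp M T (gen M) u _
    rw [ih]
    rfl

theorem run_snd (l : List B) (x : Art M × M.Group) :
    (run M T l x).2 = M.toCoxeterSystem.wordProd l * x.2 := by
  induction l with
  | nil => simp [run]
  | cons u l ih =>
    change (stp M T (gen M) u (run M T l x)).2 = _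
    rw [stp_snd, ih, wordProd_cons, mul_assoc]

theorem good_run (l : List B) {x : Art M × M.Group} (hx : Good M T x) :
    Good M T (run M T l x) := by
  induction l with
  | nil => exact hx
  | cons u l ih => exact good_stp (pr_gen M) u ih

theorem run_alt (u v : B) (k : ℕ) (x : Art M × M.Group) :
    run M T (alternatingWord u v (k + 1)) x =
      run M T (alternatingWord v u k) (stp M T (gen M) v x) := by
  rw [alternatingWord_succ]
  simp [run]

theorem run_two {u v t t' : B} {x : Art M × M.Group} (ht : t ∈ T) (ht' : t' ∈ T)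
    (h : rho M (ee M x) (al t) = al u) (h' : rho M (ee M x) (al t') = al v) (k : ℕ) :
    (run M T (alternatingWord u v k) x).1 = ((alternatingWord t t' k).map (gen M)).prod * x.1 := by
  induction k generalizing u v t t' x with
  | zero => simp [run, alternatingWord]
  | succ k ih =>
    rw [run_alt, ih ht' ht ((ee_hit (pr_gen M) ht' h' _).trans h')
      ((ee_hit (pr_gen M) ht' h' _).trans h), stp_hit ht' h', alternatingWord_succ]
    simp [mul_assoc]

theorem run_zero {u v : B} {x : Art M × M.Group}
    (h : ∀ t ∈ T, ¬ InP u v (rho M (ee M x) (al t))) (k : ℕ) :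
    (run M T (alternatingWord u v k) x).1 = x.1 := by
  induction k generalizing u v x with
  | zero => simp [run, alternatingWord]
  | succ k ih =>
    have hm : ¬ ∃ t ∈ T, rho M (ee M x) (al t) = al v := by
      rintro ⟨t, ht, e⟩
      exact h t ht (e ▸ (inP_al v u).symm)
    rw [run_alt, ih, stp_miss hm]
    intro t ht hp
    rw [ee_miss hm, inP_rf] at hp
    exact h t ht hp.symm

theorem run_after {u v t : B} {x : Art M × M.Group} (huv : u ≠ v) (hm : 2 ≤ M u v)
    (h : ∀ t' ∈ T, InP u v (rho M (ee M x) (al t')) → t' = t) (j k : ℕ) (hjk : j + k < M u v)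
    (e : rho M (ee M x) (al t) = ch (M u v) j • al v + ch (M u v) (j + 1) • al u) :
    (run M T (alternatingWord u v k) x).1 = x.1 := by
  induction k generalizing u v x j with
  | zero => simp [run, alternatingWord]
  | succ k ih =>
    have hmiss : ¬ ∃ t ∈ T, rho M (ee M x) (al t) = al v := by
      rintro ⟨t', ht', e'⟩
      have := h t' ht' (e' ▸ (inP_al v u).symm)
      subst this
      have h1 := congrFun (e.symm.trans e') u
      simp only [Pi.add_apply, Pi.smul_apply, smul_eq_mul, al_self, al_ne huv] at h1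
      have := ch_pos hm (k := j + 1) (by omega) (by omega)
      linarith
    have hs : M v u = M u v := M.symmetric v u
    rw [run_alt, ih huv.symm (by omega) _ (j + 1) (by omega), stp_miss hmiss]
    · rw [ee_miss hmiss, e, rf_plane, hs, cc, hs]
      rfl
    · intro t' ht' hp
      rw [ee_miss hmiss, inP_rf] at hp
      exact h t' ht' hp.symm

theorem run_before {u v t : B} {x : Art M × M.Group} (huv : u ≠ v) (hm : 2 ≤ M u v) (ht : t ∈ T)
    (h : ∀ t' ∈ T, InP u v (rho M (ee M x) (al t')) → t' = t) (k : ℕ) (hk : k ≤ M u v) :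
    (run M T (alternatingWord u v k) x).1 = gen M t * x.1 ∨
      (run M T (alternatingWord u v k) x).1 = x.1 := by
  induction k generalizing u v x with
  | zero => simp [run, alternatingWord]
  | succ k ih =>
    have hs : M v u = M u v := M.symmetric v u
    by_cases hhit : ∃ t ∈ T, rho M (ee M x) (al t) = al v
    · obtain ⟨t', ht', e'⟩ := hhit
      have := h t' ht' (e' ▸ (inP_al v u).symm)
      subst this
      left
      rw [run_alt, run_after (t := t') huv.symm (by omega) _ 0 k (by omega), stp_hit ht' e']
      · rw [ee_hit (pr_gen M) ht' e', e']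
        simp [ch, sq]
      · intro t'' ht'' hp
        rw [ee_hit (pr_gen M) ht' e'] at hp
        exact h t'' ht'' hp.symm
    · have := ih (x := stp M T (gen M) v x) huv.symm (by omega) (fun t' ht' hp => by
        rw [ee_miss hhit, inP_rf] at hp
        exact h t' ht' hp.symm) (by omega)
      rw [run_alt]
      rw [stp_miss hhit] at this ⊢
      exact this

theorem run_one {u v t : B} {x : Art M × M.Group} (hx : Good M T x) (huv : u ≠ v)
    (hm : 2 ≤ M u v) (ht : t ∈ T) (hp : InP u v (rho M (ee M x) (al t)))
    (h : ∀ t' ∈ T, InP u v (rho M (ee M x) (al t')) → t' = t) :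
    (run M T (alternatingWord u v (M u v)) x).1 = gen M t * x.1 := by
  refine (run_before huv hm ht h _ le_rfl).resolve_right fun e => ?_
  have g1 := good_run (alternatingWord u v (M u v)) hx t ht
  have e1 : ee M (run M T (alternatingWord u v (M u v)) x) =
      M.toCoxeterSystem.wordProd (alternatingWord u v (M u v)) * ee M x := by
    rw [ee, e, run_snd, ee, mul_assoc]
  have e2 := hp.symm.eq huv.symm
  have a1 := hx t ht u
  have a2 := hx t ht v
  have a3 := root_norm M (ee M x) t
  rw [e1, rho_mul, rho_word, e2, wE_alt, cc, (sq_self hm _ _).1, (sq_self hm _ _).2] at g1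
  have b1 := g1 u
  have b2 := g1 v
  have z : rho M (ee M x) (al t) v = 0 ∧ rho M (ee M x) (al t) u = 0 := by
    by_cases hev : Even (M u v)
    · simp only [if_pos hev, Pi.add_apply, Pi.smul_apply, smul_eq_mul, al_self, al_ne huv,
        al_ne huv.symm] at b1 b2
      constructor <;> linarith
    · simp only [if_neg hev, Pi.add_apply, Pi.smul_apply, smul_eq_mul, al_self, al_ne huv,
        al_ne huv.symm] at b1 b2
      constructor <;> linarith
  rw [z.1, z.2, zero_smul, zero_smul, add_zero] at e2
  rw [e2] at a3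
  simp [bf] at a3

theorem run_braid {u v : B} {x : Art M × M.Group} (hx : Good M T x) (h0 : M u v ≠ 0) :
    run M T (alternatingWord u v (M u v)) x = run M T (alternatingWord v u (M u v)) x := by
  by_cases huv : u = v
  · rw [huv]
  have hm : 2 ≤ M u v := by
    have := M.off_diagonal u v huv
    omega
  have hs : M v u = M u v := M.symmetric v u
  refine Prod.ext ?_ ?_
  · by_cases h1 : ∃ t ∈ T, InP u v (rho M (ee M x) (al t))
    · obtain ⟨t, ht, hp⟩ := h1
      by_cases h2 : ∀ t' ∈ T, InP u v (rho M (ee M x) (al t')) → t' = t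
      · have := run_one hx (Ne.symm huv) (by omega) ht hp.symm fun t' a b => h2 t' a b.symm
        rw [hs] at this
        rw [run_one hx huv hm ht hp h2, this]
      · push Not at h2
        obtain ⟨t', ht', hp', hne⟩ := h2
        rcases two_in_plane M hne huv (hx t' ht') (hx t ht) hp' hp with ⟨a, b⟩ | ⟨a, b⟩
        · have l := label_eq M a b
          rw [run_two ht' ht a b, run_two ht ht' b a, ← l, braid M (l ▸ h0)]
        · have l := label_eq M b a
          rw [run_two ht ht' b a, run_two ht' ht a b, ← l, braid M (l ▸ h0)]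
    · push Not at h1
      rw [run_zero h1, run_zero fun t ht hp => h1 t ht hp.symm]
  · have := M.toCoxeterSystem.wordProd_braidWord_eq u v
    unfold braidWord at this
    rw [hs] at this
    rw [run_snd, run_snd, this]

variable (M T) in
/-- the action of the Artin group on admissible states -/
noncomputable def act : Art M →* Equiv.Perm {x // Good M T x} :=
  PresentedGroup.toGroup (lift_ok M (pm M T) fun i j h => by
    refine Equiv.ext fun x => Subtype.ext ?_
    rw [prod_pm, prod_pm, run_braid x.2 h])

theorem act_gen (u : B) : act M T (gen M u) = pm M T u := PresentedGroup.toGroup.of _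

theorem act_gen_val (u : B) (x : {x // Good M T x}) :
    (act M T (gen M u) x).1 = stp M T (gen M) u x.1 := by
  rw [act_gen]
  rfl

theorem act_gen_inv_val (u : B) (x : {x // Good M T x}) :
    (act M T (gen M u)⁻¹ x).1 = stp M T (fun t => (gen M t)⁻¹) u x.1 := by
  rw [map_inv, act_gen]
  rfl

variable (M) in
/-- standard parabolic subgroup -/
def par (T : Set B) : Subgroup (Art M) := Subgroup.closure (gen M '' T)

theorem gen_mem {t : B} (ht : t ∈ T) : gen M t ∈ par M T := Subgroup.subset_closure ⟨t, ht, rfl⟩

theorem act_inv (Y : Art M × M.Group → Prop)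
    (h1 : ∀ u ∈ T, ∀ x, Y x → Y (stp M T (gen M) u x))
    (h2 : ∀ u ∈ T, ∀ x, Y x → Y (stp M T (fun t => (gen M t)⁻¹) u x))
    {a : Art M} (ha : a ∈ par M T) (x : {x // Good M T x}) (hx : Y x.1) : Y (act M T a x).1 := by
  induction ha using Subgroup.closure_induction_left with
  | one => simpa using hx
  | mul_left y hy z hz ih =>
    obtain ⟨u, hu, rfl⟩ := hy
    rw [map_mul, Equiv.Perm.mul_apply, act_gen_val]
    exact h1 u hu _ ih
  | inv_mul_cancel y hy z hz ih =>
    obtain ⟨u, hu, rfl⟩ := hy
    rw [map_mul, Equiv.Perm.mul_apply, act_gen_inv_val]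
    exact h2 u hu _ ih

theorem act_par {a : Art M} (ha : a ∈ par M T) (x : {x // Good M T x}) (hx : x.1 = (1, 1)) :
    (act M T a x).1 = (a, pr M a) := by
  have hit : ∀ (b : Art M) (u : B), rho M (ee M (b, pr M b)) (al u) = al u := by
    intro b u
    simp [ee]
  induction ha using Subgroup.closure_induction_left with
  | one => simpa using hx
  | mul_left y hy z hz ih =>
    obtain ⟨u, hu, rfl⟩ := hy
    rw [map_mul, Equiv.Perm.mul_apply, act_gen_val, ih, stp_hit hu (hit z u), map_mul, pr_gen]
  | inv_mul_cancel y hy z hz ih =>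
    obtain ⟨u, hu, rfl⟩ := hy
    rw [map_mul, Equiv.Perm.mul_apply, act_gen_inv_val, ih, stp_hit hu (hit z u), map_mul,
      pr_gen_inv]

theorem rho_par_coord {s : B} (hs : s ∉ T) {a : Art M} (ha : a ∈ par M T) (y : B → ℝ) :
    rho M (pr M a) y s = y s := by
  induction ha using Subgroup.closure_induction_left with
  | one => simp
  | mul_left y hy z hz ih =>
    obtain ⟨u, hu, rfl⟩ := hy
    have : s ≠ u := fun e => hs (e ▸ hu)
    rw [map_mul, rho_mul, pr_gen, rho_simple, rf_coord M this, ih]
  | inv_mul_cancel y hy z hz ih =>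
    obtain ⟨u, hu, rfl⟩ := hy
    have : s ≠ u := fun e => hs (e ▸ hu)
    rw [map_mul, rho_mul, pr_gen_inv, rho_simple, rf_coord M this, ih]

theorem gen_not_mem {s : B} (hs : s ∉ T) : gen M s ∉ par M T := by
  intro h
  have := rho_par_coord hs h (al s)
  rw [pr_gen, rho_simple, rf_self, Pi.neg_apply, al_self] at this
  linarith

/-- The intersection of a standard parabolic subgroup with its conjugate by a generator. -/
theorem conj_inter {s : B} (hs : s ∉ T) {z : Art M} (h1 : z ∈ par M T)
    (h2 : (gen M s)⁻¹ * z * gen M s ∈ par M T) : z ∈ par M {t | t ∈ T ∧ M s t = 2} := by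
  have hg0 : Good M T (1, 1) := by
    intro t _
    simpa [ee] using pos_al t
  let x0 : {x // Good M T x} := ⟨(1, 1), hg0⟩
  let Y : Art M × M.Group → Prop := fun x => x.1 ∈ par M {t | t ∈ T ∧ M s t = 2} ∧
    ∃ a ∈ par M T, ∀ y, rho M (ee M x) y = rho M (pr M a) (rf M s y)
  have step : ∀ g : B → Art M, (∀ t, pr M (g t) = M.toCoxeterSystem.simple t) →
      (∀ t, t ∈ T ∧ M s t = 2 → g t ∈ par M {t | t ∈ T ∧ M s t = 2}) →
      ∀ u ∈ T, ∀ x, Y x → Y (stp M T g u x) := by
    rintro g hg hg' u hu x ⟨hx, a, ha, he⟩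
    by_cases h : ∃ t ∈ T, rho M (ee M x) (al t) = al u
    · obtain ⟨t, ht, h⟩ := h
      refine ⟨?_, a, ha, fun y => by rw [ee_hit hg ht h, he]⟩
      have hst : s ≠ t := fun e => hs (e ▸ ht)
      have hsu : s ≠ u := fun e => hs (e ▸ hu)
      have h3 := congrFun h s
      rw [he, rho_par_coord hs ha, rf_al] at h3
      simp only [Pi.add_apply, Pi.smul_apply, smul_eq_mul, al_self, al_ne hst, al_ne hsu] at h3
      rw [stp_hit ht h]
      exact mul_mem (hg' t ⟨ht, eq_two_of_cc M (by linarith)⟩) hx
    · refine ⟨by rw [stp_miss h]; exact hx, gen M u * a, mul_mem (gen_mem hu) ha, fun y => ?_⟩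
      rw [ee_miss h, he, map_mul, rho_mul, pr_gen, rho_simple]
  have y1 : Y (act M T (gen M s)⁻¹ x0).1 := by
    have hm : ¬ ∃ t ∈ T, rho M (ee M x0.1) (al t) = al s := by
      rintro ⟨t, ht, e⟩
      have : al t = al s := by simpa [x0, ee] using e
      exact hs (al_inj this ▸ ht)
    rw [act_gen_inv_val]
    refine ⟨by rw [stp_miss hm]; exact one_mem _, 1, one_mem _, fun y => ?_⟩
    rw [ee_miss hm]
    simp [x0, ee]
  have y2 := act_inv Y (step _ (pr_gen M) fun t ht => gen_mem ht)
    (step _ pr_gen_inv fun t ht => inv_mem (gen_mem ht)) h2 _ y1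
  have e1 : act M T z x0 = act M T (gen M s)
      (act M T ((gen M s)⁻¹ * z * gen M s) (act M T (gen M s)⁻¹ x0)) := by
    rw [← Equiv.Perm.mul_apply, ← Equiv.Perm.mul_apply, ← map_mul, ← map_mul]
    congr 2
    group
  have e2 := act_par h1 x0 rfl
  rw [e1, act_gen_val] at e2
  generalize (act M T ((gen M s)⁻¹ * z * gen M s) (act M T (gen M s)⁻¹ x0)).1 = x at y2 e2
  obtain ⟨hx, a, ha, he⟩ := y2
  by_cases h : ∃ t ∈ T, rho M (ee M x) (al t) = al s
  · obtain ⟨t, ht, h⟩ := h
    have h3 := congrFun (ee_hit (pr_gen M) ht h (al s)) s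
    rw [e2, he, rho_par_coord hs ha, rf_self] at h3
    simp [ee] at h3
    linarith
  · rw [stp_miss h] at e2
    have e3 : x.1 = z := congrArg Prod.fst e2
    exact e3 ▸ hx

/-- In an irreducible Artin group no nontrivial normal subgroup lies in a proper standard
parabolic subgroup. -/
theorem normal_eq_bot (hc : (SimpleGraph.fromRel fun i j : B => M i j ≠ 2).Connected)
    (N : Subgroup (Art M)) (hN : N.Normal) (T : Set B) (hT : T ≠ Set.univ) (h : N ≤ par M T) :
    N = ⊥ := by
  induction hn : T.ncard using Nat.strong_induction_on generalizing T with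
  | _ n ih =>
  rcases T.eq_empty_or_nonempty with rfl | ⟨a, ha⟩
  · simpa [par] using h
  obtain ⟨b, hb⟩ := (Set.ne_univ_iff_exists_notMem T).1 hT
  obtain ⟨p⟩ := hc.preconnected a b
  obtain ⟨d, -, d1, d2⟩ := p.exists_boundary_dart T ha hb
  have hadj := d.adj
  rw [SimpleGraph.fromRel_adj] at hadj
  have hne : M d.toProd.2 d.toProd.1 ≠ 2 := by
    rcases hadj.2 with e | e
    · rwa [M.symmetric]
    · exact e
  have hss : {t | t ∈ T ∧ M d.toProd.2 t = 2} ⊂ T :=
    ⟨fun t ht => ht.1, fun hh => hne (hh d1).2⟩
  refine ih _ (hn ▸ Set.ncard_lt_ncard hss T.toFinite) {t | t ∈ T ∧ M d.toProd.2 t = 2}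
    (fun e => hb ?_) (fun z hz => conj_inter d2 (h hz) (h ?_)) rfl
  · have : b ∈ {t | t ∈ T ∧ M d.toProd.2 t = 2} := e ▸ Set.mem_univ b
    exact this.1
  · simpa using hN.conj_mem z hz (gen M d.toProd.2)⁻¹

end Pool.Agent.Lib.MP_6d85b4_al
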