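import Mathlib

set_option autoImplicit false
set_option linter.unusedSectionVars false

namespace Pool.Agent.Lib.MP_6d85b4_al

open CoxeterSystem
open FreeGroup (of lift lift_apply_of closure_range_of)

/-- type of a wall of the line -/
def ty (j : ℤ) : Bool := decide (j % 2 = 0)

theorem ty_succ (j : ℤ) : ty (j + 1) = !ty j := by
  unfold ty
  by_cases h : j % 2 = 0
  · have : ¬ (j + 1) % 2 = 0 := by omega
    simp [h, this]
  · have : (j + 1) % 2 = 0 := by omega
    simp [h, this]

theorem ty_pred (j : ℤ) : ty (j - 1) = !ty j := by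
  have := ty_succ (j - 1)
  rw [sub_add_cancel] at this
  simp [this]

theorem ty_two (j k : ℤ) : ty (j + 2 * k) = ty j := by
  unfold ty
  have : (j + 2 * k) % 2 = j % 2 := by omega
  rw [this]

section act

variable {Γ : Type} [Group Γ]

/-- a generator acting on pointed chambers of the line -/
def stepP (v : ℤ → Γ) (b : Bool) : Equiv.Perm (ℤ × Γ) where
  toFun x := if ty x.1 = b then (x.1 + 1, x.2) else (x.1 - 1, v (x.1 - 1) * x.2)
  invFun x := if ty x.1 = b then (x.1 + 1, (v x.1)⁻¹ * x.2) else (x.1 - 1, x.2)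
  left_inv x := by
    by_cases h : ty x.1 = b
    · have : ¬ ty (x.1 + 1) = b := by rw [ty_succ, h]; simp
      simp [h, this]
    · have : ty (x.1 - 1) = b := by rw [ty_pred]; revert h; cases ty x.1 <;> cases b <;> simp
      simp [h, this]
  right_inv x := by
    by_cases h : ty x.1 = b
    · have : ¬ ty (x.1 + 1) = b := by rw [ty_succ, h]; simp
      simp [h, this]
    · have : ty (x.1 - 1) = b := by rw [ty_pred]; revert h; cases ty x.1 <;> cases b <;> simp
      simp [h, this]

/-- the action of the free group of rank two -/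
def lact (v : ℤ → Γ) : FreeGroup Bool →* Equiv.Perm (ℤ × Γ) := lift (stepP v)

theorem lact_of (v : ℤ → Γ) (b : Bool) (x : ℤ × Γ) : lact v (of b) x =
    if ty x.1 = b then (x.1 + 1, x.2) else (x.1 - 1, v (x.1 - 1) * x.2) := by
  rw [lact, lift_apply_of]
  rfl

theorem lact_of_inv (v : ℤ → Γ) (b : Bool) (x : ℤ × Γ) : lact v (of b)⁻¹ x =
    if ty x.1 = b then (x.1 + 1, (v x.1)⁻¹ * x.2) else (x.1 - 1, x.2) := by
  rw [map_inv, lact, lift_apply_of]
  rfl

end act

theorem free_ind {α : Type} {p : FreeGroup α → Prop} (h1 : p 1)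
    (h2 : ∀ b w, p w → p (of b * w)) (h3 : ∀ b w, p w → p ((of b)⁻¹ * w)) (w : FreeGroup α) :
    p w := by
  have : w ∈ Subgroup.closure (Set.range (of : α → FreeGroup α)) := by
    rw [closure_range_of]
    trivial
  induction this using Subgroup.closure_induction_left with
  | one => exact h1
  | mul_left x hx y _ ih =>
    obtain ⟨b, rfl⟩ := hx
    exact h2 b y ih
  | inv_mul_cancel x hx y _ ih =>
    obtain ⟨b, rfl⟩ := hx
    exact h3 b y ih

/-- final chamber -/
def pos (w : FreeGroup Bool) (n : ℤ) : ℤ := (lact (of : ℤ → FreeGroup ℤ) w (n, 1)).1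

/-- universal cocycle -/
def coc (w : FreeGroup Bool) (n : ℤ) : FreeGroup ℤ := (lact (of : ℤ → FreeGroup ℤ) w (n, 1)).2

theorem lact_gen {Γ : Type} [Group Γ] (v : ℤ → Γ) (w : FreeGroup Bool) (n : ℤ) (g : Γ) :
    lact v w (n, g) = (pos w n, lift v (coc w n) * g) := by
  induction w using free_ind with
  | h1 => simp [pos, coc]
  | h2 b w ih =>
    unfold pos coc at *
    rw [map_mul, map_mul, Equiv.Perm.mul_apply, Equiv.Perm.mul_apply, ih, lact_of, lact_of]
    split_ifs <;> simp [mul_assoc]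
  | h3 b w ih =>
    unfold pos coc at *
    rw [map_mul, map_mul, Equiv.Perm.mul_apply, Equiv.Perm.mul_apply, ih, lact_of_inv, lact_of_inv]
    split_ifs <;> simp [mul_assoc]

theorem lact_univ (w : FreeGroup Bool) (n : ℤ) (g : FreeGroup ℤ) :
    lact of w (n, g) = (pos w n, coc w n * g) := by
  rw [lact_gen, FreeGroup.lift_of_apply]

theorem pos_mul (w w' : FreeGroup Bool) (n : ℤ) : pos (w * w') n = pos w (pos w' n) := by
  conv_lhs => rw [pos, map_mul, Equiv.Perm.mul_apply, lact_univ, lact_univ]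

theorem coc_mul (w w' : FreeGroup Bool) (n : ℤ) :
    coc (w * w') n = coc w (pos w' n) * coc w' n := by
  conv_lhs => rw [coc, map_mul, Equiv.Perm.mul_apply, lact_univ, lact_univ, mul_one]

theorem pos_one (n : ℤ) : pos 1 n = n := by simp [pos]

theorem coc_one (n : ℤ) : coc 1 n = 1 := by simp [coc]

theorem pos_of (b : Bool) (n : ℤ) : pos (of b) n = if ty n = b then n + 1 else n - 1 := by
  rw [pos, lact_of]
  split_ifs <;> rfl

theorem pos_of_inv (b : Bool) (n : ℤ) : pos (of b)⁻¹ n = if ty n = b then n + 1 else n - 1 := by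
  rw [pos, lact_of_inv]
  split_ifs <;> rfl

theorem coc_of (b : Bool) (n : ℤ) : coc (of b) n = if ty n = b then 1 else of (n - 1) := by
  rw [coc, lact_of]
  split_ifs <;> simp

theorem coc_of_inv (b : Bool) (n : ℤ) : coc (of b)⁻¹ n = if ty n = b then (of n)⁻¹ else 1 := by
  rw [coc, lact_of_inv]
  split_ifs <;> simp

theorem exists_sig : ∃ σ : ℤ → FreeGroup Bool, ∀ n, σ (n + 1) = of (ty n) * σ n := by
  let u : ℕ → FreeGroup Bool := fun k => Nat.rec 1 (fun k a => of (ty k) * a) k
  let d : ℕ → FreeGroup Bool := fun k => Nat.rec 1 (fun k a => (of (ty (-(k : ℤ) - 1)))⁻¹ * a) k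
  refine ⟨fun n => if 0 ≤ n then u n.toNat else d (-n).toNat, fun n => ?_⟩
  by_cases h : 0 ≤ n
  · obtain ⟨k, rfl⟩ := Int.eq_ofNat_of_zero_le h
    have h1 : (0 : ℤ) ≤ k + 1 := by omega
    have e : ((k : ℤ) + 1).toNat = k + 1 := by omega
    simp only [h, h1, if_true, e, Int.toNat_natCast]
    rfl
  · obtain ⟨k, rfl⟩ : ∃ k : ℕ, n = -(k : ℤ) - 1 := ⟨(-n - 1).toNat, by omega⟩
    have e : (-(-(k : ℤ) - 1)).toNat = k + 1 := by omega
    have e1 : d (k + 1) = (of (ty (-(k : ℤ) - 1)))⁻¹ * d k := rfl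
    simp only [h, if_false, e, e1, mul_inv_cancel_left]
    split_ifs with h2
    · obtain rfl : k = 0 := by omega
      rfl
    · congr 1
      omega

theorem sec {σ : ℤ → FreeGroup Bool} (hσ : ∀ n, σ (n + 1) = of (ty n) * σ n)
    (w : FreeGroup Bool) (n : ℤ) :
    w * σ n = σ (pos w n) * lift (fun j => (σ j)⁻¹ * (of (ty j) * of (ty j)) * σ j) (coc w n) := by
  have dn : ∀ (b : Bool) (n : ℤ), ¬ ty n = b → ty (n - 1) = b ∧ σ n = of b * σ (n - 1) := by
    intro b n h
    have e : ty (n - 1) = b := by rw [ty_pred]; revert h; cases ty n <;> cases b <;> simp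
    have := hσ (n - 1)
    rw [sub_add_cancel, e] at this
    exact ⟨e, this⟩
  induction w using free_ind with
  | h1 => simp [pos_one, coc_one]
  | h2 b w ih =>
    rw [mul_assoc, ih, pos_mul, coc_mul, map_mul, pos_of, coc_of]
    split_ifs with h
    · rw [hσ, h]
      simp [mul_assoc]
    · obtain ⟨e1, e2⟩ := dn b _ h
      rw [lift_apply_of, e1, e2]
      simp [mul_assoc]
  | h3 b w ih =>
    rw [mul_assoc, ih, pos_mul, coc_mul, map_mul, pos_of_inv, coc_of_inv]
    split_ifs with h
    · rw [hσ, h, map_inv, lift_apply_of, h]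
      simp [mul_assoc]
    · obtain ⟨e1, e2⟩ := dn b _ h
      rw [e2]
      simp [mul_assoc]

theorem eq_one_of_coc {w : FreeGroup Bool} {n : ℤ} (h1 : pos w n = n) (h2 : coc w n = 1) :
    w = 1 := by
  obtain ⟨σ, hσ⟩ := exists_sig
  have := sec hσ w n
  rw [h1, h2] at this
  simpa using this

/-- total exponent -/
def dg (α : Type) : FreeGroup α →* Multiplicative ℤ := lift fun _ => Multiplicative.ofAdd 1

theorem dg_coc {w : FreeGroup Bool} {n : ℤ} (h1 : pos w n = n) (h2 : dg Bool w = 1) :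
    dg ℤ (coc w n) = 1 := by
  obtain ⟨σ, hσ⟩ := exists_sig
  have := congrArg (dg Bool) (sec hσ w n)
  have e : ∀ g, dg Bool (lift (fun j => (σ j)⁻¹ * (of (ty j) * of (ty j)) * σ j) g) =
      dg ℤ g * dg ℤ g := by
    intro g
    induction g using free_ind with
    | h1 => simp
    | h2 b w ih =>
      rw [map_mul, map_mul, ih, lift_apply_of]
      simp only [map_mul, map_inv, dg, lift_apply_of]
      apply Multiplicative.toAdd.injective
      simp only [toAdd_mul, toAdd_inv]
      ring
    | h3 b w ih =>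
      rw [map_mul, map_mul, ih, map_inv, lift_apply_of]
      simp only [map_mul, map_inv, dg, lift_apply_of]
      apply Multiplicative.toAdd.injective
      simp only [toAdd_mul, toAdd_inv]
      ring
  rw [h1, map_mul, map_mul, h2, e, one_mul] at this
  apply Multiplicative.toAdd.injective
  have := congrArg Multiplicative.toAdd this
  simp only [toAdd_mul, toAdd_one] at this ⊢
  omega

/-- cocycles killing the braid relator -/
def Valid {Γ : Type} [Group Γ] (m : ℕ) (v : ℤ → Γ) : Prop :=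
  (∀ c, v (c + m) = v c) ∧ ∀ c : ℤ, ((List.range m).map fun a : ℕ => v (c + a)).prod = 1

/-- alternating products -/
def altw (b : Bool) (k : ℕ) : FreeGroup Bool := ((alternatingWord (!b) b k).map of).prod

theorem altw_succ (b : Bool) (k : ℕ) : altw b (k + 1) = altw (!b) k * of b := by
  simp [altw, alternatingWord_succ]

/-- the braid relator -/
def brel (m : ℕ) : FreeGroup Bool := altw false m * (altw true m)⁻¹

theorem alt_up {Γ : Type} [Group Γ] (v : ℤ → Γ) (k : ℕ) : ∀ (b : Bool) (n : ℤ) (g : Γ),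
    ty n = b → lact v (altw b k) (n, g) = (n + k, g) := by
  induction k with
  | zero => intro b n g _; simp [altw, alternatingWord]
  | succ k ih =>
    intro b n g h
    rw [altw_succ, map_mul, Equiv.Perm.mul_apply, lact_of, if_pos h, ih _ _ _ (by rw [ty_succ, h])]
    congr 1
    push_cast
    ring

theorem alt_down {Γ : Type} [Group Γ] (v : ℤ → Γ) (k : ℕ) : ∀ (b : Bool) (n : ℤ) (g : Γ),
    ¬ ty n = b → lact v (altw b k) (n, g) =
      (n - k, ((List.range k).map fun a : ℕ => v (n - k + a)).prod * g) := by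
  induction k with
  | zero => intro b n g _; simp [altw, alternatingWord]
  | succ k ih =>
    intro b n g h
    rw [altw_succ, map_mul, Equiv.Perm.mul_apply, lact_of, if_neg h,
      ih _ _ _ (by rw [ty_pred]; simpa using h), List.range_succ, List.map_append,
      List.prod_append]
    have e1 : n - 1 - k = n - (k + 1 : ℕ) := by push_cast; ring
    have e2 : n - (k + 1 : ℕ) + k = n - 1 := by push_cast; ring
    simp only [e1, e2, List.map_cons, List.map_nil, List.prod_cons, List.prod_nil, mul_one,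
      mul_assoc]

theorem valid_shift {Γ : Type} [Group Γ] {m : ℕ} {v : ℤ → Γ} (hv : Valid m v) (c k : ℤ) :
    v (c + m * k) = v c := by
  induction k using Int.induction_on with
  | zero => simp
  | succ k ih => rw [mul_add, mul_one, ← add_assoc, hv.1, ih]
  | pred k ih =>
    rw [← ih, ← hv.1]
    congr 1
    ring

theorem lact_shift {Γ : Type} [Group Γ] {m : ℕ} {v : ℤ → Γ} (hv : Valid m v) (k : ℤ)
    (w : FreeGroup Bool) (n : ℤ) (g : Γ) :
    lact v w (n + 2 * (m * k), g) = ((lact v w (n, g)).1 + 2 * (m * k), (lact v w (n, g)).2) := by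
  have e : ∀ c : ℤ, v (c + 2 * (m * k)) = v c := fun c => by
    rw [← valid_shift hv c (2 * k)]
    congr 1
    ring
  induction w using free_ind with
  | h1 => simp
  | h2 b w ih =>
    rw [map_mul, Equiv.Perm.mul_apply, Equiv.Perm.mul_apply, ih, lact_of, lact_of, ty_two]
    split_ifs
    · simp only [Prod.mk.injEq, and_true]
      ring
    · simp only [add_sub_right_comm, e]
  | h3 b w ih =>
    rw [map_mul, Equiv.Perm.mul_apply, Equiv.Perm.mul_apply, ih, lact_of_inv, lact_of_inv, ty_two]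
    split_ifs
    · simp only [Prod.mk.injEq, e, and_true]
      ring
    · simp only [add_sub_right_comm]

theorem lact_rel {Γ : Type} [Group Γ] {m : ℕ} {v : ℤ → Γ} (hv : Valid m v) {w : FreeGroup Bool}
    (hw : w ∈ Subgroup.normalClosure {brel m}) (n : ℤ) (g : Γ) :
    ∃ k : ℤ, lact v w (n, g) = (n + 2 * (m * k), g) := by
  let N : Subgroup (FreeGroup Bool) :=
    { carrier := {w | ∀ n g, ∃ k : ℤ, lact v w (n, g) = (n + 2 * (m * k), g)}
      one_mem' := fun n g => ⟨0, by simp⟩
      mul_mem' := fun {a b} ha hb n g => by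
        obtain ⟨k, hk⟩ := hb n g
        obtain ⟨k', hk'⟩ := ha (n + 2 * (m * k)) g
        refine ⟨k + k', ?_⟩
        rw [map_mul, Equiv.Perm.mul_apply, hk, hk']
        congr 1
        ring
      inv_mem' := fun {a} ha n g => by
        obtain ⟨k, hk⟩ := ha n g
        refine ⟨-k, ?_⟩
        rw [map_inv, Equiv.Perm.inv_eq_iff_eq, lact_shift hv, hk]
        congr 1
        ring }
  have hN : N.Normal := ⟨fun a ha u n g => by
    obtain ⟨k, hk⟩ := ha (lact v u⁻¹ (n, g)).1 (lact v u⁻¹ (n, g)).2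
    refine ⟨k, ?_⟩
    rw [map_mul, map_mul, Equiv.Perm.mul_apply, Equiv.Perm.mul_apply, hk, lact_shift hv]
    simp⟩
  refine Subgroup.normalClosure_le_normal (N := N) ?_ hw n g
  rintro _ rfl n g
  obtain ⟨⟨n0, g0⟩, h0⟩ := (lact v (altw true m)).surjective (n, g)
  have e : lact v (brel m) (n, g) = lact v (altw false m) (n0, g0) := by
    rw [brel, map_mul, map_inv, Equiv.Perm.mul_apply, ← h0]
    simp
  rw [e]
  by_cases h : ty n0 = true
  · rw [alt_up v m _ _ _ h] at h0
    obtain ⟨rfl, rfl⟩ := Prod.mk.inj h0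
    refine ⟨-1, ?_⟩
    rw [alt_down v m _ _ _ (by simp [h]), hv.2, one_mul]
    congr 1
    ring
  · rw [alt_down v m _ _ _ h, hv.2, one_mul] at h0
    obtain ⟨rfl, rfl⟩ := Prod.mk.inj h0
    refine ⟨1, ?_⟩
    rw [alt_up v m _ _ _ (by simpa using h)]
    congr 1
    ring

theorem pos_rel {m : ℕ} {w : FreeGroup Bool} (hw : w ∈ Subgroup.normalClosure {brel m}) (n : ℤ) :
    ∃ k : ℤ, pos w n = n + 2 * (m * k) := by
  obtain ⟨k, hk⟩ := lact_rel (v := fun _ => (1 : FreeGroup ℤ)) ⟨fun _ => rfl, by simp⟩ hw n 1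
  rw [lact_gen] at hk
  exact ⟨k, (Prod.mk.inj hk).1⟩

/-- values of the universal cocycle on closed relators -/
def Ker (m : ℕ) (g : FreeGroup ℤ) : Prop :=
  dg ℤ g = 1 ∧ ∀ (Γ : Type) [Group Γ] (v : ℤ → Γ), Valid m v → lift v g = 1

theorem ker_coc {m : ℕ} {w : FreeGroup Bool} (hw : w ∈ Subgroup.normalClosure {brel m}) {n : ℤ}
    (h : pos w n = n) : Ker m (coc w n) := by
  refine ⟨dg_coc h ?_, fun Γ _ v hv => ?_⟩
  · refine Subgroup.normalClosure_le_normal (N := (dg Bool).ker) ?_ hw
    rintro _ rfl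
    have e : ∀ k b, dg Bool (altw b k) = Multiplicative.ofAdd (k : ℤ) := by
      intro k
      induction k with
      | zero => intro b; simp [altw, alternatingWord]
      | succ k ih =>
        intro b
        rw [altw_succ, map_mul, ih, dg, lift_apply_of, ← ofAdd_add]
        simp
    simp [brel, e]
  · obtain ⟨k, hk⟩ := lact_rel hv hw n 1
    rw [lact_gen] at hk
    simpa using (Prod.mk.inj hk).2

theorem Ker.rot {m : ℕ} {a b : FreeGroup ℤ} (h : Ker m (a * b)) : Ker m (b * a) := by
  refine ⟨by rw [map_mul, mul_comm, ← map_mul, h.1], fun Γ _ v hv => ?_⟩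
  have := h.2 Γ v hv
  rw [map_mul] at this ⊢
  exact mul_eq_one_comm.1 this

/-- free factor on an interval of walls -/
def FI (a b : ℤ) : Subgroup (FreeGroup ℤ) := Subgroup.closure (of '' Set.Icc a b)

theorem FI_mono {a b a' b' : ℤ} {g : FreeGroup ℤ} (h : g ∈ FI a b) (h1 : a' ≤ a) (h2 : b ≤ b') :
    g ∈ FI a' b' := Subgroup.closure_mono (Set.image_mono (Set.Icc_subset_Icc h1 h2)) h

theorem of_mem_FI {a b c : ℤ} (h1 : a ≤ c) (h2 : c ≤ b) : of c ∈ FI a b :=
  Subgroup.subset_closure ⟨c, ⟨h1, h2⟩, rfl⟩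

theorem exists_valid {Γ : Type} [Group Γ] (m : ℕ) (j : ℤ) (f : ℕ → Γ) :
    ∃ v : ℤ → Γ, Valid (m + 1) v ∧ (∀ a : ℕ, a < m → v (j + a) = f a) ∧
      v (j + m) = (((List.range m).map f).prod)⁻¹ := by
  let v : ℤ → Γ := fun c => if ((c - j) % (m + 1 : ℕ)).toNat < m then
    f ((c - j) % (m + 1 : ℕ)).toNat else (((List.range m).map f).prod)⁻¹
  have e : ∀ a : ℕ, a ≤ m → ((j + a - j) % (m + 1 : ℕ)).toNat = a := by
    intro a ha
    rw [add_sub_cancel_left, Int.emod_eq_of_lt (by omega) (by omega), Int.toNat_natCast]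
  have v1 : ∀ a : ℕ, a < m → v (j + a) = f a := fun a ha => by
    simp only [v, e a ha.le, ha, if_true]
  have v2 : v (j + m) = (((List.range m).map f).prod)⁻¹ := by
    simp only [v, e m le_rfl, lt_irrefl, if_false]
  have per : ∀ c, v (c + (m + 1 : ℕ)) = v c := fun c => by
    simp only [v, add_sub_right_comm, Int.add_emod_right]
  have sh : ∀ c : ℤ, v c * ((List.range (m + 1)).map fun a : ℕ => v (c + 1 + a)).prod =
      ((List.range (m + 1)).map fun a : ℕ => v (c + a)).prod * v c := by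
    intro c
    have h1 : ((List.range (m + 1 + 1)).map fun a : ℕ => v (c + a)).prod =
        ((List.range (m + 1)).map fun a : ℕ => v (c + a)).prod * v c := by
      rw [List.range_succ (n := m + 1), List.map_append, List.prod_append]
      simp only [List.map_cons, List.map_nil, List.prod_cons, List.prod_nil, mul_one, per]
    rw [← h1, List.range_succ_eq_map (n := m + 1), List.map_cons, List.prod_cons, List.map_map]
    congr 2
    · simp
    · refine List.map_congr_left fun a _ => ?_
      simp only [Function.comp, Nat.succ_eq_add_one]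
      congr 1
      push_cast
      ring
  refine ⟨v, ⟨per, fun c => ?_⟩, v1, v2⟩
  obtain ⟨k, rfl⟩ : ∃ k, c = j + k := ⟨c - j, by ring⟩
  induction k using Int.induction_on with
  | zero =>
    rw [add_zero, List.range_succ, List.map_append, List.prod_append,
      List.map_congr_left fun a ha => v1 a (List.mem_range.1 ha)]
    simp [v2]
  | succ k ih =>
    have := sh (j + k)
    rw [ih, one_mul, mul_eq_left] at this
    rw [← add_assoc]
    exact this
  | pred k ih =>
    have := sh (j + (-k - 1))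
    have e : j + (-(k : ℤ) - 1) + 1 = j + -k := by ring
    rw [e, ih, mul_one] at this
    exact mul_eq_right.1 this.symm

theorem lift_FI {v : ℤ → FreeGroup ℤ} {a b : ℤ} (h : ∀ c, a ≤ c → c ≤ b → v c = of c)
    {g : FreeGroup ℤ} (hg : g ∈ FI a b) : lift v g = g := by
  induction hg using Subgroup.closure_induction with
  | mem x hx =>
    obtain ⟨c, hc, rfl⟩ := hx
    rw [lift_apply_of, h c hc.1 hc.2]
  | one => simp
  | mul x y _ _ hx hy => rw [map_mul, hx, hy]
  | inv x _ hx => rw [map_inv, hx]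

theorem lift_mem {Γ : Type} [Group Γ] {v : ℤ → Γ} {a b : ℤ} {H : Subgroup Γ}
    (h : ∀ c, a ≤ c → c ≤ b → v c ∈ H) {g : FreeGroup ℤ} (hg : g ∈ FI a b) : lift v g ∈ H := by
  induction hg using Subgroup.closure_induction with
  | mem x hx =>
    obtain ⟨c, hc, rfl⟩ := hx
    rw [lift_apply_of]
    exact h c hc.1 hc.2
  | one => simp
  | mul x y _ _ hx hy => rw [map_mul]; exact mul_mem hx hy
  | inv x _ hx => rw [map_inv]; exact inv_mem hx

theorem v_one {m : ℕ} {j : ℤ} {g : FreeGroup ℤ} (hg : g ∈ FI j (j + m - 1)) (hk : Ker (m + 1) g) :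
    g = 1 := by
  obtain ⟨v, hv, v1, -⟩ := exists_valid m j fun a => (of (j + a) : FreeGroup ℤ)
  rw [← hk.2 _ v hv, lift_FI _ hg]
  intro c h1 h2
  obtain ⟨a, rfl⟩ : ∃ a : ℕ, c = j + a := ⟨(c - j).toNat, by omega⟩
  exact v1 a (by omega)

theorem v_five {m : ℕ} (hm : 6 ≤ m) {j : ℤ} {g : FreeGroup ℤ} (hg : g ∈ FI j (j + 4))
    (hk : Ker m g) : g = 1 := by
  obtain ⟨m, rfl⟩ : ∃ k, m = k + 1 := ⟨m - 1, by omega⟩
  exact v_one (FI_mono hg le_rfl (by omega)) hk

theorem v_six {m : ℕ} (hm : 6 ≤ m) {j : ℤ} {a b c d : FreeGroup ℤ} (ha : a ∈ FI j (j + 2))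
    (hb : b ∈ FI (j + 1) (j + 4)) (hc : c ∈ FI (j + 3) (j + 5)) (hd : d ∈ FI (j + 1) (j + 4))
    (hk : Ker m (a * b * c * d)) : a * b * c * d = 1 := by
  have hall : a * b * c * d ∈ FI j (j + 5) :=
    mul_mem (mul_mem (mul_mem (FI_mono ha le_rfl (by omega)) (FI_mono hb (by omega) (by omega)))
      (FI_mono hc (by omega) le_rfl)) (FI_mono hd (by omega) (by omega))
  by_cases h7 : 7 ≤ m
  · obtain ⟨m, rfl⟩ : ∃ k, m = k + 1 := ⟨m - 1, by omega⟩
    exact v_one (FI_mono hall le_rfl (by omega)) hk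
  obtain rfl : m = 5 + 1 := by omega
  let ct : FreeGroup ℤ →* Multiplicative ℤ :=
    lift fun x => if x = j + 5 then Multiplicative.ofAdd 1 else 1
  obtain ⟨u, hu, u1, u2⟩ := exists_valid 5 j fun _ => Multiplicative.ofAdd (1 : ℤ)
  have e1 : ∀ g ∈ FI j (j + 5), (lift u g).toAdd = (dg ℤ g).toAdd - 6 * (ct g).toAdd := by
    intro g hg
    induction hg using Subgroup.closure_induction with
    | mem x hx =>
      obtain ⟨x, hx, rfl⟩ := hx
      simp only [dg, ct, lift_apply_of]
      split_ifs with h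
      · have : u x = _ := h ▸ u2
        rw [this]
        decide
      · obtain ⟨a, rfl⟩ : ∃ a : ℕ, x = j + a := ⟨(x - j).toNat, by have := hx.1; omega⟩
        rw [u1 a (by have := hx.2; omega)]
        simp
    | one => simp
    | mul x y _ _ hx hy => simp only [map_mul, toAdd_mul, hx, hy]; ring
    | inv x _ hx => simp only [map_inv, toAdd_inv, hx]; ring
  have e2 : ∀ g ∈ FI j (j + 4), ct g = 1 := fun g hg =>
    Subgroup.mem_bot.1 (lift_mem (fun x _ h2 => by rw [if_neg (by omega)]; exact one_mem _) hg)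
  have e3 : ct c = 1 := by
    have := e1 _ hall
    rw [hk.1, hk.2 _ u hu, map_mul ct, map_mul ct, map_mul ct, e2 a (FI_mono ha le_rfl (by omega)),
      e2 b (FI_mono hb (by omega) le_rfl), e2 d (FI_mono hd (by omega) le_rfl)] at this
    apply Multiplicative.toAdd.injective
    simp only [toAdd_one, one_mul, mul_one] at this ⊢
    omega
  obtain ⟨v, hv, v1, -⟩ := exists_valid 5 j fun a => if a ≤ 2 then (of (j + a) : FreeGroup ℤ) else 1
  have e4 : ∀ g ∈ FI (j + 3) (j + 5), lift v g = v (j + 5) ^ (ct g).toAdd := by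
    intro g hg
    induction hg using Subgroup.closure_induction with
    | mem x hx =>
      obtain ⟨x, hx, rfl⟩ := hx
      simp only [ct, lift_apply_of]
      split_ifs with h
      · simp [h]
      · obtain ⟨a, rfl⟩ : ∃ a : ℕ, x = j + a := ⟨(x - j).toNat, by have := hx.1; omega⟩
        rw [v1 a (by have := hx.2; omega), if_neg (by have := hx.1; omega)]
        simp
    | one => simp
    | mul x y _ _ hx hy => simp only [map_mul, toAdd_mul, hx, hy, zpow_add]
    | inv x _ hx => simp only [map_inv, toAdd_inv, hx, zpow_neg]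
  have e5 : ∀ g ∈ FI (j + 1) (j + 4), lift v g ∈ FI (j + 1) (j + 5) := by
    intro g hg
    refine lift_mem (fun x h1 h2 => ?_) hg
    obtain ⟨a, rfl⟩ : ∃ a : ℕ, x = j + a := ⟨(x - j).toNat, by omega⟩
    rw [v1 a (by omega)]
    split_ifs
    · exact of_mem_FI h1 (by omega)
    · exact one_mem _
  have e6 : lift v a = a := by
    refine lift_FI (fun x h1 h2 => ?_) ha
    obtain ⟨a, rfl⟩ : ∃ a : ℕ, x = j + a := ⟨(x - j).toNat, by omega⟩
    rw [v1 a (by omega), if_pos (by omega)]
  have e7 := hk.2 _ v hv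
  rw [map_mul, map_mul, map_mul, e6, e4 c hc, e3, toAdd_one, zpow_zero, mul_one, mul_assoc,
    mul_eq_one_iff_eq_inv] at e7
  have e8 : a ∈ FI (j + 1) (j + 5) := e7 ▸ inv_mem (mul_mem (e5 b hb) (e5 d hd))
  refine v_one (m := 5) (j := j + 1) (FI_mono (a := j + 1) (b := j + 5) ?_ le_rfl (by omega)) hk
  exact mul_mem (mul_mem (mul_mem e8 (FI_mono hb le_rfl (by omega)))
    (FI_mono hc (by omega) le_rfl)) (FI_mono hd le_rfl (by omega))

end Pool.Agent.Lib.MP_6d85b4_al
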