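import Mathlib
import Pool.Agent.Lib.MP_6d85b4_al.Dih

set_option autoImplicit false
set_option linter.unusedSectionVars false

namespace Pool.Agent.Lib.MP_6d85b4_al

open FreeGroup (of lift lift_apply_of closure_range_of)

/-- the wall of type `b` of a chamber -/
def wl (b : Bool) (n : ℤ) : ℤ := if ty n = b then n else n - 1

theorem ty_wl (b : Bool) (n : ℤ) : ty (wl b n) = b := by
  unfold wl
  split_ifs with h
  · exact h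
  · rw [ty_pred]
    revert h
    cases ty n <;> cases b <;> simp

theorem wl_mem (b : Bool) (n : ℤ) : n = wl b n ∨ n = wl b n + 1 := by
  unfold wl
  split_ifs <;> simp

theorem pow_act (a : ℤ) (k : ℤ) : ∀ n, n = a ∨ n = a + 1 →
    pos (of (ty a) ^ k) n = (if k % 2 = 0 then n else 2 * a + 1 - n) ∧
      coc (of (ty a) ^ k) n ∈ FI a a := by
  have h1 : ¬ ty (a + 1) = ty a := by rw [ty_succ]; simp
  induction k using Int.induction_on with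
  | zero => intro n _; simp [pos_one, coc_one]
  | succ k ih =>
    intro n hn
    rw [zpow_add_one, pos_mul, coc_mul, pos_of, coc_of]
    rcases hn with rfl | rfl
    · obtain ⟨i1, i2⟩ := ih (n + 1) (Or.inr rfl)
      simp only [if_true, i1, mul_one]
      exact ⟨by split_ifs <;> omega, i2⟩
    · obtain ⟨i1, i2⟩ := ih a (Or.inl rfl)
      simp only [h1, if_false, add_sub_cancel_right, i1]
      exact ⟨by split_ifs <;> omega, mul_mem i2 (of_mem_FI le_rfl le_rfl)⟩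
  | pred k ih =>
    intro n hn
    rw [zpow_sub_one, pos_mul, coc_mul, pos_of_inv, coc_of_inv]
    rcases hn with rfl | rfl
    · obtain ⟨i1, i2⟩ := ih (n + 1) (Or.inr rfl)
      simp only [if_true, i1]
      exact ⟨by split_ifs <;> omega, mul_mem i2 (inv_mem (of_mem_FI le_rfl le_rfl))⟩
    · obtain ⟨i1, i2⟩ := ih a (Or.inl rfl)
      simp only [h1, if_false, add_sub_cancel_right, i1, mul_one]
      exact ⟨by split_ifs <;> omega, i2⟩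

theorem pow_act' (b : Bool) (k n : ℤ) :
    pos (of b ^ k) n = (if k % 2 = 0 then n else 2 * wl b n + 1 - n) ∧
      coc (of b ^ k) n ∈ FI (wl b n) (wl b n) := by
  have := pow_act (wl b n) k n (wl_mem b n)
  rwa [ty_wl] at this

/-- an odd syllable is allowed -/
def Od (E : Bool → ℤ → Prop) (b : Bool) : Prop := ∃ k, k % 2 = 1 ∧ E b k

/-- a nontrivial syllable is allowed -/
def An (E : Bool → ℤ → Prop) (b : Bool) : Prop := ∃ k, k ≠ 0 ∧ E b k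

/-- odd syllables of one type and nontrivial syllables of the other type are allowed -/
def Ext (E : Bool → ℤ → Prop) : Prop := ∃ b, Od E b ∧ An E (!b)

/-- products of allowed syllables -/
def PW (E : Bool → ℤ → Prop) : Subgroup (FreeGroup Bool) :=
  Subgroup.closure {w | ∃ b k, E b k ∧ w = of b ^ k}

theorem pw_ind {E : Bool → ℤ → Prop} {Q : FreeGroup Bool → Prop} (h1 : Q 1)
    (h2 : ∀ b k w, (E b k ∨ E b (-k)) → Q w → Q (of b ^ k * w)) {p : FreeGroup Bool}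
    (hp : p ∈ PW E) : Q p := by
  induction hp using Subgroup.closure_induction_left with
  | one => exact h1
  | mul_left x hx y _ ih =>
    obtain ⟨b, k, h, rfl⟩ := hx
    exact h2 b k y (Or.inl h) ih
  | inv_mul_cancel x hx y _ ih =>
    obtain ⟨b, k, h, rfl⟩ := hx
    rw [← zpow_neg]
    exact h2 b (-k) y (Or.inr (by simpa using h)) ih

theorem piece_act {E : Bool → ℤ → Prop} (hE : ¬ (Od E true ∧ Od E false)) {p : FreeGroup Bool}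
    (hp : p ∈ PW E) (n : ℤ) : ∃ lo hi a b : ℤ, lo ≤ n ∧ n ≤ hi ∧ hi ≤ lo + 1 ∧ lo ≤ pos p n ∧
      pos p n ≤ hi ∧ coc p n ∈ FI a b ∧ lo - 1 ≤ a ∧ b ≤ hi ∧ (a < lo → Ext E ∨ lo = hi) ∧
      (hi ≤ b → Ext E ∨ lo = hi) ∧ (hi = lo + 1 → Od E (ty lo)) := by
  have ev : ∀ b k, ¬ Od E b → (E b k ∨ E b (-k)) → k % 2 = 0 := by
    intro b k h hk
    by_contra hh
    rcases hk with hk | hk
    · exact h ⟨k, by omega, hk⟩
    · exact h ⟨-k, by omega, hk⟩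
  by_cases ho : ∃ b, Od E b
  · obtain ⟨b, hb⟩ := ho
    have hb' : ¬ Od E (!b) := fun h => hE (by cases b <;> simp_all)
    have hn := wl_mem b n
    have tb := ty_wl b n
    generalize wl b n = a at hn tb
    obtain ⟨a1, a2, l1, l2, l3, l4, l5⟩ : ∃ a1 a2, a1 ≤ a ∧ a ≤ a2 ∧ a - 1 ≤ a1 ∧ a2 ≤ a + 1 ∧
        ((An E (!b) ∧ a1 = a - 1 ∧ a2 = a + 1) ∨ (¬ An E (!b) ∧ a1 = a ∧ a2 = a)) := by
      by_cases h : An E (!b)
      · exact ⟨a - 1, a + 1, by omega, by omega, le_rfl, le_rfl, Or.inl ⟨h, rfl, rfl⟩⟩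
      · exact ⟨a, a, le_rfl, le_rfl, by omega, by omega, Or.inr ⟨h, rfl, rfl⟩⟩
    have key : (pos p n = a ∨ pos p n = a + 1) ∧ coc p n ∈ FI a1 a2 := by
      refine pw_ind (Q := fun p => (pos p n = a ∨ pos p n = a + 1) ∧ coc p n ∈ FI a1 a2)
        (by simpa [pos_one, coc_one] using hn) ?_ hp
      rintro c k w hk ⟨i1, i2⟩
      rw [pos_mul, coc_mul]
      by_cases e : c = b
      · obtain ⟨j1, j2⟩ := pow_act a k _ i1
        rw [tb, ← e] at j1 j2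
        exact ⟨by rw [j1]; split_ifs <;> omega, mul_mem (FI_mono j2 l1 l2) i2⟩
      · obtain rfl : c = !b := by revert e; cases b <;> cases c <;> simp
        obtain ⟨j1, j2⟩ := pow_act' (!b) k (pos w n)
        rw [if_pos (ev _ _ hb' hk)] at j1
        refine ⟨by rw [j1]; exact i1, mul_mem ?_ i2⟩
        rcases l5 with ⟨-, rfl, rfl⟩ | ⟨h, -, -⟩
        · have := wl_mem (!b) (pos w n)
          exact FI_mono j2 (by omega) (by omega)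
        · obtain rfl : k = 0 := by
            by_contra hh
            rcases hk with hk | hk
            · exact h ⟨k, hh, hk⟩
            · exact h ⟨-k, by omega, hk⟩
          simp [coc_one]
    refine ⟨a, a + 1, a1, a2, by omega, by omega, le_rfl, by omega, by omega, key.2, l3, l4,
      fun h => ?_, fun h => ?_, fun _ => tb ▸ hb⟩
    · rcases l5 with ⟨h, -, -⟩ | ⟨-, h1, h2⟩
      · exact Or.inl ⟨b, hb, h⟩
      · omega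
    · rcases l5 with ⟨h, -, -⟩ | ⟨-, h1, h2⟩
      · exact Or.inl ⟨b, hb, h⟩
      · omega
  · push Not at ho
    have key : pos p n = n ∧ coc p n ∈ FI (n - 1) n := by
      refine pw_ind (Q := fun p => pos p n = n ∧ coc p n ∈ FI (n - 1) n)
        (by simp [pos_one, coc_one]) ?_ hp
      rintro c k w hk ⟨i1, i2⟩
      obtain ⟨j1, j2⟩ := pow_act' c k n
      rw [if_pos (ev _ _ (ho c) hk)] at j1
      have := wl_mem c n
      rw [pos_mul, coc_mul, i1]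
      exact ⟨j1, mul_mem (FI_mono j2 (by omega) (by omega)) i2⟩
    exact ⟨n, n, n - 1, n, le_rfl, le_rfl, by omega, key.1.ge, key.1.le, key.2, le_rfl, le_rfl,
      fun _ => Or.inr rfl, fun _ => Or.inr rfl, fun h => by omega⟩

/-- numerical data of a block -/
def BkOK (n n' lo hi a b : ℤ) (e : Prop) : Prop :=
  lo ≤ n ∧ n ≤ hi ∧ hi ≤ lo + 1 ∧ lo - 1 ≤ n' ∧ n' ≤ hi + 1 ∧ lo - 1 ≤ a ∧ b ≤ hi ∧
    (a < lo → e ∨ lo = hi ∨ n' ≤ lo) ∧ (hi ≤ b → e ∨ lo = hi ∨ hi ≤ n')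

theorem blk {E : Bool → ℤ → Prop} (hE : ¬ (Od E true ∧ Od E false)) {p : FreeGroup Bool}
    (hp : p ∈ PW E) (c : Bool) (k n : ℤ) : ∃ lo hi a b : ℤ,
      BkOK n (pos (of c ^ k * p) n) lo hi a b (Ext E) ∧ coc (of c ^ k * p) n ∈ FI a b ∧
      (hi = lo + 1 → Od E (ty lo)) ∧
      (pos (of c ^ k * p) n = hi + 1 → k % 2 = 1 ∧ c = ty hi) ∧
      (pos (of c ^ k * p) n = lo - 1 → k % 2 = 1 ∧ c = ty (lo - 1)) := by
  obtain ⟨lo, hi, a, b, h1, h2, h3, h4, h5, h6, h7, h8, h9, h10, h11⟩ := piece_act hE hp n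
  obtain ⟨j1, j2⟩ := pow_act' c k (pos p n)
  have m := wl_mem c (pos p n)
  have t := ty_wl c (pos p n)
  rw [pos_mul, coc_mul, j1]
  generalize wl c (pos p n) = d at *
  refine ⟨lo, hi, min a d, max b d, ⟨h1, h2, h3, by split_ifs <;> omega, by split_ifs <;> omega,
    by omega, by omega, fun h => ?_, fun h => ?_⟩,
    mul_mem (FI_mono j2 (by omega) (by omega)) (FI_mono h6 (by omega) (by omega)), h11,
    fun h => ?_, fun h => ?_⟩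
  · by_cases e : a < lo
    · exact (h9 e).imp_right Or.inl
    · exact Or.inr (Or.inr (by split_ifs <;> omega))
  · by_cases e : hi ≤ b
    · exact (h10 e).imp_right Or.inl
    · exact Or.inr (Or.inr (by split_ifs <;> omega))
  · split_ifs at h
    · omega
    · exact ⟨by omega, by rw [← t]; congr 1; omega⟩
  · split_ifs at h
    · omega
    · exact ⟨by omega, by rw [← t]; congr 1; omega⟩

/-- a full move between two long pieces -/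
def Bad (lo hi lo' hi' : ℤ) (e e' : Prop) : Prop :=
  lo + 1 = hi ∧ lo' + 1 = hi' ∧ (lo' = lo + 2 ∨ lo = lo' + 2) ∧ (e ∨ e')

/-- the admissible patterns of intervals -/
def Pat (j a1 b1 a2 b2 a3 b3 a4 b4 a5 b5 : ℤ) : Prop :=
  j ≤ a1 ∧ b1 ≤ j + 2 ∧
  ((j + 1 ≤ a2 ∧ b2 ≤ j + 4 ∧ j + 3 ≤ a3 ∧ b3 ≤ j + 5 ∧ j + 1 ≤ a4 ∧ b4 ≤ j + 4 ∧
      j + 1 ≤ a5 ∧ b5 ≤ j + 4) ∨
    (j + 1 ≤ a2 ∧ b2 ≤ j + 4 ∧ j + 1 ≤ a3 ∧ b3 ≤ j + 4 ∧ j + 3 ≤ a4 ∧ b4 ≤ j + 5 ∧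
      j + 1 ≤ a5 ∧ b5 ≤ j + 4) ∨
    (j + 1 ≤ a2 ∧ b2 ≤ j + 4 ∧ j + 3 ≤ a3 ∧ b3 ≤ j + 5 ∧ j + 3 ≤ a4 ∧ b4 ≤ j + 5 ∧
      j + 1 ≤ a5 ∧ b5 ≤ j + 4) ∨
    (j ≤ a2 ∧ b2 ≤ j + 2 ∧ j + 1 ≤ a3 ∧ b3 ≤ j + 4 ∧ j + 3 ≤ a4 ∧ b4 ≤ j + 5 ∧
      j + 1 ≤ a5 ∧ b5 ≤ j + 4) ∨
    (j + 1 ≤ a2 ∧ b2 ≤ j + 4 ∧ j + 3 ≤ a3 ∧ b3 ≤ j + 5 ∧ j + 1 ≤ a4 ∧ b4 ≤ j + 4 ∧
      j ≤ a5 ∧ b5 ≤ j + 2))

theorem pat_one {m : ℕ} (hm : 6 ≤ m) {j a1 b1 a2 b2 a3 b3 a4 b4 a5 b5 : ℤ}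
    {g1 g2 g3 g4 g5 : FreeGroup ℤ} (h1 : g1 ∈ FI a1 b1) (h2 : g2 ∈ FI a2 b2) (h3 : g3 ∈ FI a3 b3)
    (h4 : g4 ∈ FI a4 b4) (h5 : g5 ∈ FI a5 b5) (hk : Ker m (g1 * (g5 * g4 * g3 * g2)))
    (h : Pat j a1 b1 a2 b2 a3 b3 a4 b4 a5 b5) : g1 * (g5 * g4 * g3 * g2) = 1 := by
  obtain ⟨c1, c2, h⟩ := h
  have k1 := FI_mono h1 c1 c2
  rcases h with ⟨d1, d2, d3, d4, d5, d6, d7, d8⟩ | ⟨d1, d2, d3, d4, d5, d6, d7, d8⟩ |
    ⟨d1, d2, d3, d4, d5, d6, d7, d8⟩ | ⟨d1, d2, d3, d4, d5, d6, d7, d8⟩ |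
    ⟨d1, d2, d3, d4, d5, d6, d7, d8⟩ <;>
  have k2 := FI_mono h2 d1 d2 <;> have k3 := FI_mono h3 d3 d4 <;> have k4 := FI_mono h4 d5 d6 <;>
  have k5 := FI_mono h5 d7 d8
  · simpa only [mul_assoc] using v_six hm k1 (mul_mem k5 k4) k3 k2 (by simpa only [mul_assoc] using hk)
  · simpa only [mul_assoc] using v_six hm k1 k5 k4 (mul_mem k3 k2) (by simpa only [mul_assoc] using hk)
  · simpa only [mul_assoc] using v_six hm k1 k5 (mul_mem k4 k3) k2 (by simpa only [mul_assoc] using hk)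
  · have hk2 : Ker m (g1 * (g5 * g4 * g3) * g2) := by simpa only [mul_assoc] using hk
    have := v_six hm (mul_mem k2 k1) k5 k4 k3 (by simpa only [mul_assoc] using hk2.rot)
    have e : g2 * (g1 * (g5 * g4 * g3)) = 1 := by simpa only [mul_assoc] using this
    simpa only [mul_assoc] using mul_eq_one_comm.1 e
  · simpa only [mul_assoc] using v_six hm (mul_mem k1 k5) k4 k3 k2 (by simpa only [mul_assoc] using hk)

theorem five_num {n1 l1 u1 a1 b1 n2 l2 u2 a2 b2 n3 l3 u3 a3 b3 n4 l4 u4 a4 b4 n5 l5 u5 a5 b5 : ℤ}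
    {e1 e2 e3 e4 e5 : Prop} (h1 : BkOK n1 n2 l1 u1 a1 b1 e1) (h2 : BkOK n2 n3 l2 u2 a2 b2 e2)
    (h3 : BkOK n3 n4 l3 u3 a3 b3 e3) (h4 : BkOK n4 n5 l4 u4 a4 b4 e4)
    (h5 : BkOK n5 n1 l5 u5 a5 b5 e5) (m2 : l1 ≤ l2) (m3 : l1 ≤ l3) (m4 : l1 ≤ l4) (m5 : l1 ≤ l5) :
    (u2 ≤ l1 + 3 ∧ u3 ≤ l1 + 3 ∧ u4 ≤ l1 + 3 ∧ u5 ≤ l1 + 3) ∨
    Pat (l1 - 1) a1 b1 a2 b2 a3 b3 a4 b4 a5 b5 ∨ Pat l1 a1 b1 a2 b2 a3 b3 a4 b4 a5 b5 ∨
    (Bad l1 u1 l2 u2 e1 e2 ∧ Bad l2 u2 l3 u3 e2 e3) ∨ (Bad l2 u2 l3 u3 e2 e3 ∧ Bad l3 u3 l4 u4 e3 e4) ∨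
    (Bad l3 u3 l4 u4 e3 e4 ∧ Bad l4 u4 l5 u5 e4 e5) ∨ (Bad l4 u4 l5 u5 e4 e5 ∧ Bad l5 u5 l1 u1 e5 e1) ∨
    (Bad l5 u5 l1 u1 e5 e1 ∧ Bad l1 u1 l2 u2 e1 e2) := by
  obtain ⟨p1, p2, p3, p4, p5, p6, p7, p8, p9⟩ := h1
  obtain ⟨q1, q2, q3, q4, q5, q6, q7, q8, q9⟩ := h2
  obtain ⟨r1, r2, r3, r4, r5, r6, r7, r8, r9⟩ := h3
  obtain ⟨s1, s2, s3, s4, s5, s6, s7, s8, s9⟩ := h4
  obtain ⟨t1, t2, t3, t4, t5, t6, t7, t8, t9⟩ := h5
  by_cases c0 : u3 ≤ l1 + 3 ∧ u4 ≤ l1 + 3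
  · exact Or.inl ⟨by omega, c0.1, c0.2, by omega⟩
  right
  by_cases c1 : b3 ≤ l1 + 4 ∧ b4 ≤ l1 + 4
  · left
    clear p8 p9 q8 q9 r8 r9 s8 s9 t8 t9
    refine ⟨by omega, by omega, ?_⟩
    by_cases f3 : l1 + 4 ≤ u3
    · by_cases f4 : l1 + 4 ≤ u4
      · exact Or.inr (Or.inr (Or.inl
          ⟨by omega, by omega, by omega, by omega, by omega, by omega, by omega, by omega⟩))
      · by_cases f5 : l5 ≤ l1 + 0
        · exact Or.inr (Or.inr (Or.inr (Or.inr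
            ⟨by omega, by omega, by omega, by omega, by omega, by omega, by omega, by omega⟩)))
        · exact Or.inl
            ⟨by omega, by omega, by omega, by omega, by omega, by omega, by omega, by omega⟩
    · by_cases f2 : l2 ≤ l1 + 0
      · exact Or.inr (Or.inr (Or.inr (Or.inl
          ⟨by omega, by omega, by omega, by omega, by omega, by omega, by omega, by omega⟩)))
      · exact Or.inr (Or.inl
          ⟨by omega, by omega, by omega, by omega, by omega, by omega, by omega, by omega⟩)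
  right
  by_cases c2 : l1 ≤ a1 ∧ l1 ≤ a2 ∧ l1 ≤ a5
  · left
    clear p8 p9 q8 q9 r8 r9 s8 s9 t8 t9
    refine ⟨by omega, by omega, ?_⟩
    by_cases f3 : l1 + 5 ≤ u3
    · by_cases f4 : l1 + 5 ≤ u4
      · exact Or.inr (Or.inr (Or.inl
          ⟨by omega, by omega, by omega, by omega, by omega, by omega, by omega, by omega⟩))
      · by_cases f5 : l5 ≤ l1 + 1
        · exact Or.inr (Or.inr (Or.inr (Or.inr
            ⟨by omega, by omega, by omega, by omega, by omega, by omega, by omega, by omega⟩)))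
        · exact Or.inl
            ⟨by omega, by omega, by omega, by omega, by omega, by omega, by omega, by omega⟩
    · by_cases f2 : l2 ≤ l1 + 1
      · exact Or.inr (Or.inr (Or.inr (Or.inl
          ⟨by omega, by omega, by omega, by omega, by omega, by omega, by omega, by omega⟩)))
      · exact Or.inr (Or.inl
          ⟨by omega, by omega, by omega, by omega, by omega, by omega, by omega, by omega⟩)
  right
  unfold Bad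
  by_cases d3 : l1 + 5 ≤ u3
  · by_cases d4 : l1 + 5 ≤ u4
    · have : e1 := by
        rcases p8 (by omega) with h | h
        · exact h
        · omega
      exact Or.inr (Or.inr (Or.inr (Or.inr ⟨⟨by omega, by omega, by omega, Or.inr this⟩,
        ⟨by omega, by omega, by omega, Or.inl this⟩⟩)))
    · have f3 : e3 := by
        rcases r9 (by omega) with h | h
        · exact h
        · omega
      by_cases d1 : a1 < l1
      · have f1 : e1 := by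
          rcases p8 d1 with h | h
          · exact h
          · omega
        exact Or.inl ⟨⟨by omega, by omega, by omega, Or.inl f1⟩,
          ⟨by omega, by omega, by omega, Or.inr f3⟩⟩
      · exact Or.inr (Or.inl ⟨⟨by omega, by omega, by omega, Or.inr f3⟩,
          ⟨by omega, by omega, by omega, Or.inl f3⟩⟩)
  · have f4 : e4 := by
      rcases s9 (by omega) with h | h
      · exact h
      · omega
    by_cases d2 : l2 ≤ l1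
    · exact Or.inr (Or.inr (Or.inl ⟨⟨by omega, by omega, by omega, Or.inr f4⟩,
        ⟨by omega, by omega, by omega, Or.inl f4⟩⟩))
    · have f1 : e1 := by
        rcases p8 (by omega) with h | h
        · exact h
        · omega
      exact Or.inr (Or.inr (Or.inr (Or.inl ⟨⟨by omega, by omega, by omega, Or.inl f4⟩,
        ⟨by omega, by omega, by omega, Or.inr f1⟩⟩)))

theorem five_min {m : ℕ} (hm : 6 ≤ m)
    {n1 l1 u1 a1 b1 n2 l2 u2 a2 b2 n3 l3 u3 a3 b3 n4 l4 u4 a4 b4 n5 l5 u5 a5 b5 : ℤ}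
    {e1 e2 e3 e4 e5 : Prop} (h1 : BkOK n1 n2 l1 u1 a1 b1 e1) (h2 : BkOK n2 n3 l2 u2 a2 b2 e2)
    (h3 : BkOK n3 n4 l3 u3 a3 b3 e3) (h4 : BkOK n4 n5 l4 u4 a4 b4 e4)
    (h5 : BkOK n5 n1 l5 u5 a5 b5 e5) (m2 : l1 ≤ l2) (m3 : l1 ≤ l3) (m4 : l1 ≤ l4) (m5 : l1 ≤ l5)
    {g1 g2 g3 g4 g5 : FreeGroup ℤ} (k1 : g1 ∈ FI a1 b1) (k2 : g2 ∈ FI a2 b2) (k3 : g3 ∈ FI a3 b3)
    (k4 : g4 ∈ FI a4 b4) (k5 : g5 ∈ FI a5 b5) (hk : Ker m (g5 * g4 * g3 * g2 * g1))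
    (hne : g5 * g4 * g3 * g2 * g1 ≠ 1) :
    (Bad l1 u1 l2 u2 e1 e2 ∧ Bad l2 u2 l3 u3 e2 e3) ∨ (Bad l2 u2 l3 u3 e2 e3 ∧ Bad l3 u3 l4 u4 e3 e4) ∨
    (Bad l3 u3 l4 u4 e3 e4 ∧ Bad l4 u4 l5 u5 e4 e5) ∨ (Bad l4 u4 l5 u5 e4 e5 ∧ Bad l5 u5 l1 u1 e5 e1) ∨
    (Bad l5 u5 l1 u1 e5 e1 ∧ Bad l1 u1 l2 u2 e1 e2) := by
  rcases five_num h1 h2 h3 h4 h5 m2 m3 m4 m5 with h | h | h | h
  · refine (hne (v_five hm (j := l1 - 1) ?_ hk)).elim
    obtain ⟨-, -, p3, -, -, p6, p7, -, -⟩ := h1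
    obtain ⟨-, -, -, -, -, q6, q7, -, -⟩ := h2
    obtain ⟨-, -, -, -, -, r6, r7, -, -⟩ := h3
    obtain ⟨-, -, -, -, -, s6, s7, -, -⟩ := h4
    obtain ⟨-, -, -, -, -, t6, t7, -, -⟩ := h5
    exact mul_mem (mul_mem (mul_mem (mul_mem (FI_mono k5 (by omega) (by omega))
      (FI_mono k4 (by omega) (by omega))) (FI_mono k3 (by omega) (by omega)))
      (FI_mono k2 (by omega) (by omega))) (FI_mono k1 (by omega) (by omega))
  · exact (hne (mul_eq_one_comm.1 (pat_one hm k1 k2 k3 k4 k5 hk.rot h))).elim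
  · exact (hne (mul_eq_one_comm.1 (pat_one hm k1 k2 k3 k4 k5 hk.rot h))).elim
  · exact h

theorem rot5 {m : ℕ} {g1 g2 g3 g4 g5 : FreeGroup ℤ}
    (h : Ker m (g5 * g4 * g3 * g2 * g1) ∧ g5 * g4 * g3 * g2 * g1 ≠ 1) :
    Ker m (g1 * g5 * g4 * g3 * g2) ∧ g1 * g5 * g4 * g3 * g2 ≠ 1 := by
  refine ⟨by simpa only [mul_assoc] using h.1.rot, fun e => h.2 (mul_eq_one_comm.1 ?_)⟩
  simpa only [mul_assoc] using e

theorem five {m : ℕ} (hm : 6 ≤ m)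
    {n1 l1 u1 a1 b1 n2 l2 u2 a2 b2 n3 l3 u3 a3 b3 n4 l4 u4 a4 b4 n5 l5 u5 a5 b5 : ℤ}
    {e1 e2 e3 e4 e5 : Prop} (h1 : BkOK n1 n2 l1 u1 a1 b1 e1) (h2 : BkOK n2 n3 l2 u2 a2 b2 e2)
    (h3 : BkOK n3 n4 l3 u3 a3 b3 e3) (h4 : BkOK n4 n5 l4 u4 a4 b4 e4)
    (h5 : BkOK n5 n1 l5 u5 a5 b5 e5)
    {g1 g2 g3 g4 g5 : FreeGroup ℤ} (k1 : g1 ∈ FI a1 b1) (k2 : g2 ∈ FI a2 b2) (k3 : g3 ∈ FI a3 b3)
    (k4 : g4 ∈ FI a4 b4) (k5 : g5 ∈ FI a5 b5) (hk : Ker m (g5 * g4 * g3 * g2 * g1))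
    (hne : g5 * g4 * g3 * g2 * g1 ≠ 1) :
    (Bad l1 u1 l2 u2 e1 e2 ∧ Bad l2 u2 l3 u3 e2 e3) ∨ (Bad l2 u2 l3 u3 e2 e3 ∧ Bad l3 u3 l4 u4 e3 e4) ∨
    (Bad l3 u3 l4 u4 e3 e4 ∧ Bad l4 u4 l5 u5 e4 e5) ∨ (Bad l4 u4 l5 u5 e4 e5 ∧ Bad l5 u5 l1 u1 e5 e1) ∨
    (Bad l5 u5 l1 u1 e5 e1 ∧ Bad l1 u1 l2 u2 e1 e2) := by
  have r0 := And.intro hk hne
  have r1 := rot5 r0
  have r2 := rot5 r1
  have r3 := rot5 r2
  have r4 := rot5 r3
  have : (l1 ≤ l2 ∧ l1 ≤ l3 ∧ l1 ≤ l4 ∧ l1 ≤ l5) ∨ (l2 ≤ l3 ∧ l2 ≤ l4 ∧ l2 ≤ l5 ∧ l2 ≤ l1) ∨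
      (l3 ≤ l4 ∧ l3 ≤ l5 ∧ l3 ≤ l1 ∧ l3 ≤ l2) ∨ (l4 ≤ l5 ∧ l4 ≤ l1 ∧ l4 ≤ l2 ∧ l4 ≤ l3) ∨
      (l5 ≤ l1 ∧ l5 ≤ l2 ∧ l5 ≤ l3 ∧ l5 ≤ l4) := by omega
  rcases this with ⟨a, b, c, d⟩ | ⟨a, b, c, d⟩ | ⟨a, b, c, d⟩ | ⟨a, b, c, d⟩ | ⟨a, b, c, d⟩
  · exact five_min hm h1 h2 h3 h4 h5 a b c d k1 k2 k3 k4 k5 r0.1 r0.2
  · rcases five_min hm h2 h3 h4 h5 h1 a b c d k2 k3 k4 k5 k1 r1.1 r1.2 with h | h | h | h | h <;>
      simp only [h, and_self, true_or, or_true]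
  · rcases five_min hm h3 h4 h5 h1 h2 a b c d k3 k4 k5 k1 k2 r2.1 r2.2 with h | h | h | h | h <;>
      simp only [h, and_self, true_or, or_true]
  · rcases five_min hm h4 h5 h1 h2 h3 a b c d k4 k5 k1 k2 k3 r3.1 r3.2 with h | h | h | h | h <;>
      simp only [h, and_self, true_or, or_true]
  · rcases five_min hm h5 h1 h2 h3 h4 a b c d k5 k1 k2 k3 k4 r4.1 r4.2 with h | h | h | h | h <;>
      simp only [h, and_self, true_or, or_true]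

/-- an odd corner between two pieces with odd syllables of the other type -/
def BadC (E E' : Bool → ℤ → Prop) (c : Bool) (k : ℤ) : Prop :=
  k % 2 = 1 ∧ Od E (!c) ∧ Od E' (!c) ∧ (An E c ∨ An E' c)

theorem badC_of {E E' : Bool → ℤ → Prop} (hE : ¬ (Od E true ∧ Od E false))
    (hE' : ¬ (Od E' true ∧ Od E' false)) {c : Bool} {k n n' n'' l u a b l' u' a' b' : ℤ}
    (h : BkOK n n' l u a b (Ext E)) (h' : BkOK n' n'' l' u' a' b' (Ext E'))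
    (o : u = l + 1 → Od E (ty l)) (o' : u' = l' + 1 → Od E' (ty l'))
    (c1 : n' = u + 1 → k % 2 = 1 ∧ c = ty u) (c2 : n' = l - 1 → k % 2 = 1 ∧ c = ty (l - 1))
    (hb : Bad l u l' u' (Ext E) (Ext E')) : BadC E E' c k := by
  obtain ⟨b1, b2, b3, b4⟩ := hb
  obtain ⟨-, -, -, p4, p5, -⟩ := h
  obtain ⟨q1, q2, -⟩ := h'
  have o1 := o b1.symm
  have o2 := o' b2.symm
  have t : ty l' = ty l := by
    rcases b3 with rfl | rfl
    · simpa using ty_two l 1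
    · simpa using (ty_two l' 1).symm
  have hc : k % 2 = 1 ∧ c = !ty l := by
    rcases b3 with rfl | rfl
    · rw [← ty_succ, b1]
      exact c1 (by omega)
    · rw [← ty_pred]
      exact c2 (by omega)
  obtain ⟨k1, rfl⟩ := hc
  rw [t] at o2
  have ex : ∀ F : Bool → ℤ → Prop, ¬ (Od F true ∧ Od F false) → Od F (ty l) → Ext F →
      An F (!ty l) := by
    rintro F hF h1 ⟨d, h2, h3⟩
    obtain rfl : d = ty l := by
      revert h1 h2 hF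
      cases d <;> cases ty l <;> simp +contextual <;> tauto
    exact h3
  exact ⟨k1, by simpa using o1, by simpa using o2, b4.imp (ex E hE o1) (ex E' hE' o2)⟩

theorem five_word {m : ℕ} (hm : 6 ≤ m) {E1 E2 E3 E4 E5 : Bool → ℤ → Prop}
    (z1 : ¬ (Od E1 true ∧ Od E1 false)) (z2 : ¬ (Od E2 true ∧ Od E2 false))
    (z3 : ¬ (Od E3 true ∧ Od E3 false)) (z4 : ¬ (Od E4 true ∧ Od E4 false))
    (z5 : ¬ (Od E5 true ∧ Od E5 false)) {p1 p2 p3 p4 p5 : FreeGroup Bool} (w1 : p1 ∈ PW E1)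
    (w2 : p2 ∈ PW E2) (w3 : p3 ∈ PW E3) (w4 : p4 ∈ PW E4) (w5 : p5 ∈ PW E5)
    {c1 c2 c3 c4 c5 : Bool} {k1 k2 k3 k4 k5 : ℤ} {w : FreeGroup Bool}
    (e : w = (of c5 ^ k5 * p5) * (of c4 ^ k4 * p4) * (of c3 ^ k3 * p3) * (of c2 ^ k2 * p2) *
      (of c1 ^ k1 * p1)) (hw : w ∈ Subgroup.normalClosure {brel m}) (hne : w ≠ 1) :
    (BadC E1 E2 c1 k1 ∧ BadC E2 E3 c2 k2) ∨ (BadC E2 E3 c2 k2 ∧ BadC E3 E4 c3 k3) ∨
    (BadC E3 E4 c3 k3 ∧ BadC E4 E5 c4 k4) ∨ (BadC E4 E5 c4 k4 ∧ BadC E5 E1 c5 k5) ∨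
    (BadC E5 E1 c5 k5 ∧ BadC E1 E2 c1 k1) := by
  obtain ⟨l1, u1, a1, b1, h1, g1, o1, x1, y1⟩ := blk z1 w1 c1 k1 0
  obtain ⟨l2, u2, a2, b2, h2, g2, o2, x2, y2⟩ := blk z2 w2 c2 k2 (pos (of c1 ^ k1 * p1) 0)
  obtain ⟨l3, u3, a3, b3, h3, g3, o3, x3, y3⟩ := blk z3 w3 c3 k3
    (pos (of c2 ^ k2 * p2) (pos (of c1 ^ k1 * p1) 0))
  obtain ⟨l4, u4, a4, b4, h4, g4, o4, x4, y4⟩ := blk z4 w4 c4 k4
    (pos (of c3 ^ k3 * p3) (pos (of c2 ^ k2 * p2) (pos (of c1 ^ k1 * p1) 0)))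
  obtain ⟨l5, u5, a5, b5, h5, g5, o5, x5, y5⟩ := blk z5 w5 c5 k5 (pos (of c4 ^ k4 * p4)
    (pos (of c3 ^ k3 * p3) (pos (of c2 ^ k2 * p2) (pos (of c1 ^ k1 * p1) 0))))
  obtain ⟨k, hk⟩ := pos_rel hw 0
  have hp := hk
  rw [e, pos_mul _ (of c1 ^ k1 * p1), pos_mul _ (of c2 ^ k2 * p2), pos_mul _ (of c3 ^ k3 * p3),
    pos_mul _ (of c4 ^ k4 * p4)] at hp
  have hk0 : k = 0 := by
    obtain ⟨p1, p2, p3, p4, p5, -⟩ := h1
    obtain ⟨q1, q2, q3, q4, q5, -⟩ := h2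
    obtain ⟨r1, r2, r3, r4, r5, -⟩ := h3
    obtain ⟨s1, s2, s3, s4, s5, -⟩ := h4
    obtain ⟨t1, t2, t3, t4, t5, -⟩ := h5
    have hm' : (6 : ℤ) ≤ m := by exact_mod_cast hm
    rw [hp] at t4 t5
    by_contra h0
    rcases lt_or_gt_of_ne h0 with h | h
    · have : (m : ℤ) * k ≤ -6 := by nlinarith
      omega
    · have : 6 ≤ (m : ℤ) * k := by nlinarith
      omega
  rw [hk0, mul_zero, mul_zero, add_zero] at hk hp
  have kk := ker_coc hw hk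
  have ne : coc w 0 ≠ 1 := fun h => hne (eq_one_of_coc hk h)
  rw [e, coc_mul _ (of c1 ^ k1 * p1), coc_mul _ (of c2 ^ k2 * p2), coc_mul _ (of c3 ^ k3 * p3),
    coc_mul _ (of c4 ^ k4 * p4)] at kk ne
  rw [hp] at h5 x5 y5
  have B1 := badC_of z1 z2 h1 h2 o1 o2 x1 y1
  have B2 := badC_of z2 z3 h2 h3 o2 o3 x2 y2
  have B3 := badC_of z3 z4 h3 h4 o3 o4 x3 y3
  have B4 := badC_of z4 z5 h4 h5 o4 o5 x4 y4
  have B5 := badC_of z5 z1 h5 h1 o5 o1 x5 y5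
  exact (five hm h1 h2 h3 h4 h5 g1 g2 g3 g4 g5 kk ne).imp (And.imp B1 B2) (Or.imp (And.imp B2 B3)
    (Or.imp (And.imp B3 B4) (Or.imp (And.imp B4 B5) (And.imp B5 B1))))

theorem far_word {m : ℕ} (hm : 6 ≤ m) {E1 E2 : Bool → ℤ → Prop}
    (z1 : ¬ (Od E1 true ∧ Od E1 false)) (z2 : ¬ (Od E2 true ∧ Od E2 false))
    {p1 p2 : FreeGroup Bool} (w1 : p1 ∈ PW E1) (w2 : p2 ∈ PW E2) {c0 c1 c2 : Bool} {k0 k1 k2 : ℤ}
    {r : FreeGroup Bool} (hr : r ∈ Subgroup.normalClosure {brel m}) (b : Bool) :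
    r * altw b 6 ≠ (of c2 ^ k2 * p2) * (of c1 ^ k1 * p1) * of c0 ^ k0 := by
  intro e
  have e1 := congrArg (fun w => pos w (wl b 0)) e
  have e2 := alt_up (of : ℤ → FreeGroup ℤ) 6 b (wl b 0) 1 (ty_wl b 0)
  rw [lact_univ] at e2
  obtain ⟨k, hk⟩ := pos_rel hr (wl b 0 + (6 : ℕ))
  simp only [pos_mul (_ * _) (of c0 ^ k0), pos_mul (of c2 ^ k2 * p2), pos_mul r] at e1
  rw [(Prod.mk.inj e2).1, hk] at e1
  obtain ⟨l1, u1, a1, b1, ⟨p1, p2, p3, p4, p5, -⟩, -⟩ := blk z1 w1 c1 k1 (pos (of c0 ^ k0) (wl b 0))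
  obtain ⟨l2, u2, a2, b2, ⟨q1, q2, q3, q4, q5, -⟩, -⟩ := blk z2 w2 c2 k2
    (pos (of c1 ^ k1 * _) (pos (of c0 ^ k0) (wl b 0)))
  rw [← e1] at q4 q5
  have j := (pow_act' c0 k0 (wl b 0)).1
  have j2 := wl_mem c0 (wl b 0)
  have hm' : (6 : ℤ) ≤ m := by exact_mod_cast hm
  rcases lt_or_ge k 0 with h | h
  · have : (m : ℤ) * k ≤ -6 := by nlinarith
    split_ifs at j <;> omega
  · have : 0 ≤ (m : ℤ) * k := by positivity
    split_ifs at j <;> omega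

end Pool.Agent.Lib.MP_6d85b4_al
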