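import Mathlib
import Pool.Agent.Lib.MP_6d85b4_al.Act

set_option autoImplicit false
set_option linter.unusedSectionVars false

namespace Pool.Agent.Lib.MP_6d85b4_al

open Real CoxeterSystem

variable {B : Type} [Fintype B] [DecidableEq B] (M : CoxeterMatrix B)

/-- the linear form of a Burau generator -/
noncomputable def bl (i : B) : (B → ℝ) →ₗ[ℝ] ℝ := (2 : ℝ) • ip M i - LinearMap.proj i

theorem bl_self (i : B) : bl M i (al i) = -5 := by
  simp [bl, ip_al, cc_self]
  norm_num

theorem bl_ne {i j : B} (h : i ≠ j) : bl M i (al j) = 2 * cc M i j := by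
  simp [bl, ip_al, al_ne h]

/-- Burau generator at a real parameter -/
noncomputable def bu (i : B) : (B → ℝ) ≃ₗ[ℝ] (B → ℝ) :=
  LinearEquiv.ofLinearMap (LinearMap.id + (bl M i).smulRight (al i))
    (LinearMap.id + ((1 / 4 : ℝ) • bl M i).smulRight (al i))
    (LinearMap.ext fun x => by
      simp [bl_self]
      module)
    (LinearMap.ext fun x => by
      simp [bl_self]
      module)

theorem bu_apply (i : B) (x : B → ℝ) : bu M i x = x + bl M i x • al i := by simp [bu]

theorem bu_alt {u v : B} (huv : u ≠ v) (p q : ℝ) (k : ℕ) :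
    ((alternatingWord u v k).map (bu M)).prod (p • al v + (2 * q) • al u) =
      (2 ^ k * sq (cc M u v) p q k) • al (if Even k then v else u) +
        (2 ^ (k + 1) * sq (cc M u v) p q (k + 1)) • al (if Even k then u else v) := by
  induction k with
  | zero => simp [alternatingWord, sq]
  | succ k ih =>
    have e : sq (cc M u v) p q (k + 1 + 1) =
      cc M u v * sq (cc M u v) p q (k + 1) - sq (cc M u v) p q k := rfl
    rw [alternatingWord_succ', List.map_cons, List.prod_cons, LinearEquiv.mul_apply, ih, e,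
      bu_apply, map_add, map_smul, map_smul]
    by_cases h : Even k
    · have h' : ¬ Even (k + 1) := by simpa [Nat.even_add_one] using h
      simp only [if_pos h, if_neg h', bl_self, bl_ne M huv.symm, cc_symm M v u, smul_eq_mul]
      module
    · have h' : Even (k + 1) := by simpa [Nat.even_add_one] using h
      simp only [if_neg h, if_pos h', bl_self, bl_ne M huv, smul_eq_mul]
      module

theorem bu_fix (u v : B) (k : ℕ) {y : B → ℝ} (hu : bl M u y = 0) (hv : bl M v y = 0) :
    ((alternatingWord u v k).map (bu M)).prod y = y := by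
  induction k with
  | zero => simp [alternatingWord]
  | succ k ih =>
    rw [alternatingWord_succ', List.map_cons, List.prod_cons, LinearEquiv.mul_apply, ih, bu_apply]
    split_ifs
    · rw [hv]; simp
    · rw [hu]; simp

/-- the Burau representation -/
noncomputable def bur : Art M →* ((B → ℝ) ≃ₗ[ℝ] (B → ℝ)) :=
  PresentedGroup.toGroup (lift_ok M (bu M) fun i j h0 => by
    by_cases hij : i = j
    · rw [hij]
    have hm : 2 ≤ M i j := by
      have := M.off_diagonal i j hij
      omega
    refine LinearEquiv.ext fun x => ?_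
    have hd : 8 * cc M i j ^ 2 - 50 ≠ 0 := by
      have := cos_sq_le_one (π / M i j)
      rw [cc]
      nlinarith
    obtain ⟨p, q, e1, e2⟩ : ∃ p q : ℝ, bl M i (x - (p • al j + (2 * q) • al i)) = 0 ∧
        bl M j (x - (p • al j + (2 * q) • al i)) = 0 := by
      obtain ⟨D, hD⟩ : ∃ D, D * (8 * cc M i j ^ 2 - 50) = 1 := ⟨_, inv_mul_cancel₀ hd⟩
      refine ⟨(4 * cc M i j * bl M i x + 10 * bl M j x) * D,
        (2 * cc M i j * bl M j x + 5 * bl M i x) * D, ?_, ?_⟩
      · rw [map_sub, map_add, map_smul, map_smul, bl_self, bl_ne M hij, smul_eq_mul, smul_eq_mul]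
        linear_combination (-bl M i x) * hD
      · rw [map_sub, map_add, map_smul, map_smul, bl_self, bl_ne M (Ne.symm hij), smul_eq_mul,
          smul_eq_mul, cc_symm M j i]
        linear_combination (-bl M j x) * hD
    have hx : x = (x - (p • al j + (2 * q) • al i)) + (p • al j + (2 * q) • al i) := by abel
    have e3 := bu_alt M hij p q (M i j)
    have e4 := bu_alt M (Ne.symm hij) (2 * q) (p / 2) (M i j)
    rw [cc_symm M j i, show 2 * (p / 2) = p by ring, add_comm] at e4
    rw [hx, map_add _ (x - _), map_add _ (x - _), bu_fix M i j _ e1 e2, bu_fix M j i _ e2 e1, e3, e4, cc,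
      (sq_self hm _ _).1, (sq_self hm _ _).2, (sq_self hm _ _).1, (sq_self hm _ _).2]
    module)

theorem bur_gen (i : B) : bur M (gen M i) = bu M i := PresentedGroup.toGroup.of _

theorem zpow_eig {f : (B → ℝ) ≃ₗ[ℝ] (B → ℝ)} {x : B → ℝ} {a : ℝ} (ha : a ≠ 0) (h : f x = a • x)
    (k : ℤ) : (f ^ k) x = a ^ k • x := by
  induction k using Int.induction_on with
  | zero => simp
  | succ k ih => rw [zpow_add_one, LinearEquiv.mul_apply, h, map_smul, ih, smul_smul,
      zpow_add_one₀ ha, mul_comm]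
  | pred k ih =>
    have : f⁻¹ x = a⁻¹ • x := by
      apply f.injective
      rw [map_smul, h, smul_smul, inv_mul_cancel₀ ha, one_smul]
      exact f.apply_symm_apply x
    rw [zpow_sub_one, LinearEquiv.mul_apply, this, map_smul, ih, smul_smul, zpow_sub_one₀ ha,
      mul_comm]

theorem bu_pow_self (i : B) (k : ℤ) : (bu M i ^ k) (al i) = (-4 : ℝ) ^ k • al i :=
  zpow_eig (by norm_num) (by rw [bu_apply, bl_self]; module) k

theorem bu_pow_ne {i j : B} (h : i ≠ j) (k : ℤ) :
    (bu M i ^ k) (al j) = al j + (2 * cc M i j / 5 * (1 - (-4 : ℝ) ^ k)) • al i := by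
  have := zpow_eig (f := bu M i) (x := al j + (2 * cc M i j / 5) • al i) one_ne_zero (by
    rw [bu_apply, map_add, map_smul, bl_self, bl_ne M h, smul_eq_mul]
    module) k
  rw [map_add, map_smul, bu_pow_self, one_zpow, one_smul] at this
  rw [eq_sub_of_add_eq this]
  module

theorem neg_four_zpow {k : ℤ} (h : (-4 : ℝ) ^ k = 1) : k = 0 := by
  have := congrArg abs h
  rw [abs_zpow, abs_neg, abs_one, abs_of_pos (by norm_num)] at this
  exact (zpow_eq_one_iff_right₀ (by norm_num) (by norm_num)).1 this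

variable {M}

theorem gen_zpow_eq_one {s : B} {k : ℤ} (h : gen M s ^ k = 1) : k = 0 := by
  have := congrFun (bu_pow_self M s k) s
  rw [← bur_gen, ← map_zpow, h] at this
  exact neg_four_zpow (by simpa using this.symm)

theorem two_of_comm {s t : B} (hst : s ≠ t) {e k : ℤ} (he : e ≠ 0) (hk : k ≠ 0)
    (h : gen M t ^ k * gen M s ^ e = gen M s ^ e * gen M t ^ k) : M s t = 2 := by
  have := congrArg (fun g => bur M g (al s) t) h
  simp only [map_mul, map_zpow, bur_gen, LinearEquiv.mul_apply, bu_pow_self, map_smul, map_add,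
    bu_pow_ne M hst, bu_pow_ne M hst.symm, Pi.add_apply, Pi.smul_apply, smul_eq_mul, al_self,
    al_ne hst.symm] at this
  have h1 : (1 - (-4 : ℝ) ^ k) ≠ 0 := fun h => hk (neg_four_zpow (by linarith))
  have h2 : (1 - (-4 : ℝ) ^ e) ≠ 0 := fun h => he (neg_four_zpow (by linarith))
  have h3 : cc M t s * ((1 - (-4 : ℝ) ^ k) * (1 - (-4 : ℝ) ^ e)) = 0 := by linarith
  refine eq_two_of_cc M ?_
  rw [cc_symm]
  exact (mul_eq_zero.1 h3).resolve_right (mul_ne_zero h1 h2)

theorem gen_comm {s t : B} (h : M s t = 2) : gen M s * gen M t = gen M t * gen M s := by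
  have := braid M (i := s) (j := t) (by omega)
  simpa [h, alternatingWord] using this

theorem comm_perp {T : Set B} {s : B} {a : Art M} (ha : a ∈ par M {t | t ∈ T ∧ M s t = 2}) :
    Commute (gen M s) a := by
  induction ha using Subgroup.closure_induction with
  | mem x hx =>
    obtain ⟨t, ht, rfl⟩ := hx
    exact gen_comm ht.2
  | one => simp
  | mul x y _ _ hx hy => exact hx.mul_right hy
  | inv x _ hx => exact hx.inv_right

theorem par_mono {T T' : Set B} (h : T ⊆ T') : par M T ≤ par M T' :=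
  Subgroup.closure_mono (Set.image_mono h)

theorem perp_le {T : Set B} {s : B} : par M {t | t ∈ T ∧ M s t = 2} ≤ par M T :=
  par_mono fun _ h => h.1

variable {T : Set B}

theorem art_ind {p : Art M → Prop} (h1 : p 1) (h2 : ∀ u w, p w → p (gen M u * w))
    (h3 : ∀ u w, p w → p ((gen M u)⁻¹ * w)) (w : Art M) : p w := by
  have : w ∈ Subgroup.closure (Set.range (gen M)) := by
    have := PresentedGroup.closure_range_of (rels M)
    exact this ▸ Subgroup.mem_top w
  induction this using Subgroup.closure_induction_left with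
  | one => exact h1
  | mul_left x hx y _ ih =>
    obtain ⟨b, rfl⟩ := hx
    exact h2 b y ih
  | inv_mul_cancel x hx y _ ih =>
    obtain ⟨b, rfl⟩ := hx
    exact h3 b y ih

theorem act_snd (w : Art M) (x : {x // Good M T x}) : (act M T w x).1.2 = pr M w * x.1.2 := by
  induction w using art_ind with
  | h1 => simp
  | h2 u w ih =>
    rw [map_mul, Equiv.Perm.mul_apply, act_gen_val, stp_snd, ih, map_mul, pr_gen, mul_assoc]
  | h3 u w ih =>
    rw [map_mul, Equiv.Perm.mul_apply, act_gen_inv_val, stp_snd, ih, map_mul, pr_gen_inv, mul_assoc]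

theorem stp_equiv {g : B → Art M} (hg : ∀ t, pr M (g t) = M.toCoxeterSystem.simple t)
    (hT : ∀ t ∈ T, g t ∈ par M T) (u : B) {x x' : Art M × M.Group}
    (h : ∀ y, rho M (ee M x) y = rho M (ee M x') y) :
    (∃ f ∈ par M T, (stp M T g u x).1 = f * x.1 ∧ (stp M T g u x').1 = f * x'.1) ∧
      ∀ y, rho M (ee M (stp M T g u x)) y = rho M (ee M (stp M T g u x')) y := by
  by_cases hh : ∃ t ∈ T, rho M (ee M x) (al t) = al u
  · obtain ⟨t, ht, e⟩ := hh
    have e' := (h _).symm.trans e
    exact ⟨⟨g t, hT t ht, by rw [stp_hit ht e], by rw [stp_hit ht e']⟩,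
      fun y => by rw [ee_hit hg ht e, ee_hit hg ht e', h]⟩
  · have hh' : ¬ ∃ t ∈ T, rho M (ee M x') (al t) = al u := by simpa only [h] using hh
    exact ⟨⟨1, one_mem _, by rw [stp_miss hh, one_mul], by rw [stp_miss hh', one_mul]⟩,
      fun y => by rw [ee_miss hh, ee_miss hh', h]⟩

theorem act_equiv (w : Art M) {x x' : {x // Good M T x}}
    (h : ∀ y, rho M (ee M x.1) y = rho M (ee M x'.1) y) :
    (∃ f ∈ par M T, (act M T w x).1.1 = f * x.1.1 ∧ (act M T w x').1.1 = f * x'.1.1) ∧
      ∀ y, rho M (ee M (act M T w x).1) y = rho M (ee M (act M T w x').1) y := by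
  induction w using art_ind with
  | h1 => exact ⟨⟨1, one_mem _, by simp, by simp⟩, by simpa using h⟩
  | h2 u w ih =>
    obtain ⟨⟨f, hf, a, b⟩, c⟩ := ih
    obtain ⟨⟨f', hf', a', b'⟩, c'⟩ := stp_equiv (pr_gen M) (fun t ht => gen_mem ht) u c
    simp only [map_mul, Equiv.Perm.mul_apply, act_gen_val]
    exact ⟨⟨f' * f, mul_mem hf' hf, by rw [a', a, mul_assoc], by rw [b', b, mul_assoc]⟩, c'⟩
  | h3 u w ih =>
    obtain ⟨⟨f, hf, a, b⟩, c⟩ := ih
    obtain ⟨⟨f', hf', a', b'⟩, c'⟩ := stp_equiv pr_gen_inv (fun t ht => inv_mem (gen_mem ht)) u c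
    simp only [map_mul, Equiv.Perm.mul_apply, act_gen_inv_val]
    exact ⟨⟨f' * f, mul_mem hf' hf, by rw [a', a, mul_assoc], by rw [b', b, mul_assoc]⟩, c'⟩

theorem act_pow_miss {u : B} (x : {x // Good M T x})
    (h : ¬ ∃ t ∈ T, rho M (ee M x.1) (al t) = al u) (k : ℤ) :
    act M T (gen M u ^ k) x = if k % 2 = 0 then x else act M T (gen M u) x := by
  have e1 : act M T (gen M u)⁻¹ x = act M T (gen M u) x :=
    Subtype.ext (by rw [act_gen_inv_val, act_gen_val, stp_miss h, stp_miss h])
  have e2 : act M T (gen M u) (act M T (gen M u) x) = x := by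
    rw [← e1, ← Equiv.Perm.mul_apply, ← map_mul]
    simp
  have e3 : act M T (gen M u)⁻¹ (act M T (gen M u) x) = x := by
    rw [← Equiv.Perm.mul_apply, ← map_mul]
    simp
  induction k using Int.induction_on with
  | zero => simp
  | succ k ih =>
    rw [add_comm, zpow_one_add, map_mul, Equiv.Perm.mul_apply, ih]
    split_ifs <;> first | rfl | exact e2 | omega
  | pred k ih =>
    rw [sub_eq_neg_add, zpow_add, zpow_neg_one, map_mul, Equiv.Perm.mul_apply, ih]
    split_ifs <;> first | exact e1 | exact e3 | omega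

theorem act_pow_hit {u t : B} (ht : t ∈ T) (x : {x // Good M T x})
    (h : rho M (ee M x.1) (al t) = al u) (k : ℤ) :
    (act M T (gen M u ^ k) x).1.1 = gen M t ^ k * x.1.1 ∧
      ∀ y, rho M (ee M (act M T (gen M u ^ k) x).1) y = rho M (ee M x.1) y := by
  induction k using Int.induction_on with
  | zero => simp
  | succ k ih =>
    have h' := (ih.2 _).trans h
    rw [add_comm, zpow_one_add, zpow_one_add, map_mul, Equiv.Perm.mul_apply, act_gen_val]
    exact ⟨by rw [stp_hit ht h', ih.1, mul_assoc], fun y => by rw [ee_hit (pr_gen M) ht h', ih.2]⟩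
  | pred k ih =>
    have h' := (ih.2 _).trans h
    rw [sub_eq_neg_add, zpow_add, zpow_add, zpow_neg_one, zpow_neg_one, map_mul,
      Equiv.Perm.mul_apply, act_gen_inv_val]
    exact ⟨by rw [stp_hit ht h', ih.1, mul_assoc], fun y => by rw [ee_hit pr_gen_inv ht h', ih.2]⟩

theorem pr_eq_one {a : Art M} (ha : a ∈ par M T) (h : ∀ t ∈ T, Pos (rho M (pr M a) (al t))) :
    pr M a = 1 := by
  by_contra hne
  obtain ⟨u, hu⟩ := M.toCoxeterSystem.exists_rightDescent_of_ne_one hne
  have n := pos_of_not_descent M _ u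
    ((M.toCoxeterSystem.isRightDescent_iff_not_isRightDescent_mul).1 hu)
  rw [rho_mul, rho_simple, rf_self, map_neg] at n
  by_cases hT : u ∈ T
  · have z : rho M (pr M a) (al u) = 0 := by
      funext j
      have h1 := n j
      have h2 := h u hT j
      rw [Pi.neg_apply] at h1
      exact le_antisymm (by simpa using h1) h2
    have := root_norm M (pr M a) u
    rw [z] at this
    simp [bf] at this
  · have := n u
    rw [Pi.neg_apply, rho_par_coord hT ha, al_self] at this
    linarith

variable (M T) in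
/-- initial state -/
def x0 : {x // Good M T x} := ⟨(1, 1), fun t _ => by simpa [ee] using pos_al t⟩

variable (T) in
/-- the retraction onto a standard parabolic subgroup -/
noncomputable def ret (w : Art M) : Art M := (act M T w (x0 M T)).1.1

theorem ret_mem (w : Art M) : ret T w ∈ par M T := by
  obtain ⟨⟨f, hf, a, -⟩, -⟩ := act_equiv w (x := x0 M T) (x' := x0 M T) fun _ => rfl
  rw [ret, a]
  exact mul_mem hf (one_mem _)

theorem ret_par {a : Art M} (ha : a ∈ par M T) : ret T a = a := by
  rw [ret, act_par ha (x0 M T) rfl]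

theorem ee_pt {w a : Art M} (ha : a ∈ par M T) (h : pr M w = pr M a) :
    ee M (act M T w (x0 M T)).1 = 1 := by
  have e : ee M (act M T w (x0 M T)).1 = pr M (a * (ret T w)⁻¹) := by
    rw [ee, act_snd, h, map_mul, map_inv]
    simp [x0, ret]
  rw [e]
  exact pr_eq_one (mul_mem ha (inv_mem (ret_mem w))) fun t ht => e ▸ (act M T w (x0 M T)).2 t ht

theorem ret_mul (w : Art M) {w' a : Art M} (ha : a ∈ par M T) (h : pr M w' = pr M a) :
    ret T (w * w') = ret T w * ret T w' := by
  obtain ⟨⟨f, -, a1, a2⟩, -⟩ := act_equiv w (x := act M T w' (x0 M T)) (x' := x0 M T) fun y => by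
    rw [ee_pt ha h]
    simp [x0, ee]
  rw [ret, map_mul, Equiv.Perm.mul_apply, a1, ret, a2]
  simp [x0, ret]

theorem miss0 {s : B} (hs : s ∉ T) : ¬ ∃ t ∈ T, rho M (ee M (x0 M T).1) (al t) = al s := by
  rintro ⟨t, ht, e⟩
  have : al t = al s := by simpa [x0, ee] using e
  exact hs (al_inj this ▸ ht)

theorem pr_pow (s : B) (k : ℤ) :
    pr M (gen M s ^ k) = if k % 2 = 0 then 1 else M.toCoxeterSystem.simple s := by
  rw [map_zpow, pr_gen]
  have e : M.toCoxeterSystem.simple s ^ (2 : ℤ) = 1 := by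
    rw [zpow_two, simple_mul_simple_self]
  rw [zpow_eq_zpow_emod k e]
  split_ifs with h
  · rw [h, zpow_zero]
  · rw [show k % 2 = 1 by omega, zpow_one]

theorem ret_even {s : B} (hs : s ∉ T) (w : Art M) {k : ℤ} (hk : k % 2 = 0) :
    ret T (w * gen M s ^ k) = ret T w := by
  rw [ret, map_mul, Equiv.Perm.mul_apply, act_pow_miss _ (miss0 hs), if_pos hk, ret]

theorem ret_even' {s : B} (hs : s ∉ T) {w a : Art M} (ha : a ∈ par M T) (h : pr M w = pr M a)
    {k : ℤ} (hk : k % 2 = 0) : ret T (gen M s ^ k * w) = ret T w := by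
  rw [ret_mul _ ha h, ← one_mul (gen M s ^ k), ret_even hs _ hk, ret_par (one_mem _), one_mul]

theorem run_odd {s : B} (hs : s ∉ T) {a : Art M} (ha : a ∈ par M T) {k : ℤ} (hk : k % 2 = 1) :
    (act M T (a * gen M s ^ k) (x0 M T)).1.1 ∈ par M {t | t ∈ T ∧ M s t = 2} ∧
      ∃ a' ∈ par M T, ∀ y, rho M (ee M (act M T (a * gen M s ^ k) (x0 M T)).1) y =
        rho M (pr M a') (rf M s y) := by
  let Y : Art M × M.Group → Prop := fun x => x.1 ∈ par M {t | t ∈ T ∧ M s t = 2} ∧
    ∃ a ∈ par M T, ∀ y, rho M (ee M x) y = rho M (pr M a) (rf M s y)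
  have step : ∀ g : B → Art M, (∀ t, pr M (g t) = M.toCoxeterSystem.simple t) →
      (∀ t, t ∈ T ∧ M s t = 2 → g t ∈ par M {t | t ∈ T ∧ M s t = 2}) →
      ∀ u ∈ T, ∀ x, Y x → Y (stp M T g u x) := by
    rintro g hg hg' u hu x ⟨hx, a, ha, he⟩
    by_cases h : ∃ t ∈ T, rho M (ee M x) (al t) = al u
    · obtain ⟨t, ht, h⟩ := h
      refine ⟨?_, a, ha, fun y => by rw [ee_hit hg ht h, he]⟩
      have hst : s ≠ t := fun e => hs (e ▸ ht)
      have hsu : s ≠ u := fun e => hs (e ▸ hu)
      have h3 := congrFun h s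
      rw [he, rho_par_coord hs ha, rf_al] at h3
      simp only [Pi.add_apply, Pi.smul_apply, smul_eq_mul, al_self, al_ne hst, al_ne hsu] at h3
      rw [stp_hit ht h]
      exact mul_mem (hg' t ⟨ht, eq_two_of_cc M (by linarith)⟩) hx
    · refine ⟨by rw [stp_miss h]; exact hx, gen M u * a, mul_mem (gen_mem hu) ha, fun y => ?_⟩
      rw [ee_miss h, he, map_mul, rho_mul, pr_gen, rho_simple]
  have y1 : Y (act M T (gen M s ^ k) (x0 M T)).1 := by
    rw [act_pow_miss _ (miss0 hs), if_neg (by omega), act_gen_val]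
    refine ⟨by rw [stp_miss (miss0 hs)]; exact one_mem _, 1, one_mem _, fun y => ?_⟩
    rw [ee_miss (miss0 hs)]
    simp [x0, ee]
  rw [map_mul, Equiv.Perm.mul_apply]
  exact act_inv Y (step _ (pr_gen M) fun t ht => gen_mem ht)
    (step _ pr_gen_inv fun t ht => inv_mem (gen_mem ht)) ha _ y1

theorem ret_sand {s : B} (hs : s ∉ T) {a a' : Art M} (ha : a ∈ par M T) (ha' : a' ∈ par M T)
    {i k : ℤ} (hk : k % 2 = 1) (h : pr M (gen M s ^ i * (a * gen M s ^ k)) = pr M a') :
    ret T (gen M s ^ i * (a * gen M s ^ k)) ∈ par M {t | t ∈ T ∧ M s t = 2} := by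
  obtain ⟨h1, b, hb, h2⟩ := run_odd hs ha hk
  have e := ee_pt ha' h
  rw [ret]
  rw [map_mul, Equiv.Perm.mul_apply] at e ⊢
  generalize act M T (a * gen M s ^ k) (x0 M T) = x at *
  by_cases hh : ∃ t ∈ T, rho M (ee M x.1) (al t) = al s
  · obtain ⟨t, ht, hh⟩ := hh
    have h3 := congrFun ((act_pow_hit ht x hh i).2 (al s)) s
    rw [e, h2, rho_par_coord hs hb, rf_self] at h3
    simp at h3
    linarith
  · rw [act_pow_miss _ hh]
    split_ifs
    · exact h1
    · rw [act_gen_val, stp_miss hh]
      exact h1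

theorem simple_ne {s : B} (hs : s ∉ T) {a : Art M} (ha : a ∈ par M T) :
    M.toCoxeterSystem.simple s ≠ pr M a := by
  intro e
  have := rho_par_coord hs ha (al s)
  rw [← e, rho_simple, rf_self, Pi.neg_apply, al_self] at this
  linarith

theorem flat {s : B} (hs : s ∉ T) {g : Art M} (hg : g ∈ par M T) {i j : ℤ}
    (h : gen M s ^ i * (g * gen M s ^ j) ∈ par M T) :
    gen M s ^ i * (g * gen M s ^ j) = g ∧ i + j = 0 ∧
      (i % 2 = 1 → g ∈ par M {t | t ∈ T ∧ M s t = 2}) := by
  have ev : ∀ {g : Art M} {i j : ℤ}, g ∈ par M T → gen M s ^ i * (g * gen M s ^ j) ∈ par M T →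
      i % 2 = 0 → j % 2 = 0 → gen M s ^ i * (g * gen M s ^ j) = g := by
    intro g i j hg h hi hj
    rw [← ret_par h, ret_even' hs hg (by rw [map_mul, pr_pow, if_pos hj, mul_one]) hi,
      ret_even hs _ hj, ret_par hg]
  have key : gen M s ^ i * (g * gen M s ^ j) = g ∧
      (i % 2 = 1 → g ∈ par M {t | t ∈ T ∧ M s t = 2}) := by
    rcases Int.emod_two_eq_zero_or_one i with hi | hi <;>
      rcases Int.emod_two_eq_zero_or_one j with hj | hj
    · exact ⟨ev hg h hi hj, fun h => by omega⟩
    · refine (simple_ne hs (mul_mem (inv_mem hg) h) ?_).elim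
      simp [pr_pow, hi, hj, -map_zpow]
    · refine (simple_ne hs (mul_mem h (inv_mem hg)) ?_).elim
      simp [pr_pow, hi, hj, -map_zpow]
    · have h1 := ret_sand hs hg h hj rfl
      rw [ret_par h] at h1
      generalize e : gen M s ^ i * (g * gen M s ^ j) = g' at h h1
      have e2 : g = gen M s ^ (0 : ℤ) * (g' * gen M s ^ (-i - j)) := by
        rw [zpow_zero, one_mul, zpow_sub, ← mul_assoc, ← ((comm_perp h1).zpow_left (-i)).eq, ← e]
        simp [mul_assoc]
      have e3 := ev h (e2 ▸ hg) rfl (by omega)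
      rw [← e2] at e3
      exact ⟨e3.symm, fun _ => e3 ▸ h1⟩
  refine ⟨key.1, ?_, key.2⟩
  let len : Art M →* Multiplicative ℤ :=
    PresentedGroup.toGroup (lift_ok M (fun _ => Multiplicative.ofAdd 1) fun i j _ => by
      simp only [List.map_const', length_alternatingWord])
  have hl : len (gen M s) = Multiplicative.ofAdd 1 := PresentedGroup.toGroup.of _
  have := congrArg (fun w => (len w).toAdd) key.1
  simp only [map_mul, map_zpow, hl, toAdd_mul, toAdd_zpow, toAdd_ofAdd, smul_eq_mul] at this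
  omega

theorem mem_par_univ (w : Art M) : w ∈ par M Set.univ := by
  induction w using art_ind with
  | h1 => exact one_mem _
  | h2 u w ih => exact mul_mem (gen_mem (Set.mem_univ _)) ih
  | h3 u w ih => exact mul_mem (inv_mem (gen_mem (Set.mem_univ _))) ih

theorem pr_comm {s : B} {g : Art M} {e : ℤ} (he : e ≠ 0) (h2 : e % 2 = 0)
    (hc : Commute g (gen M s ^ e)) : Commute (M.toCoxeterSystem.simple s) (pr M g) := by
  have hy : gen M s ^ e ∈ par M {s} := zpow_mem (gen_mem (Set.mem_singleton s)) e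
  by_cases hh : ∃ t ∈ ({s} : Set B),
      rho M (ee M (act M {s} g (x0 M {s})).1) (al t) = al s
  · obtain ⟨t, rfl, hh⟩ := hh
    have e1 : ee M (act M {t} g (x0 M {t})).1 = pr M (g * (ret {t} g)⁻¹) := by
      rw [ee, act_snd, map_mul, map_inv]
      simp [x0, ret]
    rw [e1] at hh
    have e2 : Commute (gen M t) (ret {t} g) := by
      have := ret_mem (T := {t}) g
      rw [par, Set.image_singleton, Subgroup.mem_closure_singleton] at this
      obtain ⟨k, hk⟩ := this
      rw [← hk]
      exact Commute.self_zpow _ k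
    have e3 : pr M (gen M t * (g * (ret {t} g)⁻¹) * gen M t * (g * (ret {t} g)⁻¹)⁻¹) = 1 := by
      refine pr_eq_one (mem_par_univ _) fun u _ => ?_
      generalize g * (ret {t} g)⁻¹ = g2 at hh
      rw [map_mul (pr M), map_mul (pr M), map_mul (pr M), rho_mul, rho_mul, rho_mul, pr_gen,
        rho_simple, ← rf_conj M hh,
        rf_rf, ← rho_mul, ← map_mul, mul_inv_cancel, map_one, map_one]
      exact pos_al u
    have e4 : Commute (M.toCoxeterSystem.simple t) (pr M (g * (ret {t} g)⁻¹)) := by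
      generalize g * (ret {t} g)⁻¹ = g2 at e3
      rw [map_mul, map_mul, map_mul, map_inv, mul_inv_eq_one, pr_gen] at e3
      rw [Commute, SemiconjBy]
      conv_lhs => rw [← e3]
      rw [mul_assoc _ (pr M g2), simple_mul_simple_cancel_left]
    have e5 := e4.mul_right (pr_gen M t ▸ e2.map (pr M))
    simpa using e5
  · have e1 : ret {s} (gen M s ^ e * g) = ret {s} g := by
      rw [ret, map_mul, Equiv.Perm.mul_apply, act_pow_miss _ hh, if_pos h2, ret]
    rw [← hc.eq, ret_mul _ hy rfl, ret_par hy, mul_eq_left] at e1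
    exact (he (gen_zpow_eq_one e1)).elim

theorem notrip {s : B} (hs : s ∉ T) {g g' : Art M} (hg : g ∈ par M T) (hg' : g' ∈ par M T)
    {o e k l : ℤ} (ho : o % 2 = 1) (he : e ≠ 0) (hc : Commute g (gen M s ^ e))
    (h : gen M s ^ k * g * gen M s ^ o * g' * gen M s ^ l ∈ par M T) :
    g ∈ par M {t | t ∈ T ∧ M s t = 2} ∨ g' ∈ par M {t | t ∈ T ∧ M s t = 2} := by
  rcases Int.emod_two_eq_zero_or_one e with h2 | h2
  swap
  · refine Or.inl ((flat hs hg (i := e) (j := -e) ?_).2.2 h2)
    rw [← mul_assoc, ← hc.eq]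
    simpa using hg
  generalize ha : gen M s ^ k * g * gen M s ^ o * g' * gen M s ^ l = a at h
  rcases Int.emod_two_eq_zero_or_one l with hl | hl
  · left
    have e1 : g = gen M s ^ (-k) * a * (gen M s ^ (-l) * (g'⁻¹ * gen M s ^ (-o))) := by
      rw [← ha]
      group
    have e2 := ret_sand hs (mul_mem h (inv_mem hg')) hg (i := -k) (k := -o) (by omega) (by
      conv_rhs => rw [e1]
      simp only [map_mul, pr_pow s (-l), if_pos (show -l % 2 = 0 by omega), one_mul, mul_assoc])
    have e3 : gen M s ^ (-k) * (a * g'⁻¹ * gen M s ^ (-o)) =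
        gen M s ^ (-k) * a * (g'⁻¹ * gen M s ^ (-o)) := by simp only [mul_assoc]
    have e4 := (run_odd hs (inv_mem hg') (k := -o) (by omega)).1
    have e5 := ret_par hg
    conv_lhs at e5 => rw [e1]
    rw [e3] at e2
    rw [ret, map_mul, Equiv.Perm.mul_apply] at e2 e5
    rw [map_mul _ (gen M s ^ (-l)), Equiv.Perm.mul_apply] at e5
    generalize act M T (g'⁻¹ * gen M s ^ (-o)) (x0 M T) = x at e2 e4 e5
    by_cases hh : ∃ t ∈ T, rho M (ee M x.1) (al t) = al s
    · obtain ⟨t, ht, hh⟩ := hh
      obtain ⟨b1, b2⟩ := act_pow_hit ht x hh (-l)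
      obtain ⟨⟨f, -, f1, f2⟩, -⟩ := act_equiv (gen M s ^ (-k) * a) b2
      rw [f2] at e2
      rw [f1, b1] at e5
      have hf : f ∈ par M {t | t ∈ T ∧ M s t = 2} := by simpa using mul_mem e2 (inv_mem e4)
      rw [← e5]
      refine mul_mem hf (mul_mem ?_ e4)
      by_cases hl0 : -l = 0
      · rw [hl0, zpow_zero]
        exact one_mem _
      refine zpow_mem (gen_mem (T := {t | t ∈ T ∧ M s t = 2})
        ⟨ht, two_of_comm (fun e => hs (e ▸ ht)) he hl0 ?_⟩) _
      have c1 := ((comm_perp hf).zpow_left e).symm.inv_left.mul_left hc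
      have c2 := c1.mul_left ((comm_perp e4).zpow_left e).symm.inv_left
      rw [← e5] at c2
      have c3 : Commute (gen M t ^ (-l)) (gen M s ^ e) := by simpa [mul_assoc] using c2
      exact c3.eq
    · rw [act_pow_miss _ hh, if_pos (by omega)] at e5
      exact e5 ▸ e2
  have c := pr_comm he h2 hc
  have p := congrArg (pr M) ha
  simp only [map_mul, pr_pow, ho, hl, one_ne_zero, if_false] at p
  have ss := M.toCoxeterSystem.simple_mul_simple_self s
  rcases Int.emod_two_eq_zero_or_one k with hk | hk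
  · right
    have e1 : g' = gen M s ^ (-o) * (g⁻¹ * gen M s ^ (-k - 1)) *
        (gen M s ^ (1 : ℤ) * (a * gen M s ^ (-l))) := by
      rw [← ha]
      group
    have e2 : pr M (gen M s ^ (1 : ℤ) * (a * gen M s ^ (-l))) = pr M (g * g') := by
      rw [if_pos hk, one_mul] at p
      rw [map_mul, map_mul, pr_pow, pr_pow, if_neg (by omega), if_neg (by omega), ← p, ← c.eq,
        map_mul]
      simp only [mul_assoc, ss, mul_one, simple_mul_simple_cancel_left]
    rw [← ret_par hg', e1, ret_mul _ (mul_mem hg hg') e2]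
    refine mul_mem (ret_sand hs (inv_mem hg) (inv_mem hg) (by omega) ?_)
      (ret_sand hs h (mul_mem hg hg') (by omega) e2)
    rw [map_mul, map_mul, pr_pow, pr_pow, if_neg (by omega), if_neg (by omega), map_inv,
      ← c.inv_right.eq, simple_mul_simple_cancel_left]
  · refine (simple_ne hs (mul_mem (inv_mem (mul_mem hg hg')) h) ?_).elim
    rw [if_neg (by omega), c.eq] at p
    rw [map_mul, map_inv, map_mul, ← p]
    simp only [mul_assoc, simple_mul_simple_cancel_left, mul_inv_rev, inv_mul_cancel_left]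

theorem notrip' {s : B} (hs : s ∉ T) {g g' : Art M} (hg : g ∈ par M T) (hg' : g' ∈ par M T)
    {o e k l : ℤ} (ho : o % 2 = 1) (he : e ≠ 0)
    (hc : Commute g (gen M s ^ e) ∨ Commute g' (gen M s ^ e))
    (h : gen M s ^ k * g * gen M s ^ o * g' * gen M s ^ l ∈ par M T) :
    g ∈ par M {t | t ∈ T ∧ M s t = 2} ∨ g' ∈ par M {t | t ∈ T ∧ M s t = 2} := by
  rcases hc with hc | hc
  · exact notrip hs hg hg' ho he hc h
  · have := notrip hs (inv_mem hg') (inv_mem hg) (o := -o) (k := -l) (l := -k) (by omega) he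
      hc.inv_left (by simpa [mul_assoc] using inv_mem h)
    simpa [or_comm] using this

end Pool.Agent.Lib.MP_6d85b4_al
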