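import Mathlib
import Pool.Agent.Lib.MP_6d85b4_al.Act

set_option autoImplicit false
set_option linter.unusedSectionVars false

namespace Pool.Agent.Lib.MP_6d85b4_al

open Monoid Monoid.PushoutI CoxeterSystem

section Push

variable {G : Bool → Type} {H : Type} [∀ b, Group (G b)] [Group H] {φ : ∀ b, H →* G b}

/-- product of a list of letters in the amalgam -/
def lp (φ : ∀ b, H →* G b) (L : List (Σ b, G b)) : PushoutI φ :=
  (L.map fun l => PushoutI.of (φ := φ) l.1 l.2).prod

/-- reduced lists of letters -/
def Red (φ : ∀ b, H →* G b) (L : List (Σ b, G b)) : Prop :=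
  (∀ l ∈ L, l.2 ∉ (φ l.1).range) ∧ L.IsChain fun l l' => l.1 ≠ l'.1

theorem word_prod (w : CoprodI.Word G) : ofCoprodI (φ := φ) w.prod = lp φ w.toList := by
  rw [CoprodI.Word.prod, map_list_prod, List.map_map, lp]
  congr 1

theorem exists_nw (d : NormalWord.Transversal φ) {L : List (Σ b, G b)} (hL : Red φ L) :
    ∃ w : NormalWord d, w.prod = lp φ L ∧ w.toList.map Sigma.fst = L.map Sigma.fst := by
  let w0 : CoprodI.Word G := ⟨L, fun l hl e => hL.1 l hl (e ▸ one_mem _), hL.2⟩
  obtain ⟨w, h1, h2⟩ := Reduced.exists_normalWord_prod_eq (φ := φ) d (w := w0) hL.1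
  exact ⟨w, h1.trans (word_prod w0), h2⟩

theorem idx_eq (hφ : ∀ b, Function.Injective (φ b)) {L L' : List (Σ b, G b)} (hL : Red φ L)
    (hL' : Red φ L') {h h' : H} (e : base φ h * lp φ L = base φ h' * lp φ L') :
    L.map Sigma.fst = L'.map Sigma.fst := by
  obtain ⟨d⟩ := NormalWord.transversal_nonempty φ hφ
  obtain ⟨w, a1, a2⟩ := exists_nw d hL
  obtain ⟨w', b1, b2⟩ := exists_nw d hL'
  rw [← a1, ← b1, ← NormalWord.prod_base_smul, ← NormalWord.prod_base_smul] at e
  have := NormalWord.prod_injective e
  have e1 : (h • w).toList = (h' • w').toList := by rw [this]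
  have e2 : w.toList = w'.toList := e1
  rw [← a2, ← b2, e2]

theorem exists_red (hφ : ∀ b, Function.Injective (φ b)) (x : PushoutI φ) :
    ∃ h L, Red φ L ∧ x = base φ h * lp φ L := by
  classical
  obtain ⟨d⟩ := NormalWord.transversal_nonempty φ hφ
  obtain ⟨w, rfl⟩ := (NormalWord.equiv (d := d)).symm.surjective x
  refine ⟨w.head, w.toList, ⟨fun l hl hr => w.ne_one l hl ?_, w.chain_ne⟩, ?_⟩
  · have h1 := w.normalized l.1 l.2 hl
    have := (d.compl l.1).1 (a₁ := (⟨l.2, hr⟩, ⟨1, d.one_mem _⟩))
      (a₂ := (⟨1, one_mem _⟩, ⟨l.2, h1⟩)) (by simp)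
    exact congrArg (fun p => (p.1 : G l.1)) this
  · rw [← word_prod]
    rfl

theorem mem_base_of_comm (hφ : ∀ b, Function.Injective (φ b)) (y : ∀ b, G b)
    (hy : ∀ b, y b ∉ (φ b).range) (x : PushoutI φ)
    (hc : ∀ b, x * PushoutI.of b (y b) = PushoutI.of b (y b) * x) : x ∈ (base φ).range := by
  obtain ⟨h, L, hL, rfl⟩ := exists_red hφ x
  rcases L with _ | ⟨g, L⟩
  · exact ⟨h, by simp [lp]⟩
  exfalso
  obtain ⟨b, hb⟩ : ∃ b : Bool, ((g :: L).getLast (by simp)).1 ≠ b :=
    ⟨!((g :: L).getLast (by simp)).1, by simp⟩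
  have r1 : Red φ ((g :: L) ++ [⟨b, y b⟩]) := by
    refine ⟨fun l hl => ?_, ?_⟩
    · rcases List.mem_append.1 hl with hl | hl
      · exact hL.1 l hl
      · rw [List.mem_singleton.1 hl]
        exact hy b
    · refine List.isChain_append.2 ⟨hL.2, by simp, fun a ha c hc => ?_⟩
      rw [List.getLast?_eq_some_getLast (by simp)] at ha
      simp only [Option.mem_def, Option.some.injEq, List.head?_cons] at ha hc
      rw [← ha, ← hc]
      exact hb
  have e1 : base φ h * lp φ ((g :: L) ++ [⟨b, y b⟩]) =
      PushoutI.of b (y b * φ b h) * lp φ (g :: L) := by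
    have := hc b
    rw [map_mul, of_apply_eq_base, mul_assoc (PushoutI.of b (y b)), ← this]
    simp [lp, mul_assoc]
  have hL' : Red φ L := ⟨fun l hl => hL.1 l (List.mem_cons_of_mem _ hl), hL.2.tail⟩
  obtain ⟨k, g⟩ := g
  by_cases hk : k = b
  · subst hk
    have e2 : PushoutI.of k (y k * φ k h) * lp φ (⟨k, g⟩ :: L) =
        PushoutI.of k (y k * φ k h * g) * lp φ L := by
      simp [lp, mul_assoc]
    by_cases hr : y k * φ k h * g ∈ (φ k).range
    · obtain ⟨h', hh⟩ := hr
      rw [e2, ← hh, of_apply_eq_base] at e1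
      have := congrArg List.length (idx_eq hφ r1 hL' e1)
      simp only [List.length_map, List.length_append, List.length_cons] at this
      omega
    · have r2 : Red φ (⟨k, y k * φ k h * g⟩ :: L) := by
        refine ⟨fun l hl => ?_, ?_⟩
        · rcases List.mem_cons.1 hl with rfl | hl
          · exact hr
          · exact hL'.1 l hl
        · have := hL.2
          rw [List.isChain_cons] at this ⊢
          exact this
      have e3 : base φ h * lp φ ((⟨k, g⟩ :: L) ++ [⟨k, y k⟩]) =
          base φ 1 * lp φ (⟨k, y k * φ k h * g⟩ :: L) := by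
        rw [e1, e2]
        simp [lp]
      have := congrArg List.length (idx_eq hφ r1 r2 e3)
      simp only [List.length_map, List.length_append, List.length_cons] at this
      omega
  · have r2 : Red φ (⟨b, y b * φ b h⟩ :: ⟨k, g⟩ :: L) := by
      refine ⟨fun l hl => ?_, ?_⟩
      · rcases List.mem_cons.1 hl with rfl | hl
        · intro hr
          refine hy b ?_
          have := mul_mem hr (inv_mem (MonoidHom.mem_range.2 ⟨h, rfl⟩ : φ b h ∈ (φ b).range))
          simpa using this
        · exact hL.1 l hl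
      · exact List.IsChain.cons_cons (fun e => hk e.symm) hL.2
    have e3 : base φ h * lp φ ((⟨k, g⟩ :: L) ++ [⟨b, y b⟩]) =
        base φ 1 * lp φ (⟨b, y b * φ b h⟩ :: ⟨k, g⟩ :: L) := by
      rw [e1]
      simp [lp]
    have := idx_eq hφ r1 r2 e3
    simp only [List.cons_append, List.map_cons, List.cons.injEq] at this
    exact hk this.1

end Push

variable {B : Type} [Fintype B] [DecidableEq B] {M : CoxeterMatrix B}

theorem mem_alt {u v x : B} {k : ℕ} (h : x ∈ alternatingWord u v k) : x = u ∨ x = v := by
  induction k with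
  | zero => simp [alternatingWord] at h
  | succ k ih =>
    rw [alternatingWord_succ', List.mem_cons] at h
    rcases h with h | h
    · split_ifs at h
      · exact Or.inr h
      · exact Or.inl h
    · exact ih h

theorem center_le {i j : B} (h0 : M i j = 0) :
    Subgroup.center (Art M) ≤ par M {u | u ≠ i ∧ u ≠ j} := by
  have hij : i ≠ j := by
    rintro rfl
    simp at h0
  let ex : Bool → B := fun b => if b then i else j
  let G : Bool → Subgroup (Art M) := fun b => par M {u | u ≠ ex b}
  let H : Subgroup (Art M) := par M {u | u ≠ i ∧ u ≠ j}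
  have hle : ∀ b, H ≤ G b := fun b => Subgroup.closure_mono (Set.image_mono fun u hu => by
    cases b
    · exact hu.2
    · exact hu.1)
  let φ : ∀ b, H →* G b := fun b => Subgroup.inclusion (hle b)
  have hφ : ∀ b, Function.Injective (φ b) := fun b => Subgroup.inclusion_injective _
  let f : B → PushoutI (G := fun b => G b) φ := fun u =>
    if h : u = i then PushoutI.of (G := fun b => G b) false
      ⟨gen M u, gen_mem (T := {u | u ≠ ex false}) (fun e => hij (h.symm.trans e))⟩
    else PushoutI.of (G := fun b => G b) true ⟨gen M u, gen_mem (T := {u | u ≠ ex true}) h⟩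
  have hf : ∀ (b : Bool) (u : B) (hu : u ≠ ex b), f u =
      PushoutI.of (G := fun b => G b) b ⟨gen M u, gen_mem (T := {u | u ≠ ex b}) hu⟩ := by
    intro b u hu
    by_cases h : u = i
    · cases b
      · simp only [f, dif_pos h]
      · exact absurd h hu
    · cases b
      · simp only [f, dif_neg h]
        have hm : gen M u ∈ H := gen_mem (T := {u | u ≠ i ∧ u ≠ j}) ⟨h, hu⟩
        exact (of_apply_eq_base (G := fun b => G b) φ true ⟨_, hm⟩).trans
          (of_apply_eq_base (G := fun b => G b) φ false ⟨_, hm⟩).symm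
      · simp only [f, dif_neg h]
  have hl : ∀ (b : Bool) (l : List B), (∀ x ∈ l, x ≠ ex b) → ∃ hm : (l.map (gen M)).prod ∈ G b,
      (l.map f).prod = PushoutI.of (G := fun b => G b) b ⟨_, hm⟩ := by
    intro b l hx
    induction l with
    | nil => exact ⟨one_mem _, (map_one _).symm⟩
    | cons u l ih =>
      obtain ⟨hm, e⟩ := ih fun x h => hx x (List.mem_cons_of_mem _ h)
      have hu := hx u List.mem_cons_self
      refine ⟨mul_mem (gen_mem (T := {u | u ≠ ex b}) hu) hm, ?_⟩
      rw [List.map_cons, List.prod_cons, e, hf b u hu, ← map_mul]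
      rfl
  let F : Art M →* PushoutI (G := fun b => G b) φ :=
    PresentedGroup.toGroup (lift_ok M f fun u v h => by
      obtain ⟨b, hu, hv⟩ : ∃ b, u ≠ ex b ∧ v ≠ ex b := by
        by_cases h1 : u ≠ i ∧ v ≠ i
        · exact ⟨true, h1⟩
        · refine ⟨false, ?_, ?_⟩
          · rintro (rfl : u = j)
            have : v = i := by tauto
            rw [this, M.symmetric] at h
            exact h h0
          · rintro (rfl : v = j)
            have : u = i := by tauto
            rw [this] at h
            exact h h0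
      obtain ⟨m1, e1⟩ := hl b (alternatingWord u v (M u v)) fun x hx => by
        rcases mem_alt hx with rfl | rfl <;> assumption
      obtain ⟨m2, e2⟩ := hl b (alternatingWord v u (M u v)) fun x hx => by
        rcases mem_alt hx with rfl | rfl <;> assumption
      rw [e1, e2]
      congr 1
      exact Subtype.ext (braid M h))
  have hF : ∀ u, F (gen M u) = f u := fun u => PresentedGroup.toGroup.of _
  let r : PushoutI (G := fun b => G b) φ →* Art M :=
    PushoutI.lift (fun b => (G b).subtype) H.subtype fun b => rfl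
  have hr : r.comp F = MonoidHom.id _ := by
    refine PresentedGroup.ext fun u => ?_
    change r (F (gen M u)) = gen M u
    rw [hF]
    by_cases h : u = i
    · simp only [f, dif_pos h, r, lift_of]
      rfl
    · simp only [f, dif_neg h, r, lift_of]
      rfl
  intro z hz
  have hne : ∀ b, ex (!b) ≠ ex b := by
    intro b
    cases b
    · exact hij
    · exact hij.symm
  obtain ⟨h, hh⟩ := mem_base_of_comm (G := fun b => G b) hφ
    (fun b => ⟨gen M (ex (!b)), gen_mem (T := {u | u ≠ ex b}) (hne b)⟩) (fun b => by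
      rintro ⟨h, hh⟩
      have e : (h : Art M) = gen M (ex (!b)) := congrArg Subtype.val hh
      refine gen_not_mem (T := {u | u ≠ i ∧ u ≠ j}) ?_ (e ▸ h.2)
      cases b
      · exact fun hh => hh.1 rfl
      · exact fun hh => hh.2 rfl) (F z) fun b => by
      rw [← hf b _ (hne b), ← hF, ← map_mul, ← map_mul, Subgroup.mem_center_iff.1 hz]
  have e : z = r (F z) := (DFunLike.congr_fun hr z).symm
  rw [e, ← hh]
  simp only [r, lift_base]
  exact h.2

theorem center_eq_bot (hc : (SimpleGraph.fromRel fun i j : B => M i j ≠ 2).Connected)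
    {i j : B} (h0 : M i j = 0) : Subgroup.center (Art M) = ⊥ :=
  normal_eq_bot hc _ inferInstance _ (fun e => by
    have : i ∈ {u | u ≠ i ∧ u ≠ j} := e ▸ Set.mem_univ i
    exact this.1 rfl) (center_le h0)

end Pool.Agent.Lib.MP_6d85b4_al
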