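import Mathlib

set_option autoImplicit false
set_option linter.unusedSectionVars false

namespace Pool.Agent.Lib.MP_6d85b4_al

/-- Betweenness in a tree. -/
structure PT (V : Type) where
  B : V → V → V → Prop
  left : ∀ x y, B x x y
  symm : ∀ {x w y}, B x w y → B y w x
  thin : ∀ {x w y} (z), B x w y → B x w z ∨ B z w y
  anti : ∀ {x w y}, B x w y → B x y w → w = y
  gate : ∀ U : Set V, (∀ x ∈ U, ∀ y ∈ U, ∀ w, B x w y → w ∈ U) → U.Nonempty → ∀ x,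
    ∃ p ∈ U, ∀ u ∈ U, B x p u

namespace PT

variable {V : Type} (P : PT V)

/-- subtrees -/
def Conv (U : Set V) : Prop := ∀ x ∈ U, ∀ y ∈ U, ∀ w, P.B x w y → w ∈ U

/-- nearest point projections -/
def IsGate (U : Set V) (x p : V) : Prop := p ∈ U ∧ ∀ u ∈ U, P.B x p u

variable {P}

theorem right (x y : V) : P.B x y y := P.symm (P.left y x)

theorem tr1 {x w v y : V} (h1 : P.B x w y) (h2 : P.B w v y) : P.B x w v := by
  rcases P.thin v h1 with h | h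
  · exact h
  · rw [← P.anti (P.symm h) (P.symm h2)]
    exact right _ _

theorem tr2 {x w v y : V} (h1 : P.B x w y) (h2 : P.B w v y) : P.B x v y := by
  rcases P.thin x h2 with h | h
  · rw [← P.anti (tr1 h1 h2) (P.symm h)]
    exact h1
  · exact h

theorem tr3 {x w v y : V} (h1 : P.B x v y) (h2 : P.B x w v) : P.B x w y :=
  P.symm (tr2 (P.symm h1) (P.symm h2))

theorem tr4 {x w v y : V} (h1 : P.B x v y) (h2 : P.B x w v) : P.B w v y :=
  P.symm (tr1 (P.symm h1) (P.symm h2))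

theorem conv_int (x y : V) : P.Conv {w | P.B x w y} := by
  intro a ha b hb w hw
  rcases P.thin x hw with h | h
  · exact tr3 ha (P.symm h)
  · exact tr3 hb h

theorem lin {x a b y : V} (ha : P.B x a y) (hb : P.B x b y) : P.B x a b ∨ P.B x b a := by
  rcases P.thin b ha with h | h
  · exact Or.inl h
  · exact Or.inr (tr1 hb h)

theorem exists_gate {U : Set V} (hU : P.Conv U) (hne : U.Nonempty) (x : V) :
    ∃ p, P.IsGate U x p := by
  obtain ⟨p, h1, h2⟩ := P.gate U hU hne x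
  exact ⟨p, h1, h2⟩

theorem IsGate.unique {U : Set V} {x p q : V} (hp : P.IsGate U x p) (hq : P.IsGate U x q) :
    p = q := P.anti (hp.2 q hq.1) (hq.2 p hp.1)

theorem IsGate.mem {U U' : Set V} {x p u : V} (hp : P.IsGate U x p) (hU : P.Conv U')
    (hx : x ∈ U') (hu : u ∈ U) (hu' : u ∈ U') : p ∈ U' := hU x hx u hu' p (hp.2 u hu)

theorem IsGate.trans {U U' : Set V} {x r p : V} (hr : P.IsGate U' x r) (hp : P.IsGate U r p)
    (h : U ⊆ U') : P.IsGate U x p :=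
  ⟨hp.1, fun u hu => tr2 (hr.2 u (h hu)) (hp.2 u hu)⟩

theorem IsGate.btw {U : Set V} {x y a b : V} (ha : P.IsGate U x a) (hb : P.IsGate U y b)
    (h : a ≠ b) : P.B x a y := by
  rcases P.thin y (ha.2 b hb.1) with e | e
  · exact e
  · exact (h (P.anti e (hb.2 a ha.1))).elim

theorem IsGate.same {U U' : Set V} {x y p : V} (hp : P.IsGate U x p) (hU : P.Conv U')
    (hx : x ∈ U') (hy : y ∈ U') (hn : p ∉ U') : P.IsGate U y p := by
  refine ⟨hp.1, fun u hu => ?_⟩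
  rcases P.thin y (hp.2 u hu) with e | e
  · exact (hn (hU x hx y hy p e)).elim
  · exact e

theorem median (x y p : V) : ∃ q, P.B x q y ∧ P.B p q x ∧ P.B p q y := by
  obtain ⟨q, h1, h2⟩ := exists_gate (conv_int (P := P) x y) ⟨x, P.left x y⟩ p
  exact ⟨q, h1, h2 x (P.left x y), h2 y (right x y)⟩

end PT

section defs

variable {G V I : Type} [Group G] [MulAction G V] [MulAction G I]

/-- two points of a cone joined by a piece -/
def Pc (T : I → Set V) (i : I) (x y : V) : Prop :=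
  x ∈ T i ∧ y ∈ T i ∧ (x = y ∨ ∃ j, j ≠ i ∧ x ∈ T j ∧ y ∈ T j)

/-- two pieces meeting at a tripod -/
def Tr (P : PT V) (T : I → Set V) (i : I) (x q y : V) : Prop :=
  x ∈ T i ∧ q ∈ T i ∧ y ∈ T i ∧ x ≠ q ∧ y ≠ q ∧ P.B x q y ∧
    ∃ j j' e, j ≠ i ∧ j' ≠ i ∧ x ∈ T j ∧ q ∈ T j ∧ e ∈ T j ∧ y ∈ T j' ∧ q ∈ T j' ∧ e ∈ T j' ∧
      e ≠ q ∧ P.B x q e ∧ P.B y q e

/-- at most two pieces -/
def Two (P : PT V) (T : I → Set V) (i : I) (x y : V) : Prop :=
  Pc T i x y ∨ ∃ q, Tr P T i x q y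

/-- small cancellation data on a tree -/
structure Sys (P : PT V) (T : I → Set V) (R : I → Subgroup G) : Prop where
  inv : ∀ (g : G) x w y, P.B x w y → P.B (g • x) (g • w) (g • y)
  conv : ∀ i, P.Conv (T i)
  ne : ∀ i, (T i).Nonempty
  smul : ∀ (g : G) i x, x ∈ T i → g • x ∈ T (g • i)
  conj : ∀ (g : G) i h, h ∈ R i → g * h * g⁻¹ ∈ R (g • i)
  fix : ∀ i h, h ∈ R i → h • i = i
  loc : ∀ i h, h ∈ R i → h ≠ 1 → ∀ y p p' x, Pc T i y p → Two P T i p p' → Pc T i p' x →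
    x ≠ h • y ∧ ¬ (Tr P T i p' x (h • y) ∧ Tr P T i x (h • y) (h • p))

/-- union of cones -/
def Wd (T : I → Set V) (K : Set I) : Set V := {x | ∃ i ∈ K, x ∈ T i}

/-- cones meeting a union of cones -/
def Jn (T : I → Set V) (K : Set I) : Set I := {i | ∃ x ∈ T i, x ∈ Wd T K}

/-- group generated by rotations -/
def Mg (R : I → Subgroup G) (K : Set I) : Subgroup G := Subgroup.closure {h | ∃ i ∈ K, h ∈ R i}

/-- next windmill -/
def nx (T : I → Set V) (R : I → Subgroup G) (K : Set I) : Set I :=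
  {i | ∃ n ∈ Mg R (Jn T K), ∃ j ∈ Jn T K, i = n • j}

/-- windmill invariant -/
structure Mill (P : PT V) (T : I → Set V) (R : I → Subgroup G) (K : Set I) : Prop where
  ne : K.Nonempty
  inv : ∀ n ∈ Mg R K, ∀ i ∈ K, n • i ∈ K
  conv : P.Conv (Wd T K)
  two : ∀ j, j ∉ K → ∀ x y, x ∈ T j → y ∈ T j → x ∈ Wd T K → y ∈ Wd T K → Two P T j x y

/-- the other cones -/
def Vx (T : I → Set V) (K : Set I) (i : I) : Set V := {x | ∃ j ∈ Jn T K, j ≠ i ∧ x ∈ T j}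

/-- points projecting to the old part of a new cone -/
def Om (P : PT V) (T : I → Set V) (K : Set I) (i : I) (x : V) : Prop :=
  ∃ p, P.IsGate (T i) x p ∧ p ∈ Vx T K i

/-- normal forms -/
inductive NF (T : I → Set V) (R : I → Subgroup G) (K : Set I) : Option I → G → Prop
  | base (g : G) : g ∈ Mg R K → NF T R K none g
  | cons (i : I) (h n : G) (o : Option I) : i ∈ Jn T K → i ∉ K → h ∈ R i → h ≠ 1 → o ≠ some i →
      NF T R K o n → NF T R K (some i) (h * n)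

end defs

namespace Sys

variable {G V I : Type} [Group G] [MulAction G V] [MulAction G I] {P : PT V} {T : I → Set V}
  {R : I → Subgroup G} (S : Sys P T R)
include S

theorem mem_iff (g : G) (i : I) (x : V) : g • x ∈ T (g • i) ↔ x ∈ T i := by
  refine ⟨fun h => ?_, S.smul g i x⟩
  simpa using S.smul g⁻¹ _ _ h

theorem rot_mem {i : I} {h : G} (hh : h ∈ R i) {x : V} (hx : x ∈ T i) : h • x ∈ T i := by
  have := S.smul h i x hx
  rwa [S.fix i h hh] at this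

theorem gate_smul (g : G) {i : I} {x p : V} (h : P.IsGate (T i) x p) :
    P.IsGate (T (g • i)) (g • x) (g • p) := by
  refine ⟨S.smul g i p h.1, fun u hu => ?_⟩
  have := S.inv g _ _ _ (h.2 (g⁻¹ • u) (by simpa using S.smul g⁻¹ _ _ hu))
  simpa using this

theorem pc_smul (g : G) {i : I} {x y : V} (h : Pc T i x y) : Pc T (g • i) (g • x) (g • y) := by
  obtain ⟨h1, h2, h3⟩ := h
  refine ⟨S.smul g _ _ h1, S.smul g _ _ h2, ?_⟩
  rcases h3 with rfl | ⟨j, a, b, c⟩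
  · exact Or.inl rfl
  · exact Or.inr ⟨g • j, by simpa using a, S.smul g _ _ b, S.smul g _ _ c⟩

theorem tr_smul (g : G) {i : I} {x q y : V} (h : Tr P T i x q y) :
    Tr P T (g • i) (g • x) (g • q) (g • y) := by
  obtain ⟨h1, h2, h3, h4, h5, h6, j, j', e, a1, a2, a3, a4, a5, a6, a7, a8, a9, b1, b2⟩ := h
  exact ⟨S.smul g _ _ h1, S.smul g _ _ h2, S.smul g _ _ h3, by simpa using h4, by simpa using h5,
    S.inv g _ _ _ h6, g • j, g • j', g • e, by simpa using a1, by simpa using a2, S.smul g _ _ a3,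
    S.smul g _ _ a4, S.smul g _ _ a5, S.smul g _ _ a6, S.smul g _ _ a7, S.smul g _ _ a8,
    by simpa using a9, S.inv g _ _ _ b1, S.inv g _ _ _ b2⟩

theorem two_smul (g : G) {i : I} {x y : V} (h : Two P T i x y) :
    Two P T (g • i) (g • x) (g • y) := by
  rcases h with h | ⟨q, h⟩
  · exact Or.inl (S.pc_smul g h)
  · exact Or.inr ⟨_, S.tr_smul g h⟩

theorem sub_jn {K : Set I} : K ⊆ Jn T K := fun i hi => by
  obtain ⟨x, hx⟩ := S.ne i
  exact ⟨x, hx, i, hi, hx⟩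

omit S in
theorem mg_mono {K K' : Set I} (h : K ⊆ K') : Mg R K ≤ Mg R K' :=
  Subgroup.closure_mono fun _ ⟨i, h1, h2⟩ => ⟨i, h h1, h2⟩

omit S in
theorem rot_mg {K : Set I} {i : I} (hi : i ∈ K) {h : G} (hh : h ∈ R i) : h ∈ Mg R K :=
  Subgroup.subset_closure ⟨i, hi, hh⟩

theorem wd_smul {K : Set I} {g : G} (hg : ∀ i ∈ K, g • i ∈ K) {x : V} (hx : x ∈ Wd T K) :
    g • x ∈ Wd T K := by
  obtain ⟨i, hi, hx⟩ := hx
  exact ⟨_, hg i hi, S.smul g i x hx⟩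

theorem jn_smul {K : Set I} {g : G} (hg : ∀ i ∈ K, g • i ∈ K) {i : I} (hi : i ∈ Jn T K) :
    g • i ∈ Jn T K := by
  obtain ⟨x, hx, hw⟩ := hi
  exact ⟨_, S.smul g i x hx, S.wd_smul hg hw⟩

theorem mg_conj {K : Set I} {g : G} (hg : ∀ i ∈ K, g • i ∈ K) {n : G} (hn : n ∈ Mg R K) :
    g * n * g⁻¹ ∈ Mg R K := by
  induction hn using Subgroup.closure_induction with
  | mem x hx =>
    obtain ⟨i, hi, hx⟩ := hx
    exact rot_mg (hg i hi) (S.conj g i x hx)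
  | one => simp
  | mul x y _ _ hx hy => simpa [mul_assoc] using (Mg R K).mul_mem hx hy
  | inv x _ hx => simpa [mul_assoc] using (Mg R K).inv_mem hx

theorem nx_smul {K : Set I} {g : G} (hg : ∀ i ∈ K, g • i ∈ K) : ∀ i ∈ nx T R K, g • i ∈ nx T R K := by
  rintro i ⟨n, hn, j, hj, rfl⟩
  exact ⟨_, S.mg_conj (fun i hi => S.jn_smul hg hi) hn, _, S.jn_smul hg hj, by simp [mul_smul]⟩

omit S in
theorem jn_sub_nx {K : Set I} : Jn T K ⊆ nx T R K := fun i hi =>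
  ⟨1, one_mem _, i, hi, (one_smul _ _).symm⟩

theorem mg_nx {K : Set I} : Mg R (nx T R K) = Mg R (Jn T K) := by
  refine le_antisymm ((Subgroup.closure_le _).2 ?_) (mg_mono jn_sub_nx)
  rintro h ⟨i, ⟨n, hn, j, hj, rfl⟩, hh⟩
  have h1 := S.conj n⁻¹ _ h hh
  rw [inv_smul_smul] at h1
  have := mul_mem (mul_mem hn (rot_mg hj h1)) (inv_mem hn)
  simpa [mul_assoc] using this

variable {K : Set I} (hK : Mill P T R K)
include hK

theorem conv_sub {L : Set I} (h1 : K ⊆ L) (h2 : L ⊆ Jn T K) : P.Conv (Wd T L) := by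
  rintro x ⟨i, hi, hx⟩ y ⟨j, hj, hy⟩ w hw
  obtain ⟨a, ha, ha'⟩ := h2 hi
  obtain ⟨b, hb, hb'⟩ := h2 hj
  rcases P.thin a hw with e | e
  · exact ⟨i, hi, S.conv i x hx a ha w e⟩
  rcases P.thin b e with e | e
  · obtain ⟨k, hk, hw⟩ := hK.conv a ha' b hb' w e
    exact ⟨k, h1 hk, hw⟩
  · exact ⟨j, hj, S.conv j b hb y hy w e⟩

theorem conv_jn : P.Conv (Wd T (Jn T K)) := S.conv_sub hK S.sub_jn le_rfl

omit hK in
theorem wd_vx {i : I} (hi : i ∉ K) {x : V} (hx : x ∈ Wd T K) : x ∈ Vx T K i := by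
  obtain ⟨j, hj, hx⟩ := hx
  exact ⟨j, S.sub_jn hj, fun e => hi (e ▸ hj), hx⟩

theorem conv_vx {i : I} (hi : i ∉ K) : P.Conv (Vx T K i) := by
  have := S.conv_sub hK (L := {j | j ∈ Jn T K ∧ j ≠ i})
    (fun j hj => ⟨S.sub_jn hj, fun e => hi (e ▸ hj)⟩) (fun j hj => hj.1)
  rintro x ⟨a, a1, a2, a3⟩ y ⟨b, b1, b2, b3⟩ w hw
  obtain ⟨c, c1, c2⟩ := this x ⟨a, ⟨a1, a2⟩, a3⟩ y ⟨b, ⟨b1, b2⟩, b3⟩ w hw
  exact ⟨c, c1.1, c1.2, c2⟩

theorem wd_ne : (Wd T K).Nonempty := by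
  obtain ⟨i, hi⟩ := hK.ne
  obtain ⟨x, hx⟩ := S.ne i
  exact ⟨x, i, hi, hx⟩

theorem gate_jn {j : I} (hj : j ∈ Jn T K) {x p : V} (hx : x ∈ T j) (hp : P.IsGate (Wd T K) x p) :
    p ∈ T j := by
  obtain ⟨a, ha, ha'⟩ := hj
  exact hp.mem (S.conv j) hx ha' ha

theorem pc_gate {i : I} (hi : i ∈ Jn T K) {x : V} (hx : x ∈ T i) (hv : x ∈ Vx T K i) :
    ∃ p ∈ Wd T K, Pc T i x p := by
  obtain ⟨p, hp⟩ := PT.exists_gate hK.conv (S.wd_ne hK) x
  obtain ⟨j, hj, hji, hxj⟩ := hv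
  exact ⟨p, hp.1, hx, S.gate_jn hK hi hx hp, Or.inr ⟨j, hji, hxj, S.gate_jn hK hj hxj hp⟩⟩

theorem sep {i : I} (hi : i ∈ Jn T K) (hn : i ∉ K) {h : G} (hh : h ∈ R i) (h1 : h ≠ 1) {y : V}
    (hy : y ∈ T i) (hv : y ∈ Vx T K i) : h • y ∉ Vx T K i := by
  intro hv'
  obtain ⟨p, hp, c1⟩ := S.pc_gate hK hi hy hv
  obtain ⟨p', hp', c2⟩ := S.pc_gate hK hi (S.rot_mem hh hy) hv'
  refine (S.loc i h hh h1 y p p' (h • y) c1 (hK.two i hn p p' c1.2.1 c2.2.1 hp hp') ?_).1 rfl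
  refine ⟨c2.2.1, c2.1, ?_⟩
  rcases c2.2.2 with e | ⟨j, a, b, c⟩
  · exact Or.inl e.symm
  · exact Or.inr ⟨j, a, c, b⟩

theorem om_of_mem {i : I} (hi : i ∈ Jn T K) (hn : i ∉ K) {x : V} (hx : x ∈ Vx T K i) :
    Om P T K i x := by
  obtain ⟨p, hp⟩ := PT.exists_gate (S.conv i) (S.ne i) x
  obtain ⟨a, ha, ha'⟩ := hi
  exact ⟨p, hp, hp.mem (S.conv_vx hK hn) hx ha (S.wd_vx hn ha')⟩

theorem om_of_gate {i : I} (hi : i ∈ Jn T K) (hn : i ∉ K) {x r : V}
    (hr : P.IsGate (Wd T (Jn T K)) x r) (hx : r ∈ Vx T K i) : Om P T K i x := by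
  obtain ⟨p, hp, hv⟩ := S.om_of_mem hK hi hn hx
  exact ⟨p, hr.trans hp fun u hu => ⟨i, hi, hu⟩, hv⟩

theorem exists_gate_jn (x : V) : ∃ r, P.IsGate (Wd T (Jn T K)) x r := by
  obtain ⟨a, i, hi, ha⟩ := S.wd_ne hK
  exact PT.exists_gate (S.conv_jn hK) ⟨a, i, S.sub_jn hi, ha⟩ x

theorem gate_not_om {i : I} (hi : i ∈ Jn T K) (hn : i ∉ K) {x r : V}
    (hr : P.IsGate (Wd T (Jn T K)) x r) (hx : ¬ Om P T K i x) : r ∈ T i ∧ r ∉ Vx T K i := by
  have h1 : r ∉ Vx T K i := fun h => hx (S.om_of_gate hK hi hn hr h)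
  obtain ⟨j, hj, hrj⟩ := hr.1
  by_cases e : j = i
  · exact ⟨e ▸ hrj, h1⟩
  · exact (h1 ⟨j, hj, e, hrj⟩).elim

theorem om_other {i i' : I} (hi : i ∈ Jn T K) (hn : i ∉ K) (hi' : i' ∈ Jn T K) (hn' : i' ∉ K)
    (hne : i' ≠ i) {x : V} (hx : ¬ Om P T K i' x) : Om P T K i x := by
  obtain ⟨r, hr⟩ := S.exists_gate_jn hK x
  exact S.om_of_gate hK hi hn hr ⟨i', hi', hne, (S.gate_not_om hK hi' hn' hr hx).1⟩

theorem not_om_rot {i : I} (hi : i ∈ Jn T K) (hn : i ∉ K) {h : G} (hh : h ∈ R i) (h1 : h ≠ 1)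
    {x : V} (hx : Om P T K i x) : ¬ Om P T K i (h • x) := by
  obtain ⟨p, hp, hv⟩ := hx
  rintro ⟨q, hq, hv'⟩
  have := S.gate_smul h hp
  rw [S.fix i h hh] at this
  exact S.sep hK hi hn hh h1 hp.1 hv (this.unique hq ▸ hv')

theorem nf_smul {g : G} (hg : g ∈ Mg R K) {o : Option I} {n : G} (h : NF T R K o n) :
    NF T R K (o.map (g • ·)) (g * n) := by
  induction h with
  | base n hn => exact NF.base _ (mul_mem hg hn)
  | cons i h n o hi hn hh h1 ho _ ih =>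
    have e : g * (h * n) = (g * h * g⁻¹) * (g * n) := by group
    rw [e]
    refine NF.cons _ _ _ _ (S.jn_smul (hK.inv g hg) hi) (fun h' => hn ?_) (S.conj g i h hh)
      (by simpa using h1) (fun e => ho ?_) ih
    · simpa using hK.inv _ (inv_mem hg) _ h'
    · cases o with
      | none => simp at e
      | some j => simpa using e

theorem exists_nf {n : G} (hn : n ∈ Mg R (Jn T K)) : ∃ o, NF T R K o n := by
  have key : ∀ (i : I) (h : G), i ∈ Jn T K → h ∈ R i → ∀ n, (∃ o, NF T R K o n) →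
      ∃ o, NF T R K o (h * n) := by
    rintro i h hi hh n ⟨o, ho⟩
    by_cases hk : i ∈ K
    · exact ⟨_, S.nf_smul hK (rot_mg hk hh) ho⟩
    by_cases h1 : h = 1
    · exact ⟨o, by simpa [h1] using ho⟩
    by_cases e : o = some i
    · cases ho with
      | base => simp at e
      | cons i' h' n' o' hi' hn' hh' h1' ho' hnf =>
        obtain rfl : i' = i := by simpa using e
        by_cases h2 : h * h' = 1
        · exact ⟨o', by rw [← mul_assoc, h2, one_mul]; exact hnf⟩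
        · exact ⟨_, by
            rw [← mul_assoc]
            exact NF.cons _ _ _ _ hi hk (mul_mem hh hh') h2 ho' hnf⟩
    · exact ⟨_, NF.cons _ _ _ _ hi hk hh h1 e ho⟩
  induction hn using Subgroup.closure_induction_left with
  | one => exact ⟨none, NF.base _ (one_mem _)⟩
  | mul_left x hx y _ ih =>
    obtain ⟨i, hi, hh⟩ := hx
    exact key i x hi hh y ih
  | inv_mul_cancel x hx y _ ih =>
    obtain ⟨i, hi, hh⟩ := hx
    exact key i x⁻¹ hi (inv_mem hh) y ih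

theorem pp {o : Option I} {n : G} (h : NF T R K o n) {x : V} (hx : x ∈ Wd T (Jn T K)) :
    ∀ i, i ∈ Jn T K → i ∉ K → o ≠ some i → Om P T K i (n • x) ∨ n • x ∈ T i := by
  induction h with
  | base n hn =>
    intro i hi hk _
    obtain ⟨j, hj, hxj⟩ := S.wd_smul (fun i hi => S.jn_smul (hK.inv n hn) hi) hx
    by_cases e : j = i
    · exact Or.inr (e ▸ hxj)
    · exact Or.inl (S.om_of_mem hK hi hk ⟨j, hj, e, hxj⟩)
  | cons i' h n o hi' hn' hh h1 ho _ ih =>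
    intro i hi hk hne
    have e : i' ≠ i := fun e => hne (by rw [e])
    left
    rw [mul_smul]
    rcases ih i' hi' hn' ho with a | a
    · exact S.om_other hK hi hk hi' hn' e (S.not_om_rot hK hi' hn' hh h1 a)
    · exact S.om_of_mem hK hi hk ⟨i', hi', e, S.rot_mem hh a⟩

theorem pp' {o : Option I} {n : G} (h : NF T R K o n) {x : V} (hx : x ∈ Wd T K) :
    ∀ i, i ∈ Jn T K → i ∉ K → o ≠ some i → Om P T K i (n • x) := by
  induction h with
  | base n hn =>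
    intro i hi hk _
    exact S.om_of_mem hK hi hk (S.wd_vx hk (S.wd_smul (hK.inv n hn) hx))
  | cons i' h n o hi' hn' hh h1 ho _ ih =>
    intro i hi hk hne
    have e : i' ≠ i := fun e => hne (by rw [e])
    rw [mul_smul]
    exact S.om_other hK hi hk hi' hn' e (S.not_om_rot hK hi' hn' hh h1 (ih i' hi' hn' ho))

theorem back {o : Option I} {n : G} (h : NF T R K o n) {x : V} (hx : x ∈ Wd T K) {j : I}
    (hj : j ∈ Jn T K) (hm : n • x ∈ T j) (ho : o ≠ some j) : n ∈ Mg R K := by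
  cases h with
  | base n hn => exact hn
  | cons i h n o hi hn hh h1 ho' hnf =>
    have := S.not_om_rot hK hi hn hh h1 (S.pp' hK hnf hx i hi hn ho')
    rw [← mul_smul] at this
    exact (this (S.om_of_mem hK hi hn ⟨j, hj, fun e => ho (by rw [e]), hm⟩)).elim

omit S hK in
theorem nf_some {j : I} {n : G} (h : NF T R K (some j) n) : j ∉ K ∧ j ∈ Jn T K ∧
    ∃ h n' o, h ∈ R j ∧ h ≠ 1 ∧ o ≠ some j ∧ NF T R K o n' ∧ n = h * n' := by
  generalize e : some j = o at h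
  cases h with
  | base => simp at e
  | cons i h n o hi hn hh h1 ho hnf =>
    obtain rfl : j = i := by simpa using e
    exact ⟨hn, hi, h, n, o, hh, h1, ho, hnf, rfl⟩

theorem disj {n : G} (hn : n ∈ Mg R (Jn T K)) {x : V} (hx : x ∈ Wd T K) (hm : n • x ∈ Wd T K) :
    n ∈ Mg R K := by
  obtain ⟨o, ho⟩ := S.exists_nf hK hn
  obtain ⟨j, hj, hm⟩ := hm
  refine S.back hK ho hx (S.sub_jn hj) hm ?_
  rintro rfl
  exact (nf_some ho).1 hj

theorem fold {n : G} (hn : n ∈ Mg R (Jn T K)) {x : V} (hx : x ∈ Wd T K) {j : I}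
    (hj : j ∈ Jn T K) (hm : n • x ∈ T j) : ∃ h ∈ R j, h • n • x ∈ Wd T K := by
  obtain ⟨o, ho⟩ := S.exists_nf hK hn
  by_cases e : o = some j
  · subst e
    obtain ⟨-, -, h, n, o, hh, h1, ho', hnf, rfl⟩ := nf_some ho
    have e : h⁻¹ • (h * n) • x = n • x := by simp [mul_smul]
    refine ⟨h⁻¹, inv_mem hh, ?_⟩
    have h2 := S.rot_mem (inv_mem hh) hm
    rw [e] at h2 ⊢
    exact S.wd_smul (hK.inv n (S.back hK hnf hx hj h2 ho')) hx
  · exact ⟨1, one_mem _, by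
      rw [one_smul]
      exact S.wd_smul (hK.inv n (S.back hK ho hx hj hm e)) hx⟩

theorem conv_nx : P.Conv (Wd T (nx T R K)) := by
  have sub : ∀ n ∈ Mg R (Jn T K), ∀ x ∈ Wd T (nx T R K), n • x ∈ Wd T (nx T R K) := by
    rintro n hn x ⟨i, ⟨n', hn', j, hj, rfl⟩, hx⟩
    exact ⟨_, ⟨n * n', mul_mem hn hn', j, hj, (mul_smul _ _ _).symm⟩, S.smul n _ x hx⟩
  have base : ∀ x ∈ Wd T (Jn T K), x ∈ Wd T (nx T R K) := fun x ⟨i, hi, hx⟩ =>
    ⟨i, jn_sub_nx hi, hx⟩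
  have key : ∀ n ∈ Mg R (Jn T K), ∀ x ∈ Wd T (Jn T K), ∀ y ∈ Wd T (Jn T K), ∀ w,
      P.B x w (n • y) → w ∈ Wd T (nx T R K) := by
    have step : ∀ (i : I) (h n : G), i ∈ Jn T K → h ∈ R i →
        (∀ x ∈ Wd T (Jn T K), ∀ y ∈ Wd T (Jn T K), ∀ w, P.B x w (n • y) →
          w ∈ Wd T (nx T R K)) →
        ∀ x ∈ Wd T (Jn T K), ∀ y ∈ Wd T (Jn T K), ∀ w, P.B x w ((h * n) • y) →
          w ∈ Wd T (nx T R K) := by
      intro i h n hi hh ih x hx y hy w hw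
      obtain ⟨a, ha⟩ := S.ne i
      rcases P.thin (h • a) hw with e | e
      · exact base _ (S.conv_jn hK x hx _ ⟨i, hi, S.rot_mem hh ha⟩ w e)
      · have e2 := S.inv h⁻¹ _ _ _ e
        simp only [mul_smul, inv_smul_smul] at e2
        simpa using sub h (rot_mg hi hh) _ (ih a ⟨i, hi, ha⟩ y hy _ e2)
    intro n hn
    induction hn using Subgroup.closure_induction_left with
    | one =>
      intro x hx y hy w hw
      exact base _ (S.conv_jn hK x hx y hy w (by simpa using hw))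
    | mul_left x hx y _ ih =>
      obtain ⟨i, hi, hh⟩ := hx
      exact step i x y hi hh ih
    | inv_mul_cancel x hx y _ ih =>
      obtain ⟨i, hi, hh⟩ := hx
      exact step i x⁻¹ y hi (inv_mem hh) ih
  rintro x ⟨i, ⟨n, hn, j, hj, rfl⟩, hx⟩ y ⟨i', ⟨n', hn', j', hj', rfl⟩, hy⟩ w hw
  have hx' : n⁻¹ • x ∈ T j := by simpa using S.smul n⁻¹ _ _ hx
  have hy' : n'⁻¹ • y ∈ T j' := by simpa using S.smul n'⁻¹ _ _ hy
  have := key (n⁻¹ * n') (mul_mem (inv_mem hn) hn') _ ⟨j, hj, hx'⟩ _ ⟨j', hj', hy'⟩ (n⁻¹ • w)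
    (by simpa [mul_smul] using S.inv n⁻¹ _ _ _ hw)
  simpa using sub n hn _ this

theorem two_base {j : I} (hj : j ∉ Jn T K) {x y : V} (hx : x ∈ T j) (hy : y ∈ T j)
    (hx' : x ∈ Wd T (Jn T K)) (hy' : y ∈ Wd T (Jn T K)) : Two P T j x y := by
  obtain ⟨a, ha, hxa⟩ := hx'
  obtain ⟨b, hb, hyb⟩ := hy'
  have na : a ≠ j := fun e => hj (e ▸ ha)
  have nb : b ≠ j := fun e => hj (e ▸ hb)
  obtain ⟨p, hp⟩ := PT.exists_gate hK.conv (S.wd_ne hK) x
  have hpj : p ∉ T j := fun h => hj ⟨p, h, hp.1⟩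
  have hp' := hp.same (S.conv j) hx hy hpj
  have pa := S.gate_jn hK ha hxa hp
  have pb := S.gate_jn hK hb hyb hp'
  obtain ⟨q, q1, q2, q3⟩ := PT.median (P := P) x y p
  have qj := S.conv j x hx y hy q q1
  have qa := S.conv a p pa x hxa q q2
  have qb := S.conv b p pb y hyb q q3
  by_cases e1 : x = q
  · exact Or.inl ⟨hx, hy, Or.inr ⟨b, nb, e1 ▸ qb, hyb⟩⟩
  by_cases e2 : y = q
  · exact Or.inl ⟨hx, hy, Or.inr ⟨a, na, hxa, e2 ▸ qa⟩⟩
  exact Or.inr ⟨q, hx, qj, hy, e1, e2, q1, a, b, p, na, nb, hxa, qa, pa, hyb, qb, pb,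
    fun e => hpj (e ▸ qj), P.symm q2, P.symm q3⟩

theorem side {i j : I} (hi : i ∈ Jn T K) (hj : j ∉ Jn T K) {x y a : V}
    (hx : x ∈ T j) (hy : y ∈ T j) (hv : x ∈ Vx T K i)
    (ha : P.IsGate (T i) x a) (hb : P.B x a y) :
    ∃ p q i', p ∈ Wd T K ∧ i' ∈ Jn T K ∧ i' ≠ i ∧ p ∈ T i ∧ q ∈ T i ∧ p ∈ T i' ∧ q ∈ T i' ∧
      x ∈ T i' ∧ q ∈ T j ∧ p ≠ q ∧ P.B x q y ∧ P.B p q x ∧ P.B p q y ∧ P.B a q y := by
  obtain ⟨i', hi', hne, hxi'⟩ := hv
  obtain ⟨p, hp⟩ := PT.exists_gate hK.conv (S.wd_ne hK) x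
  have hpj : p ∉ T j := fun h => hj ⟨p, h, hp.1⟩
  have aj := S.conv j x hx y hy a hb
  have pi' := S.gate_jn hK hi' hxi' hp
  have pi := S.gate_jn hK hi ha.1 (hp.same (S.conv j) hx aj hpj)
  obtain ⟨q, q1, q2, q3⟩ := PT.median (P := P) x y p
  have qj := S.conv j x hx y hy q q1
  have b1 := ha.2 p pi
  have aq : P.B x a q := by
    rcases PT.lin hb q1 with e | e
    · exact e
    · rcases P.thin q b1 with e' | e'
      · exact e'
      · rcases P.thin p (PT.tr4 hb e) with e3 | e3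
        · have : a = q := by
            rcases P.thin q (P.symm hb) with e4 | e4
            · have e5 := PT.tr4 q3 (P.symm e')
              exact P.anti e4 (P.symm e5)
            · exact P.anti (P.symm e4) e
          rw [this]
          exact PT.right _ _
        · have e5 := PT.tr4 q3 (P.symm e')
          rw [P.anti (P.symm (PT.tr4 hb e)) (P.symm e5)]
          exact PT.right _ _
  have qi : q ∈ T i := S.conv i a ha.1 p pi q (PT.tr4 (P.symm q2) aq)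
  exact ⟨p, q, i', hp.1, hi', hne, pi, qi, pi', S.conv i' p pi' x hxi' q q2, hxi', qj,
    fun e => hpj (e ▸ qj), q1, q2, q3, PT.tr4 q1 aq⟩

theorem two_nx {o : Option I} {n : G} (h : NF T R K o n) : ∀ j, j ∉ nx T R K → ∀ x y,
    x ∈ T j → n • y ∈ T j → x ∈ Wd T (Jn T K) → y ∈ Wd T (Jn T K) → Two P T j x (n • y) := by
  induction h with
  | base n hn =>
    intro j hj x y hx hy hx' hy'
    exact S.two_base hK (fun h => hj (jn_sub_nx h)) hx hy hx'
      (S.wd_smul (fun i hi => S.jn_smul (hK.inv n hn) hi) hy')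
  | cons i h n o hi hn hh h1 ho hnf ih =>
    intro j hj x y hx hy hx' hy'
    have hj1 : j ∉ Jn T K := fun h => hj (jn_sub_nx h)
    have hj2 : h⁻¹ • j ∉ nx T R K := by
      rintro ⟨n', hn', j', hj', e⟩
      refine hj ⟨h * n', mul_mem (rot_mg hi hh) hn', j', hj', ?_⟩
      rw [mul_smul, ← e, smul_inv_smul]
    have hj3 : h⁻¹ • j ∉ Jn T K := fun h => hj2 (jn_sub_nx h)
    rw [mul_smul] at hy ⊢
    have hy2 : n • y ∈ T (h⁻¹ • j) := by simpa using S.smul h⁻¹ _ _ hy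
    have hx2 : h⁻¹ • x ∈ T (h⁻¹ • j) := S.smul h⁻¹ _ _ hx
    by_cases hxi : x ∈ T i
    · have := S.two_smul h (ih _ hj2 _ y hx2 hy2 ⟨i, hi, S.rot_mem (inv_mem hh) hxi⟩ hy')
      simpa using this
    by_cases hyi : n • y ∈ T i
    · exact S.two_base hK hj1 hx hy hx' ⟨i, hi, S.rot_mem hh hyi⟩
    exfalso
    have xv : x ∈ Vx T K i := by
      obtain ⟨a, ha, hxa⟩ := hx'
      exact ⟨a, ha, fun e => hxi (e ▸ hxa), hxa⟩
    obtain ⟨a, ha, av⟩ := S.om_of_mem hK hi hn xv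
    obtain ⟨b, hb, bv⟩ := (S.pp hK hnf hy' i hi hn ho).resolve_right hyi
    have hb' := S.gate_smul h hb
    rw [S.fix i h hh] at hb'
    have ab : a ≠ h • b := fun e => S.sep hK hi hn hh h1 hb.1 bv (e ▸ av)
    have B1 := ha.btw hb' ab
    have B2 : P.B (n • y) b (h⁻¹ • x) := by
      simpa using S.inv h⁻¹ _ _ _ (hb'.btw ha ab.symm)
    obtain ⟨r, hr⟩ := S.exists_gate_jn hK (n • y)
    have bj := S.conv _ _ hy2 _ hx2 b B2
    have rb := hr.2 b ⟨i, hi, hb.1⟩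
    have rj := S.conv _ _ hy2 _ bj r rb
    have rr : r ∈ Vx T K i ∧ r ∉ T i := by
      have same : n • y ∈ Wd T (Jn T K) → r ∈ Vx T K i ∧ r ∉ T i := by
        intro hm
        have e : r = n • y := P.anti (hr.2 _ hm) (P.left _ _)
        obtain ⟨c, hc, hm⟩ := hm
        exact e ▸ ⟨⟨c, hc, fun e => hyi (e ▸ hm), hm⟩, hyi⟩
      cases o with
      | none =>
        cases hnf with
        | base n hn' => exact same (S.wd_smul (fun i hi => S.jn_smul (hK.inv _ hn') hi) hy')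
      | some i2 =>
        obtain ⟨n2, m2, h2, n', o', hh2, h21, ho2, hnf2, rfl⟩ := nf_some hnf
        have e : i2 ≠ i := fun e => ho (by rw [e])
        rw [mul_smul] at *
        rcases S.pp hK hnf2 hy' i2 m2 n2 ho2 with c | c
        · obtain ⟨c1, c2⟩ := S.gate_not_om hK m2 n2 hr (S.not_om_rot hK m2 n2 hh2 h21 c)
          exact ⟨⟨i2, m2, e, c1⟩, fun c3 => c2 ⟨i, hi, e.symm, c3⟩⟩
        · exact same ⟨i2, m2, S.rot_mem hh2 c⟩
    have rg : P.IsGate (T i) r b := ⟨hb.1, fun u hu => PT.tr4 (hb.2 u hu) rb⟩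
    obtain ⟨p, q, i1, pw, m1, n1, pi, qi, p1, q1, x1, qj, pq, c1, c2, c3, c4⟩ :=
      S.side hK hi hj1 hx hy xv ha B1
    obtain ⟨p', q', i2, pw', m2, n2, pi', qi', p2, q2, r2, qj', pq', d1, d2, d3, d4⟩ :=
      S.side hK hi hj3 rj hx2 rr.1 rg (PT.tr4 B2 rb)
    have hq' : h • q' ∉ Vx T K i := S.sep hK hi hn hh h1 qi' ⟨i2, m2, n2, q2⟩
    have qv : q ∈ Vx T K i := ⟨i1, m1, n1, q1⟩
    have nq : h • q' ≠ q := fun e => hq' (e ▸ qv)
    have ji : j ≠ i := fun e => hj1 (e ▸ hi)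
    have d1' : P.B (h • r) (h • q') x := by simpa using S.inv h _ _ _ d1
    have d3' : P.B (h • p') (h • q') x := by simpa using S.inv h _ _ _ d3
    have ry : P.B (h • n • y) (h • r) x := by simpa using S.inv h _ _ _ (PT.tr3 B2 rb)
    have e1 : P.B x (h • q') (h • n • y) := P.symm (PT.tr2 ry d1')
    have e2 : P.B x q (h • q') := by
      refine (PT.lin c1 e1).resolve_right fun e => hq' ?_
      exact S.conv_vx hK hn x xv q qv _ e
    have e3 : P.B q (h • q') (h • n • y) := PT.tr4 e1 e2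
    have qj2 : h • q' ∈ T j := by simpa using S.smul h _ _ qj'
    have rj2 : h • r ∈ T j := by simpa using S.smul h _ _ rj
    have n3 : h • i2 ≠ i := fun e => n2 (by
      have := congrArg (h⁻¹ • ·) e
      simpa [S.fix i _ (inv_mem hh)] using this)
    refine (S.loc i h hh h1 q' p' p q ⟨qi', pi', Or.inr ⟨i2, n2, q2, p2⟩⟩
      (hK.two i hn p' p pi' pi pw' pw) ⟨pi, qi, Or.inr ⟨i1, n1, p1, q1⟩⟩).2 ⟨?_, ?_⟩
    · exact ⟨pi, qi, S.rot_mem hh qi', pq, nq, PT.tr1 c3 e3, i1, j, x, n1, ji, p1, q1, x1, qj2, qj,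
        hx, fun e => hxi (e ▸ qi), c2, P.symm e2⟩
    · refine ⟨qi, S.rot_mem hh qi', S.rot_mem hh pi', nq.symm, by simpa using pq',
        PT.tr4 (P.symm d3') e2, j, h • i2, h • r, ji, n3, qj, qj2, rj2, S.smul h _ _ p2,
        S.smul h _ _ q2, S.smul h _ _ r2, fun e => rr.2 ?_, PT.tr4 (P.symm d1') e2,
        S.inv h _ _ _ d2⟩
      have : r = q' := by simpa using e
      exact this ▸ qi'

theorem mill_nx : Mill P T R (nx T R K) := by
  refine ⟨?_, ?_, S.conv_nx hK, ?_⟩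
  · obtain ⟨i, hi⟩ := hK.ne
    exact ⟨i, jn_sub_nx (S.sub_jn hi)⟩
  · rintro n hn i ⟨n', hn', j, hj, rfl⟩
    rw [S.mg_nx] at hn
    exact ⟨n * n', mul_mem hn hn', j, hj, (mul_smul _ _ _).symm⟩
  · rintro j hj x y hx hy ⟨i, ⟨n, hn, a, ha, rfl⟩, hxa⟩ ⟨i', ⟨n', hn', b, hb, rfl⟩, hyb⟩
    have hx' : n⁻¹ • x ∈ T a := by simpa using S.smul n⁻¹ _ _ hxa
    have hy' : n'⁻¹ • y ∈ T b := by simpa using S.smul n'⁻¹ _ _ hyb
    obtain ⟨o, ho⟩ := S.exists_nf hK (mul_mem (inv_mem hn) hn')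
    have hj2 : n⁻¹ • j ∉ nx T R K := by
      rintro ⟨n2, hn2, j', hj', e⟩
      refine hj ⟨n * n2, mul_mem hn hn2, j', hj', ?_⟩
      rw [mul_smul, ← e, smul_inv_smul]
    have := S.two_smul n (S.two_nx hK ho _ hj2 (n⁻¹ • x) (n'⁻¹ • y) (S.smul _ _ _ hx)
      (by simpa [mul_smul] using S.smul n⁻¹ _ _ hy) ⟨a, ha, hx'⟩ ⟨b, hb, hy'⟩)
    simpa [mul_smul] using this

omit hK

theorem mill_zero (i0 : I) : Mill P T R {i0} := by
  refine ⟨⟨i0, rfl⟩, ?_, ?_, ?_⟩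
  · rintro n hn i rfl
    induction hn using Subgroup.closure_induction with
    | mem x hx =>
      obtain ⟨j, rfl, hx⟩ := hx
      exact S.fix _ x hx
    | one => simp
    | mul x y _ _ hx hy =>
      have hx' : x • i = i := hx
      have hy' : y • i = i := hy
      simp [mul_smul, hx', hy']
    | inv x _ hx =>
      have hx' : x • i = i := hx
      simp [inv_smul_eq_iff, hx']
  · rintro x ⟨i, rfl, hx⟩ y ⟨j, rfl, hy⟩ w hw
    exact ⟨_, rfl, S.conv _ x hx y hy w hw⟩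
  · rintro j hj x y hx hy ⟨a, rfl, ha⟩ ⟨b, rfl, hb⟩
    exact Or.inl ⟨hx, hy, Or.inr ⟨_, fun e => hj e.symm, ha, hb⟩⟩

theorem mill_iter (i0 : I) (k : ℕ) : Mill P T R ((nx T R)^[k] {i0}) := by
  induction k with
  | zero => exact S.mill_zero i0
  | succ k ih =>
    rw [Function.iterate_succ_apply']
    exact S.mill_nx ih

theorem iter_mono (i0 : I) {k l : ℕ} (h : k ≤ l) : (nx T R)^[k] {i0} ⊆ (nx T R)^[l] {i0} := by
  induction h with
  | refl => exact le_rfl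
  | step _ ih =>
    rw [Function.iterate_succ_apply']
    exact ih.trans (S.sub_jn.trans jn_sub_nx)

theorem iter_smul (i0 : I) {g : G} (hg : g • i0 = i0) (k : ℕ) :
    ∀ i ∈ (nx T R)^[k] {i0}, g • i ∈ (nx T R)^[k] {i0} := by
  induction k with
  | zero =>
    rintro i rfl
    exact hg
  | succ k ih =>
    rw [Function.iterate_succ_apply']
    exact S.nx_smul ih

/-- The lowest part of a cone is small. -/
theorem main (i0 : I) (hall : ∀ i, ∃ k, i ∈ (nx T R)^[k] {i0}) (i : I)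
    (hi : ∀ n ∈ Mg R Set.univ, n • i ≠ i0) :
    ∃ x ∈ T i, ∀ g : G, g • i0 = i0 → ∀ n ∈ Mg R Set.univ, n • g • x ∈ T i →
      ∃ h ∈ R i, Two P T i x (h • n • g • x) := by
  classical
  have ex : ∃ k, ∃ x ∈ T i, ∃ n ∈ Mg R Set.univ, n • x ∈ Wd T ((nx T R)^[k] {i0}) := by
    obtain ⟨k, hk⟩ := hall i
    obtain ⟨x, hx⟩ := S.ne i
    exact ⟨k, x, hx, 1, one_mem _, i, hk, by simpa using hx⟩
  obtain ⟨x, hx, n0, hn0, hw⟩ := Nat.find_spec ex
  have hmin := fun k => Nat.find_min ex (m := k)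
  generalize Nat.find ex = k at hw hmin
  have cj : ∀ (g : G) {n : G}, n ∈ Mg R Set.univ → g * n * g⁻¹ ∈ Mg R Set.univ := fun g n hn =>
    S.mg_conj (K := Set.univ) (fun _ _ => Set.mem_univ _) hn
  have hx0 := S.smul n0 i x hx
  have hj : n0 • i ∈ Jn T ((nx T R)^[k] {i0}) := ⟨_, hx0, hw⟩
  have hk : n0 • i ∉ (nx T R)^[k] {i0} := by
    cases k with
    | zero => exact hi n0 hn0
    | succ k =>
      rw [Function.iterate_succ_apply']
      rintro ⟨n, hn, j, ⟨a, ha, ha'⟩, e⟩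
      refine hmin k (by omega) ⟨n0⁻¹ • n • a, ?_, n⁻¹ * n0,
        mul_mem (inv_mem (mg_mono (Set.subset_univ _) hn)) hn0, by simpa [mul_smul] using ha'⟩
      have := S.smul n0⁻¹ _ _ (S.smul n j a ha)
      rwa [← e, inv_smul_smul] at this
  refine ⟨x, hx, fun g hg n hn hy => ?_⟩
  have hw2 : g • n0 • x ∈ Wd T ((nx T R)^[k] {i0}) := S.wd_smul (S.iter_smul i0 hg k) hw
  have hm : n0 * n * (g * n0⁻¹ * g⁻¹) ∈ Mg R Set.univ :=
    mul_mem (mul_mem hn0 hn) (cj g (inv_mem hn0))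
  have hy2 : (n0 * n * (g * n0⁻¹ * g⁻¹)) • g • n0 • x ∈ T (n0 • i) := by
    simpa [mul_smul] using S.smul n0 _ _ hy
  have lev : ∀ n ∈ Mg R Set.univ, ∃ l, n ∈ Mg R ((nx T R)^[l] {i0}) := by
    intro n hn
    induction hn using Subgroup.closure_induction with
    | mem x hx =>
      obtain ⟨j, -, hx⟩ := hx
      obtain ⟨l, hl⟩ := hall j
      exact ⟨l, rot_mg hl hx⟩
    | one => exact ⟨0, one_mem _⟩
    | mul x y _ _ hx hy =>
      obtain ⟨a, ha⟩ := hx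
      obtain ⟨b, hb⟩ := hy
      exact ⟨max a b, mul_mem (mg_mono (S.iter_mono i0 (le_max_left _ _)) ha)
        (mg_mono (S.iter_mono i0 (le_max_right _ _)) hb)⟩
    | inv x _ hx =>
      obtain ⟨a, ha⟩ := hx
      exact ⟨a, inv_mem ha⟩
  generalize e : n0 * n * (g * n0⁻¹ * g⁻¹) = n2 at hm hy2
  have down : ∀ l, n2 ∈ Mg R ((nx T R)^[k + 1 + l] {i0}) → n2 ∈ Mg R ((nx T R)^[k + 1] {i0}) := by
    intro l
    induction l with
    | zero => exact id
    | succ l ih =>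
      intro h
      rw [← add_assoc, Function.iterate_succ_apply', S.mg_nx] at h
      obtain ⟨a, ha, ha'⟩ := hw2
      refine ih (S.disj (S.mill_iter i0 _) h ⟨a, S.iter_mono i0 (by omega) ha, ha'⟩
        ⟨_, S.iter_mono i0 (k := k + 1) (by omega) ?_, hy2⟩)
      rw [Function.iterate_succ_apply']
      exact jn_sub_nx hj
  obtain ⟨l, hl⟩ := lev n2 hm
  have h2 := down l (mg_mono (S.iter_mono i0 (by omega)) hl)
  rw [Function.iterate_succ_apply', S.mg_nx] at h2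
  obtain ⟨h, hh, hw3⟩ := S.fold (S.mill_iter i0 k) h2 hw2 hj hy2
  have t2 := S.two_smul n0⁻¹ ((S.mill_iter i0 k).two _ hk _ _ hx0 (S.rot_mem hh hy2) hw hw3)
  have hh2 := S.conj n0⁻¹ _ h hh
  rw [inv_smul_smul] at hh2
  refine ⟨_, hh2, ?_⟩
  subst e
  simpa [mul_smul] using t2

end Sys

end Pool.Agent.Lib.MP_6d85b4_al
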