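import Mathlib
import Pool.Agent.Lib.MP_6d85b4_al.Wind
import Pool.Agent.Lib.MP_6d85b4_al.Amalg

set_option autoImplicit false
set_option linter.unusedSectionVars false

namespace Pool.Agent.Lib.MP_6d85b4_al

open Monoid Monoid.PushoutI SimpleGraph

/-- The betweenness relation of a tree. -/
def treePT {V : Type} (Γ : SimpleGraph V) (hc : Γ.Preconnected) (ha : Γ.IsAcyclic) : PT V where
  B x w y := ∀ p : Γ.Walk x y, w ∈ p.support
  left x y p := p.start_mem_support
  symm h p := by simpa using h p.reverse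
  thin z h := by
    by_contra hh
    push Not at hh
    obtain ⟨⟨p, hp⟩, q, hq⟩ := hh
    rcases (Walk.mem_support_append_iff p q).1 (h _) with e | e
    · exact hp e
    · exact hq e
  anti {x w y} h1 h2 := by
    classical
    by_contra hne
    obtain ⟨p, hp⟩ := (hc x w).exists_walk_length_eq_dist
    have a := Walk.length_takeUntil_lt_length (h2 p) (Ne.symm hne)
    have b := Walk.length_takeUntil_le_length _ (h1 (p.takeUntil y (h2 p)))
    have c := Γ.dist_le ((p.takeUntil y (h2 p)).takeUntil w (h1 _))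
    omega
  gate U hU hne x := by
    classical
    have ex : ∃ n, ∃ p ∈ U, ∃ q : Γ.Walk x p, q.length = n := by
      obtain ⟨u, hu⟩ := hne
      obtain ⟨q⟩ := hc x u
      exact ⟨_, u, hu, q, rfl⟩
    obtain ⟨p, hp, q, hq⟩ := Nat.find_spec ex
    refine ⟨p, hp, fun u hu r => ?_⟩
    let t := (q.reverse.append r).bypass
    have ht : t.IsPath := Walk.bypass_isPath _
    have tU : ∀ w ∈ t.support, w ∈ U := fun w hw => hU p hp u hu w fun s => by
      have := (ha.subsingleton_path _ _).elim ⟨t, ht⟩ s.toPath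
      rw [show t = s.toPath.1 from congrArg Subtype.val this] at hw
      exact s.support_toPath_subset_support hw
    have h2 : (q.bypass.append t).IsPath := by
      rw [Walk.isPath_def, Walk.support_append, List.nodup_append]
      refine ⟨(Walk.bypass_isPath q).support_nodup, ht.support_nodup.sublist (List.tail_sublist _),
        fun a h1 b h2 e => ?_⟩
      subst e
      have h3 := q.support_bypass_subset_support h1
      have h4 : a = p := by
        by_contra h4
        exact Nat.find_min ex (hq ▸ Walk.length_takeUntil_lt_length h3 h4)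
          ⟨a, tU a (List.mem_of_mem_tail h2), _, rfl⟩
      have h5 := ht.support_nodup
      rw [← t.cons_tail_support, List.nodup_cons] at h5
      exact h5.1 (h4 ▸ h2)
    have := (ha.subsingleton_path _ _).elim ⟨_, h2⟩ r.toPath
    apply r.support_toPath_subset_support
    rw [← show q.bypass.append t = r.toPath.1 from congrArg Subtype.val this]
    simp

section Push

variable {G : Bool → Type} {H : Type} [∀ b, Group (G b)] [Group H] {φ : ∀ b, H →* G b}

/-- alternation of types -/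
def Alt (b : Bool) (l : List Bool) (b' : Bool) : Prop := List.IsChain (· ≠ ·) (b :: (l ++ [b']))

theorem alt_nil {b b' : Bool} : Alt b [] b' ↔ b ≠ b' := by simp [Alt]

theorem alt_cons {b c b' : Bool} {l : List Bool} : Alt b (c :: l) b' ↔ b ≠ c ∧ Alt c l b' := by
  simp [Alt]

theorem Alt.chain {b b' : Bool} {l : List Bool} (h : Alt b l b') : List.IsChain (· ≠ ·) (b :: l) :=
  List.IsChain.left_of_append (l₁ := b :: l) h

theorem lp_nil : lp φ [] = 1 := by simp [lp]

theorem lp_cons (l : Σ b, G b) (L : List (Σ b, G b)) :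
    lp φ (l :: L) = PushoutI.of l.1 l.2 * lp φ L := by simp [lp]

theorem red_iff {L : List (Σ b, G b)} : Red φ L ↔
    (∀ l ∈ L, l.2 ∉ (φ l.1).range) ∧ (L.map Sigma.fst).IsChain (· ≠ ·) := by
  rw [Red, List.isChain_map]

theorem red_base {L : List (Σ b, G b)} (hL : Red φ L) (h : H) : ∃ h' L', Red φ L' ∧
    L'.map Sigma.fst = L.map Sigma.fst ∧ lp φ L * base φ h = base φ h' * lp φ L' := by
  induction L with
  | nil => exact ⟨h, [], hL, rfl, by simp [lp]⟩
  | cons l L ih =>
    obtain ⟨h', L', r, e1, e2⟩ := ih ⟨fun l hl => hL.1 l (List.mem_cons_of_mem _ hl), hL.2.tail⟩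
    refine ⟨1, ⟨l.1, l.2 * φ l.1 h'⟩ :: L', ?_, by simp [e1], ?_⟩
    · rw [red_iff] at *
      refine ⟨fun a ha => ?_, by simpa [e1] using hL.2⟩
      rcases List.mem_cons.1 ha with rfl | ha
      · intro hr
        refine hL.1 l List.mem_cons_self ?_
        simpa using mul_mem hr (inv_mem (MonoidHom.mem_range.2 ⟨h', rfl⟩ : φ l.1 h' ∈ _))
      · exact r.1 a ha
    · rw [lp_cons, lp_cons, mul_assoc, e2, map_mul, of_apply_eq_base]
      simp [mul_assoc]

theorem nf0 (hφ : ∀ b, Function.Injective (φ b)) {b b' : Bool} {L L' : List (Σ b, G b)}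
    (h1 : ∀ l ∈ L, l.2 ∉ (φ l.1).range) (h2 : ∀ l ∈ L', l.2 ∉ (φ l.1).range)
    (a1 : Alt b (L.map Sigma.fst) b') (a2 : Alt b (L'.map Sigma.fst) b') {α : G b} {β : G b'}
    (e : PushoutI.of b α * lp φ L' = lp φ L * PushoutI.of b' β) :
    α ∈ (φ b).range ∧ L.length = L'.length := by
  have r1 : Red φ L := red_iff.2 ⟨h1, a1.chain.tail⟩
  have r2 : Red φ L' := red_iff.2 ⟨h2, a2.chain.tail⟩
  obtain ⟨h, K, r3, e1, e2⟩ : ∃ h K, Red φ K ∧ lp φ L * PushoutI.of b' β = base φ h * lp φ K ∧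
      (K.map Sigma.fst = L.map Sigma.fst ∨ K.map Sigma.fst = L.map Sigma.fst ++ [b']) := by
    by_cases hβ : β ∈ (φ b').range
    · obtain ⟨h, rfl⟩ := hβ
      obtain ⟨h', K, r, c1, c2⟩ := red_base r1 h
      exact ⟨h', K, r, by rw [of_apply_eq_base, c2], Or.inl c1⟩
    · refine ⟨1, L ++ [⟨b', β⟩], red_iff.2 ⟨fun l hl => ?_, by simpa using List.IsChain.tail a1⟩,
        by simp [lp], Or.inr (by simp)⟩
      rcases List.mem_append.1 hl with hl | hl
      · exact h1 l hl
      · rw [List.mem_singleton.1 hl]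
        exact hβ
  by_cases hα : α ∈ (φ b).range
  · refine ⟨hα, ?_⟩
    obtain ⟨h', rfl⟩ := hα
    rw [of_apply_eq_base, e1] at e
    have := idx_eq hφ r2 r3 e
    rcases e2 with e2 | e2
    · simpa using congrArg List.length (e2.symm.trans this.symm)
    · rw [this, e2, Alt, List.append_assoc, ← List.cons_append, List.isChain_append] at a2
      simp at a2
  · have r4 : Red φ (⟨b, α⟩ :: L') := red_iff.2 ⟨fun l hl => by
      rcases List.mem_cons.1 hl with rfl | hl
      · exact hα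
      · exact h2 l hl, a2.chain⟩
    have := idx_eq hφ r4 r3 (h := 1) (h' := h) (by rw [← e1, ← e, lp_cons]; simp)
    rcases e2 with e2 | e2
    · rw [← e2, ← this] at a1
      simp [alt_cons] at a1
    · rw [Alt, ← e2, ← this] at a1
      simp at a1

theorem nf1 (hφ : ∀ b, Function.Injective (φ b)) {b : Bool} {L : List (Σ b, G b)}
    (h1 : ∀ l ∈ L, l.2 ∉ (φ l.1).range) (a1 : Alt b (L.map Sigma.fst) b) (α : G b) :
    lp φ L ≠ PushoutI.of b α := by
  intro e
  have r1 : Red φ L := red_iff.2 ⟨h1, a1.chain.tail⟩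
  by_cases hα : α ∈ (φ b).range
  · obtain ⟨h', rfl⟩ := hα
    have := idx_eq hφ r1 (L' := []) ⟨by simp, by simp⟩ (h := 1) (h' := h') (by
      rw [e, of_apply_eq_base]; simp [lp])
    rw [this] at a1
    simp [alt_nil] at a1
  · have := idx_eq hφ r1 (L' := [⟨b, α⟩]) ⟨by simpa using hα, by simp⟩ (h := 1) (h' := 1) (by
      rw [e]; simp [lp])
    rw [this] at a1
    simp [alt_cons] at a1

variable (φ) in
/-- vertices of the Bass-Serre tree -/
abbrev Vt : Type := Σ b : Bool, PushoutI φ ⧸ (PushoutI.of (φ := φ) b).range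

/-- the vertex of type `b` of an edge -/
def vx (b : Bool) (a : PushoutI φ) : Vt φ := ⟨b, (a : PushoutI φ ⧸ (PushoutI.of (φ := φ) b).range)⟩

theorem smul_vx (g : PushoutI φ) (b : Bool) (a : PushoutI φ) : g • vx b a = vx b (g * a) := rfl

theorem vx_fst (b : Bool) (a : PushoutI φ) : (vx b a).1 = b := rfl

theorem smul_fst (g : PushoutI φ) (x : Vt φ) : (g • x).1 = x.1 := rfl

theorem vx_eq {b : Bool} {a a' : PushoutI φ} :
    vx b a = vx b a' ↔ ∃ γ, a' = a * PushoutI.of b γ := by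
  rw [vx, vx, Sigma.mk.inj_iff, heq_eq_eq, QuotientGroup.eq]
  simp only [true_and, MonoidHom.mem_range, eq_inv_mul_iff_mul_eq, eq_comm (a := a')]

theorem vx_of (b : Bool) (a : PushoutI φ) (γ : G b) : vx b (a * PushoutI.of b γ) = vx b a :=
  (vx_eq.2 ⟨γ, rfl⟩).symm

theorem vx_base (b : Bool) (a : PushoutI φ) (h : H) : vx b (a * base φ h) = vx b a := by
  rw [← of_apply_eq_base φ b, vx_of]

theorem exists_vx (x : Vt φ) : ∃ a, x = vx x.1 a := by
  obtain ⟨b, q⟩ := x
  obtain ⟨a, rfl⟩ := QuotientGroup.mk_surjective q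
  exact ⟨a, rfl⟩

variable (φ) in
/-- the Bass-Serre tree -/
def bs : SimpleGraph (Vt φ) where
  Adj x y := x.1 ≠ y.1 ∧ ∃ a, x = vx x.1 a ∧ y = vx y.1 a
  symm := ⟨fun _ _ ⟨h, a, h1, h2⟩ => ⟨h.symm, a, h2, h1⟩⟩
  loopless := ⟨fun _ h => h.1 rfl⟩

theorem bs_path {x y : Vt φ} (p : (bs φ).Walk x y) (hp : p.IsPath) (hn : ¬ p.Nil) :
    ∃ a L, (∀ l ∈ L, l.2 ∉ (φ l.1).range) ∧ Alt x.1 (L.map Sigma.fst) y.1 ∧ x = vx x.1 a ∧
      p.snd = vx (!x.1) a ∧ y = vx y.1 (a * lp φ L) ∧ L.length + 1 = p.length := by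
  induction p with
  | nil => simp at hn
  | @cons x x' y h p ih =>
    obtain ⟨h0, a, h1, h2⟩ := h
    have hx : x'.1 = !x.1 := Bool.eq_not.2 h0.symm
    by_cases hnil : p.Nil
    · cases hnil
      exact ⟨a, [], by simp, alt_nil.2 h0, h1, (Walk.snd_cons _ _).trans (hx ▸ h2),
        by simpa [lp] using h2, rfl⟩
    · obtain ⟨a', L, r, al, e1, e2, e3, e4⟩ := ih hp.of_cons hnil
      obtain ⟨γ, rfl⟩ := vx_eq.1 (h2.symm.trans e1)
      refine ⟨a, ⟨x'.1, γ⟩ :: L, fun l hl => ?_, alt_cons.2 ⟨h0, al⟩, h1,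
        (Walk.snd_cons _ _).trans (hx ▸ h2), by rw [lp_cons, ← mul_assoc]; exact e3, by simp [e4]⟩
      rcases List.mem_cons.1 hl with rfl | hl
      · rintro ⟨h, hh⟩
        have hh' : φ x'.1 h = γ := hh
        rw [← hh', of_apply_eq_base, vx_base, hx, Bool.not_not, ← h1] at e2
        exact ((Walk.cons_isPath_iff _ _).1 hp).2 (e2 ▸ p.getVert_mem_support 1)
      · exact r l hl

theorem bs_acyclic (hφ : ∀ b, Function.Injective (φ b)) : (bs φ).IsAcyclic := by
  intro x c hc
  have h3 := hc.three_le_length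
  cases c with
  | nil => simp at h3
  | @cons _ x' _ h p =>
    rw [Walk.length_cons] at h3
    obtain ⟨a', L, r, al, e1, -, e3, e4⟩ := bs_path p ((Walk.cons_isCycle_iff _ _).1 hc).1
      (by rw [Walk.not_nil_iff_lt_length]; omega)
    obtain ⟨h0, a, h1, h2⟩ := h
    obtain ⟨γ, rfl⟩ := vx_eq.1 (h2.symm.trans e1)
    obtain ⟨δ, e⟩ := vx_eq.1 (h1.symm.trans e3)
    have := (nf0 hφ (L := []) (by simp) r (alt_nil.2 h0.symm) al (α := γ) (β := δ) (by
      rw [mul_assoc, mul_left_cancel_iff] at e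
      rw [e, lp_nil, one_mul])).2
    simp at this
    omega

/-- joined by a walk inside a set -/
def Rch (U : Set (Vt φ)) (x y : Vt φ) : Prop := ∃ p : (bs φ).Walk x y, ∀ z ∈ p.support, z ∈ U

theorem Rch.trans {U : Set (Vt φ)} {x y z : Vt φ} (h : Rch U x y) (h' : Rch U y z) : Rch U x z := by
  obtain ⟨p, hp⟩ := h
  obtain ⟨q, hq⟩ := h'
  refine ⟨p.append q, fun w hw => ?_⟩
  rcases (Walk.mem_support_append_iff p q).1 hw with e | e
  · exact hp w e
  · exact hq w e

theorem rch_edge {U : Set (Vt φ)} {a : PushoutI φ} (h : ∀ b, vx b a ∈ U) (b b' : Bool) :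
    Rch U (vx b a) (vx b' a) := by
  by_cases e : b = b'
  · subst e
    exact ⟨Walk.nil, by simpa using h b⟩
  · exact ⟨Walk.cons (v := vx b' a) ⟨e, a, rfl, rfl⟩ Walk.nil, by simp [h]⟩

theorem push_ind {p : PushoutI φ → Prop} (h1 : p 1)
    (h2 : ∀ a b γ, p a → p (a * PushoutI.of b γ)) (a : PushoutI φ) : p a := by
  have : ∀ a0, p a0 → p (a0 * a) := by
    induction a using PushoutI.induction_on with
    | of b γ => exact fun a0 => h2 a0 b γ
    | base h => exact fun a0 h0 => of_apply_eq_base φ true h ▸ h2 a0 true _ h0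
    | mul x y hx hy => exact fun a0 h0 => mul_assoc a0 x y ▸ hy _ (hx _ h0)
  simpa using this 1 h1

theorem bs_conn : (bs φ).Preconnected := by
  have : ∀ (a : PushoutI φ) b, Rch Set.univ (vx true 1) (vx b a) := by
    intro a
    induction a using push_ind with
    | h1 => exact rch_edge (by simp) true
    | h2 a c γ ih => exact fun b => (vx_of c a γ ▸ ih c).trans (rch_edge (by simp) c b)
  intro x y
  obtain ⟨a, ha⟩ := exists_vx x
  obtain ⟨a', ha'⟩ := exists_vx y
  obtain ⟨p, -⟩ := this a x.1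
  obtain ⟨q, -⟩ := this a' y.1
  rw [ha, ha']
  exact ⟨p.reverse.append q⟩

/-- betweenness in the Bass-Serre tree -/
def bsPT (hφ : ∀ b, Function.Injective (φ b)) : PT (Vt φ) := treePT (bs φ) bs_conn (bs_acyclic hφ)

theorem bs_inv (hφ : ∀ b, Function.Injective (φ b)) (g : PushoutI φ) (x w y : Vt φ)
    (h : (bsPT hφ).B x w y) : (bsPT hφ).B (g • x) (g • w) (g • y) := by
  intro p
  let f : bs φ →g bs φ := ⟨fun z => g⁻¹ • z, fun {a b} ⟨h0, c, h1, h2⟩ =>
    ⟨h0, g⁻¹ * c, by rw [h1]; rfl, by rw [h2]; rfl⟩⟩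
  have := h ((p.map f).copy (inv_smul_smul g x) (inv_smul_smul g y))
  rw [Walk.support_copy, Walk.support_map, List.mem_map] at this
  obtain ⟨z, hz, rfl⟩ := this
  simpa [f] using hz

theorem bs_conv (hφ : ∀ b, Function.Injective (φ b)) {U : Set (Vt φ)}
    (h : ∀ x ∈ U, ∀ y ∈ U, Rch U x y) : (bsPT hφ).Conv U := by
  intro x hx y hy w hw
  obtain ⟨p, hp⟩ := h x hx y hy
  exact hp w (hw p)

end Push

end Pool.Agent.Lib.MP_6d85b4_al
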