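import Mathlib
import Pool.Agent.Lib.MP_6d85b4_al.Tree
import Pool.Agent.Lib.MP_6d85b4_al.Loc
import Pool.Agent.Lib.MP_6d85b4_al.Blk

set_option autoImplicit false
set_option linter.unusedSectionVars false

namespace Pool.Agent.Lib.MP_6d85b4_al

open Monoid Monoid.PushoutI

/-- the word given by a list of syllables -/
def wd (L : List (Bool × ℤ)) : FreeGroup Bool := (L.map fun l => FreeGroup.of l.1 ^ l.2).prod

theorem wd_nil : wd [] = 1 := rfl

theorem wd_cons (l : Bool × ℤ) (L : List (Bool × ℤ)) :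
    wd (l :: L) = FreeGroup.of l.1 ^ l.2 * wd L := by simp [wd]

/-- reduced lists of syllables between two types -/
def Rd (b : Bool) (L : List (Bool × ℤ)) (b' : Bool) : Prop :=
  (∀ l ∈ L, l.2 ≠ 0) ∧ Alt b (L.map Prod.fst) b'

theorem rd_nil {b b' : Bool} : Rd b [] b' ↔ b ≠ b' := by simp [Rd, alt_nil]

theorem rd_cons {b b' : Bool} {l : Bool × ℤ} {L : List (Bool × ℤ)} :
    Rd b (l :: L) b' ↔ l.2 ≠ 0 ∧ b ≠ l.1 ∧ Rd l.1 L b' := by
  simp only [Rd, List.map_cons, alt_cons, List.forall_mem_cons]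
  tauto

theorem free_nf (u : FreeGroup Bool) (b b' : Bool) : (b = b' ∧ ∃ k : ℤ, u = FreeGroup.of b ^ k) ∨
    ∃ (k : ℤ) (L : List (Bool × ℤ)) (k' : ℤ),
      u = FreeGroup.of b ^ k * wd L * FreeGroup.of b' ^ k' ∧ Rd b L b' := by
  have step : ∀ (c : Bool) (e : ℤ) (u : FreeGroup Bool),
      (∀ b, (b = b' ∧ ∃ k : ℤ, u = FreeGroup.of b ^ k) ∨ ∃ (k : ℤ) (L : List (Bool × ℤ)) (k' : ℤ),
        u = FreeGroup.of b ^ k * wd L * FreeGroup.of b' ^ k' ∧ Rd b L b') →
      ∀ b, (b = b' ∧ ∃ k : ℤ, FreeGroup.of c ^ e * u = FreeGroup.of b ^ k) ∨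
        ∃ (k : ℤ) (L : List (Bool × ℤ)) (k' : ℤ), FreeGroup.of c ^ e * u =
          FreeGroup.of b ^ k * wd L * FreeGroup.of b' ^ k' ∧ Rd b L b' := by
    intro c e u h b
    rcases h c with ⟨rfl, k, rfl⟩ | ⟨k, L, k', rfl, r⟩
    · by_cases hb : b = c
      · exact Or.inl ⟨hb, e + k, by rw [hb, zpow_add]⟩
      · exact Or.inr ⟨0, [], e + k, by simp [wd_nil, zpow_add], rd_nil.2 hb⟩
    · by_cases hb : b = c
      · exact Or.inr ⟨e + k, L, k', by rw [hb, zpow_add]; simp only [mul_assoc], hb ▸ r⟩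
      by_cases h0 : e + k = 0
      · have e1 : FreeGroup.of c ^ e * (FreeGroup.of c ^ k * wd L * FreeGroup.of b' ^ k') =
            wd L * FreeGroup.of b' ^ k' := by
          rw [← mul_assoc, ← mul_assoc, ← zpow_add, h0, zpow_zero, one_mul]
        rw [e1]
        cases L with
        | nil =>
          have : b = b' := by
            have := rd_nil.1 r
            revert hb this
            cases b <;> cases b' <;> cases c <;> simp
          exact Or.inl ⟨this, k', by simp [wd_nil, this]⟩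
        | cons l L =>
          obtain ⟨-, r1, r2⟩ := rd_cons.1 r
          have : b = l.1 := by
            revert hb r1
            cases b <;> cases l.1 <;> cases c <;> simp
          exact Or.inr ⟨l.2, L, k', by rw [wd_cons, this], this ▸ r2⟩
      · exact Or.inr ⟨0, (c, e + k) :: L, k', by simp [wd_cons, zpow_add, mul_assoc],
          rd_cons.2 ⟨h0, hb, r⟩⟩
  induction u using free_ind generalizing b with
  | h1 =>
    by_cases hb : b = b'
    · exact Or.inl ⟨hb, 0, rfl⟩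
    · exact Or.inr ⟨0, [], 0, by simp [wd_nil], rd_nil.2 hb⟩
  | h2 c w ih => simpa using step c 1 w ih b
  | h3 c w ih => simpa using step c (-1) w ih b

/-- the syllables of a list -/
def EL (L : List (Bool × ℤ)) (b : Bool) (k : ℤ) : Prop := (b, k) ∈ L

theorem wd_mem (L : List (Bool × ℤ)) : wd L ∈ PW (EL L) :=
  Subgroup.list_prod_mem _ fun x hx => by
    obtain ⟨l, hl, rfl⟩ := List.mem_map.1 hx
    exact Subgroup.subset_closure ⟨l.1, l.2, hl, rfl⟩

variable {B : Type} [Fintype B] [DecidableEq B] (M : CoxeterMatrix B) (s : Bool ↪ B)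

/-- the other generators -/
def TH : Set B := {u | ∀ b, u ≠ s b}

/-- the generators commuting with the two chosen ones -/
def TC : Set B := {u | u ∈ TH s ∧ ∀ b, M (s b) u = 2}

/-- vertex groups -/
def GG (b : Bool) : Subgroup (Art M) := par M {u | u ≠ s (!b)}

/-- inclusion of the edge group -/
def inc (b : Bool) : par M (TH s) →* GG M s b := Subgroup.inclusion (par_mono fun _ h => h _)

/-- the amalgam -/
abbrev Ah : Type := PushoutI (G := fun b => GG M s b) (inc M s)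

/-- the chosen generators -/
def yy (b : Bool) : GG M s b :=
  ⟨gen M (s b), gen_mem (T := {u | u ≠ s (!b)}) fun e => by simpa using s.injective e⟩

/-- the free subgroup -/
def ph : FreeGroup Bool →* Ah M s :=
  FreeGroup.lift fun b => PushoutI.of (G := fun b => GG M s b) b (yy M s b)

variable {M s}

theorem inc_inj (b : Bool) : Function.Injective (inc M s b) := Subgroup.inclusion_injective _

theorem s_not (b : Bool) : s b ∉ TH s := fun h => h b rfl

theorem ph_pow (b : Bool) (k : ℤ) : ph M s (FreeGroup.of b ^ k) =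
    PushoutI.of (G := fun b => GG M s b) b (yy M s b ^ k) := by
  rw [map_zpow, map_zpow, ph, FreeGroup.lift_apply_of]

theorem ph_wd (L : List (Bool × ℤ)) : ph M s (wd L) =
    lp (G := fun b => GG M s b) (inc M s) (L.map fun l => ⟨l.1, yy M s l.1 ^ l.2⟩) := by
  induction L with
  | nil => simp [wd_nil, lp]
  | cons l L ih => rw [wd_cons, map_mul, ih, List.map_cons, lp_cons, ph_pow]

theorem rd_red {b b' : Bool} {L : List (Bool × ℤ)} (h : Rd b L b') :
    (∀ l ∈ (L.map fun l => ⟨l.1, yy M s l.1 ^ l.2⟩ : List (Σ b, GG M s b)),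
      l.2 ∉ (inc M s l.1).range) ∧
    Alt b ((L.map fun l => ⟨l.1, yy M s l.1 ^ l.2⟩ : List (Σ b, GG M s b)).map Sigma.fst) b' := by
  refine ⟨fun x hx => ?_, by rw [List.map_map]; exact h.2⟩
  obtain ⟨l, hl, rfl⟩ := List.mem_map.1 hx
  rintro ⟨g, hg⟩
  have e : (g : Art M) = gen M (s l.1) ^ l.2 := congrArg Subtype.val hg
  have := (flat (M := M) (s_not l.1) (one_mem _) (i := l.2) (j := 0) (by simpa using e ▸ g.2)).2.1
  exact h.1 l hl (by simpa using this)

theorem comm_syl {g : par M (TH s)} {b : Bool} {k : ℤ} (h : Commute g.1 (gen M (s b) ^ k)) :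
    Commute (base (inc M s) g) (ph M s (FreeGroup.of b ^ k)) := by
  rw [ph_pow, ← of_apply_eq_base (G := fun b => GG M s b) _ b]
  exact Commute.map (Subtype.ext h.eq) _

theorem comm_wd {g : par M (TH s)} {L : List (Bool × ℤ)}
    (h : ∀ l ∈ L, Commute g.1 (gen M (s l.1) ^ l.2)) :
    Commute (base (inc M s) g) (ph M s (wd L)) := by
  induction L with
  | nil => simp [wd_nil]
  | cons l L ih =>
    rw [wd_cons, map_mul]
    exact (comm_syl (h l List.mem_cons_self)).mul_right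
      (ih fun l hl => h l (List.mem_cons_of_mem _ hl))

theorem comm_ph {g : par M (TH s)} (h : g.1 ∈ par M (TC M s)) (u : FreeGroup Bool) :
    Commute (base (inc M s) g) (ph M s u) := by
  have : ∀ b, Commute (base (inc M s) g) (ph M s (FreeGroup.of b)) := fun b => by
    simpa using comm_syl (g := g) (b := b) (k := 1) (by
      simpa using (comm_perp (T := TH s) (par_mono (T := TC M s) (fun t ht => And.intro ht.1 (ht.2 b)) h)).symm)
  induction u using free_ind with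
  | h1 => simp
  | h2 b w ih => rw [map_mul]; exact (this b).mul_right ih
  | h3 b w ih => rw [map_mul, map_inv]; exact (this b).inv_right.mul_right ih

theorem vx_ph {c : Bool} {a : Ah M s} {u u' : FreeGroup Bool}
    (h : vx (G := fun b => GG M s b) c (a * ph M s u) = vx c (a * ph M s u')) :
    ∃ k : ℤ, u' = u * FreeGroup.of c ^ k := by
  obtain ⟨γ, e⟩ := vx_eq.1 h
  rcases free_nf (u⁻¹ * u') c c with ⟨-, k, hk⟩ | ⟨k, L, k', hk, r⟩
  · exact ⟨k, by rw [← hk, mul_inv_cancel_left]⟩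
  · refine (nf1 inc_inj (rd_red r).1 (rd_red r).2
      ((yy M s c ^ k)⁻¹ * γ * (yy M s c ^ k')⁻¹) ?_).elim
    have e2 : wd L = (FreeGroup.of c ^ k)⁻¹ * (u⁻¹ * u') * (FreeGroup.of c ^ k')⁻¹ := by
      rw [hk]
      group
    rw [mul_assoc, mul_left_cancel_iff] at e
    rw [← ph_wd, e2]
    simp only [map_mul, map_inv, ph_pow, e, inv_mul_cancel_left]

theorem vx_pow (c : Bool) (a : Ah M s) (u : FreeGroup Bool) (k : ℤ) :
    vx (G := fun b => GG M s b) c (a * ph M s (u * FreeGroup.of c ^ k)) = vx c (a * ph M s u) := by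
  rw [map_mul, ph_pow, ← mul_assoc, vx_of]

theorem nfu {b b' : Bool} {L L' : List (Bool × ℤ)} (r : Rd b L b') (r' : Rd b L' b')
    {α : GG M s b} {β : GG M s b'}
    (e : PushoutI.of (G := fun b => GG M s b) b α * ph M s (wd L') =
      ph M s (wd L) * PushoutI.of (G := fun b => GG M s b) b' β) :
    ∃ g : par M (TH s), α = inc M s b g ∧ L = L' ∧
      ∀ l ∈ L, Commute g.1 (gen M (s l.1) ^ l.2) := by
  induction L generalizing b L' with
  | nil =>
    obtain ⟨⟨g, hg⟩, h⟩ := nf0 inc_inj (rd_red r).1 (rd_red r').1 (rd_red r).2 (rd_red r').2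
      (by simpa only [ph_wd] using e)
    exact ⟨g, hg.symm, (List.length_eq_zero_iff.1 (by simpa using h.symm)).symm, by simp⟩
  | cons l L ih =>
    obtain ⟨⟨g, rfl⟩, h⟩ := nf0 inc_inj (rd_red r).1 (rd_red r').1 (rd_red r).2 (rd_red r').2
      (by simpa only [ph_wd] using e)
    cases L' with
    | nil => simp at h
    | cons l' L' =>
      obtain ⟨c, k⟩ := l
      obtain ⟨c', k'⟩ := l'
      obtain ⟨-, r1, r2⟩ := rd_cons.1 r
      obtain ⟨-, r1', r2'⟩ := rd_cons.1 r'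
      obtain rfl : c = c' := by
        revert r1 r1'
        cases b <;> cases c <;> cases c' <;> simp
      obtain ⟨g2, e1, e2, e3⟩ := ih r2 r2' (α := (yy M s c ^ k)⁻¹ * inc M s c g * yy M s c ^ k') (by
        rw [wd_cons, wd_cons, map_mul, map_mul, ph_pow, ph_pow, of_apply_eq_base, mul_assoc,
          ← inv_mul_eq_iff_eq_mul] at e
        rw [← e, map_mul, map_mul, map_inv, of_apply_eq_base]
        simp only [mul_assoc])
      have e4 : gen M (s c) ^ (-k) * (g.1 * gen M (s c) ^ k') = g2.1 := by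
        rw [zpow_neg, ← mul_assoc]
        exact congrArg Subtype.val e1
      obtain ⟨f1, f2, -⟩ := flat (s_not c) g.2 (e4 ▸ g2.2)
      obtain rfl : k = k' := by omega
      obtain rfl : g = g2 := Subtype.ext (f1.symm.trans e4)
      refine ⟨g, rfl, by rw [e2], fun l hl => ?_⟩
      rcases List.mem_cons.1 hl with rfl | hl
      · rw [zpow_neg, inv_mul_eq_iff_eq_mul] at f1
        exact f1
      · exact e3 l hl

variable (M s) in
/-- the vertices -/
abbrev VV : Type := Vt (G := fun b => GG M s b) (inc M s)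

/-- geodesics in translates of the free subtree -/
def Geo (x y : VV M s) (a : Ah M s) (L : List (Bool × ℤ)) : Prop :=
  x = vx x.1 a ∧ y = vx y.1 (a * ph M s (wd L)) ∧ Rd x.1 L y.1

theorem geo_uniq {x y : VV M s} {a a' : Ah M s} {L L' : List (Bool × ℤ)} (h : Geo x y a L)
    (h' : Geo x y a' L') : ∃ g : par M (TH s), a' = a * base (inc M s) g ∧
      ∀ l ∈ L, Commute g.1 (gen M (s l.1) ^ l.2) := by
  obtain ⟨α, rfl⟩ := vx_eq.1 (h.1.symm.trans h'.1)
  obtain ⟨β, e⟩ := vx_eq.1 (h.2.1.symm.trans h'.2.1)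
  rw [mul_assoc, mul_assoc, mul_left_cancel_iff] at e
  obtain ⟨g, rfl, -, c⟩ := nfu h.2.2 h'.2.2 e
  exact ⟨g, by rw [of_apply_eq_base], c⟩

variable (M s) in
/-- the stabiliser of the free subtree -/
def S0 : Subgroup (Ah M s) where
  carrier := {a | ∃ u, ∃ g : par M (TH s), g.1 ∈ par M (TC M s) ∧ a = ph M s u * base (inc M s) g}
  one_mem' := ⟨1, 1, one_mem _, by simp⟩
  mul_mem' := by
    rintro _ _ ⟨u, g, hg, rfl⟩ ⟨u', g', hg', rfl⟩
    refine ⟨u * u', g * g', mul_mem hg hg', ?_⟩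
    rw [map_mul, map_mul, mul_assoc, mul_assoc, ← mul_assoc (base _ g), (comm_ph hg u').eq,
      mul_assoc]
  inv_mem' := by
    rintro _ ⟨u, g, hg, rfl⟩
    exact ⟨u⁻¹, g⁻¹, inv_mem hg, by rw [← (comm_ph hg u).eq, mul_inv_rev, map_inv, map_inv]⟩

variable (M s) in
/-- the cones -/
abbrev II : Type := Ah M s ⧸ S0 M s

theorem ii_eq {a a' : Ah M s} : (a : II M s) = a' ↔
    ∃ u, ∃ g : par M (TH s), g.1 ∈ par M (TC M s) ∧ a' = a * (ph M s u * base (inc M s) g) := by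
  rw [QuotientGroup.eq]
  simp only [← inv_mul_eq_iff_eq_mul (a := a)]
  rfl

theorem ii_ph (a : Ah M s) (u : FreeGroup Bool) : ((a * ph M s u : Ah M s) : II M s) = a :=
  (ii_eq.2 ⟨u, 1, one_mem _, by simp⟩).symm

variable (M s) in
/-- the subtrees -/
def TT (i : II M s) : Set (VV M s) := {x | ∃ a : Ah M s, (a : II M s) = i ∧ x = vx x.1 a}

theorem mem_TT {a : Ah M s} {x : VV M s} : x ∈ TT M s a ↔ ∃ u, x = vx x.1 (a * ph M s u) := by
  constructor
  · rintro ⟨a', e, h⟩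
    obtain ⟨u, g, -, rfl⟩ := ii_eq.1 e.symm
    exact ⟨u, by rwa [← mul_assoc, vx_base] at h⟩
  · rintro ⟨u, h⟩
    exact ⟨_, ii_ph a u, h⟩

theorem exists_geo {a : Ah M s} {x y : VV M s} (hx : x ∈ TT M s a) (hy : y ∈ TT M s a)
    (h : x ≠ y) : ∃ u L, Geo x y (a * ph M s u) L := by
  obtain ⟨u, hu⟩ := mem_TT.1 hx
  obtain ⟨u', hu'⟩ := mem_TT.1 hy
  rcases free_nf (u⁻¹ * u') x.1 y.1 with ⟨e, k, hk⟩ | ⟨k, L, k', hk, r⟩
  · rw [inv_mul_eq_iff_eq_mul] at hk
    rw [hk, ← e, vx_pow, ← hu] at hu'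
    exact (h hu'.symm).elim
  · rw [inv_mul_eq_iff_eq_mul, ← mul_assoc, ← mul_assoc] at hk
    refine ⟨u * FreeGroup.of x.1 ^ k, L, by rwa [vx_pow], ?_, r⟩
    rwa [hk, vx_pow, map_mul, ← mul_assoc] at hu'

theorem piece {a : Ah M s} {x y : VV M s} {L : List (Bool × ℤ)} (h : Geo x y a L) (hn : x ≠ y)
    {j : II M s} (hj : j ≠ a) (hx : x ∈ TT M s j) (hy : y ∈ TT M s j) :
    ∃ g : par M (TH s), g.1 ∉ par M (TC M s) ∧ j = (a * base (inc M s) g : Ah M s) ∧
      ∀ l ∈ L, Commute g.1 (gen M (s l.1) ^ l.2) := by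
  obtain ⟨a', rfl⟩ := QuotientGroup.mk_surjective j
  obtain ⟨u, L', h'⟩ := exists_geo hx hy hn
  obtain ⟨g, e, c⟩ := geo_uniq h h'
  refine ⟨g, fun hg => hj ?_, by rw [← e, ii_ph], c⟩
  rw [← ii_ph a' u, e]
  exact (ii_eq.2 ⟨1, g, hg, by simp⟩).symm

theorem od_perp {T : Set B} {g : Art M} (hg : g ∈ par M T) {c : Bool} (hc : s c ∉ T)
    {L : List (Bool × ℤ)} (h : ∀ l ∈ L, Commute g (gen M (s l.1) ^ l.2)) (ho : Od (EL L) c) :
    g ∈ par M {t | t ∈ T ∧ M (s c) t = 2} := by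
  obtain ⟨k, hk, hl⟩ := ho
  refine (flat hc hg (i := k) (j := -k) ?_).2.2 hk
  rw [← mul_assoc, ← (h _ hl).eq]
  simpa using hg

theorem perp_tc {g : Art M} {c : Bool} (hg : g ∈ par M {t | t ∈ TH s ∧ M (s c) t = 2})
    {L : List (Bool × ℤ)} (h : ∀ l ∈ L, Commute g (gen M (s l.1) ^ l.2)) (ho : Od (EL L) (!c)) :
    g ∈ par M (TC M s) :=
  par_mono (T := {t | t ∈ {t | t ∈ TH s ∧ M (s c) t = 2} ∧ M (s (!c)) t = 2})
    (fun t ht => And.intro ht.1.1 fun b => by
      by_cases e : b = c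
      · exact e ▸ ht.1.2
      · exact Bool.eq_not.2 e ▸ ht.2) (od_perp hg (fun h => s_not _ h.1) h ho)

/-- segments joined by a piece, in coordinates -/
def Seg (a : Ah M s) (x y : VV M s) (u : FreeGroup Bool) (L : List (Bool × ℤ)) : Prop :=
  x = vx x.1 (a * ph M s u) ∧ y = vx y.1 (a * ph M s (u * wd L)) ∧
    ¬ (Od (EL L) true ∧ Od (EL L) false) ∧ (x = y → L = []) ∧ (x ≠ y → Rd x.1 L y.1)

theorem Seg.geo {a : Ah M s} {x y : VV M s} {u : FreeGroup Bool} {L : List (Bool × ℤ)}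
    (h : Seg a x y u L) (hn : x ≠ y) : Geo x y (a * ph M s u) L :=
  ⟨h.1, by rw [mul_assoc, ← map_mul]; exact h.2.1, h.2.2.2.2 hn⟩

theorem pc_seg {a : Ah M s} {x y : VV M s} (h : Pc (TT M s) a x y) : ∃ u L, Seg a x y u L := by
  by_cases e : x = y
  · obtain ⟨u, hu⟩ := mem_TT.1 h.1
    exact ⟨u, [], hu, by rw [wd_nil, mul_one, ← e]; exact hu, by simp [Od, EL], fun _ => rfl,
      fun h => (h e).elim⟩
  · obtain ⟨j, hj, hx, hy⟩ := h.2.2.resolve_left e
    obtain ⟨u, L, hg⟩ := exists_geo h.1 h.2.1 e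
    obtain ⟨g, h1, -, h2⟩ := piece hg e (by rwa [ii_ph]) hx hy
    exact ⟨u, L, hg.1, by rw [map_mul, ← mul_assoc]; exact hg.2.1,
      fun ho => h1 (perp_tc (od_perp g.2 (s_not true) h2 ho.1) h2 ho.2), fun h => (e h).elim,
      fun _ => hg.2.2⟩

/-- corners that are not bad -/
def Nice (a : Ah M s) (x q y : VV M s) : Prop :=
  ∀ u L u' L' (k : ℤ), Seg a x q u L → Seg a q y u' L' → u' = u * wd L * FreeGroup.of q.1 ^ k →
    ¬ BadC (EL L') (EL L) q.1 k

theorem nice_left (a : Ah M s) (x y : VV M s) : Nice a x x y := by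
  intro u L u' L' k h _ _ hb
  have := hb.2.2.1
  rw [h.2.2.2.1 rfl] at this
  simp [Od, EL] at this

theorem nice_right (a : Ah M s) (x y : VV M s) : Nice a x y y := by
  intro u L u' L' k _ h _ hb
  have := hb.2.1
  rw [h.2.2.2.1 rfl] at this
  simp [Od, EL] at this

theorem geo_at {a : Ah M s} {q e : VV M s} (hq : q = vx q.1 a) (he : e ∈ TT M s a) (h : q ≠ e) :
    ∃ (k : ℤ) (L : List (Bool × ℤ)), Geo q e (a * ph M s (FreeGroup.of q.1 ^ k)) L := by
  obtain ⟨u, L, hg⟩ := exists_geo ⟨a, rfl, hq⟩ he h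
  obtain ⟨k, hk⟩ := vx_ph (u := 1) ((by simpa using hq.symm : vx q.1 (a * ph M s 1) = q).trans hg.1)
  exact ⟨k, L, by rwa [hk, one_mul] at hg⟩

theorem tr_nice {P : PT (VV M s)} {a : Ah M s} {x q y : VV M s} (h : Tr P (TT M s) a x q y) :
    Nice a x q y := by
  obtain ⟨-, -, -, n1, n2, -, j, j', e, a1, a2, a3, a4, a5, a6, a7, a8, a9, -⟩ := h
  rintro u L u' L' k s1 s2 rfl ⟨b1, b2, b3, b4⟩
  obtain ⟨g, g1, rfl, g3⟩ := piece (s1.geo n1) n1 (by rwa [ii_ph]) a3 a4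
  obtain ⟨g', g1', rfl, g3'⟩ := piece (s2.geo n2.symm) n2.symm (by rwa [ii_ph]) a7 a6
  have e1 : a * ph M s (u * wd L) * base (inc M s) g =
      a * ph M s u * base (inc M s) g * ph M s (wd L) := by
    rw [map_mul, mul_assoc _ (base _ g), (comm_wd g3).eq]
    simp only [mul_assoc]
  rw [← ii_ph _ (wd L), ← e1] at a5
  obtain ⟨k1, L1, h1⟩ := geo_at (by rw [vx_base]; exact s1.2.1) a5 a9.symm
  obtain ⟨k2, L2, h2⟩ := geo_at (by rw [vx_base]; exact s2.1) a8 a9.symm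
  obtain ⟨g2, e2, -⟩ := geo_uniq h1 h2
  rw [map_mul _ _ (FreeGroup.of q.1 ^ k)] at e2
  simp only [mul_assoc, mul_left_cancel_iff, ph_pow,
    ← of_apply_eq_base (G := fun b => GG M s b) _ q.1, ← map_mul] at e2
  have e3 : gen M (s q.1) ^ k * (g'.1 * gen M (s q.1) ^ k2) = g.1 * (gen M (s q.1) ^ k1 * g2.1) :=
    congrArg Subtype.val (of_injective (G := fun b => GG M s b) inc_inj q.1 e2)
  have e4 : gen M (s q.1) ^ (-k1) * g.1⁻¹ * gen M (s q.1) ^ k * g'.1 * gen M (s q.1) ^ k2 = g2.1 := by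
    rw [mul_assoc, mul_assoc, e3]
    group
  have key : g.1⁻¹ ∈ par M {t | t ∈ TH s ∧ M (s q.1) t = 2} ∨
      g'.1 ∈ par M {t | t ∈ TH s ∧ M (s q.1) t = 2} := by
    rcases b4 with ⟨e, he, hl⟩ | ⟨e, he, hl⟩
    · exact notrip' (s_not _) (inv_mem g.2) g'.2 b1 he (Or.inr (g3' _ hl)) (e4 ▸ g2.2)
    · exact notrip' (s_not _) (inv_mem g.2) g'.2 b1 he (Or.inl (g3 _ hl).inv_left) (e4 ▸ g2.2)
  rcases key with h | h
  · exact g1 (perp_tc (inv_mem_iff.1 h) g3 b3)
  · exact g1' (perp_tc h g3' b2)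

theorem seg_next {a : Ah M s} {x q y : VV M s} {u u' : FreeGroup Bool} {L L' : List (Bool × ℤ)}
    (h : Seg a x q u L) (h' : Seg a q y u' L') : ∃ k : ℤ, u' = u * wd L * FreeGroup.of q.1 ^ k :=
  vx_ph (h.2.1.symm.trans h'.1)

theorem rot_vx (a : Ah M s) (r u : FreeGroup Bool) (b : Bool) :
    (a * ph M s r * a⁻¹) • vx (G := fun b => GG M s b) b (a * ph M s u) =
      vx b (a * ph M s (r * u)) := by
  rw [smul_vx, map_mul]
  simp only [mul_assoc, inv_mul_cancel_left]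

theorem seg_rot {a : Ah M s} {x y : VV M s} {u : FreeGroup Bool} {L : List (Bool × ℤ)}
    (h : Seg a x y u L) (r : FreeGroup Bool) :
    Seg a ((a * ph M s r * a⁻¹) • x) ((a * ph M s r * a⁻¹) • y) (r * u) L := by
  refine ⟨?_, ?_, h.2.2.1, fun e => h.2.2.2.1 (by simpa using e),
    fun e => h.2.2.2.2 (by simpa using e)⟩
  · conv_lhs => rw [h.1, rot_vx]
    rfl
  · conv_lhs => rw [h.2.1, rot_vx, ← mul_assoc]
    rfl

theorem loop {m : ℕ} (hm : 6 ≤ m) {a : Ah M s} {r : FreeGroup Bool}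
    (hr : r ∈ Subgroup.normalClosure {brel m}) (h1 : r ≠ 1) {v0 v1 v2 v3 v4 : VV M s}
    (p1 : Pc (TT M s) a v0 v1) (p2 : Pc (TT M s) a v1 v2) (p3 : Pc (TT M s) a v2 v3)
    (p4 : Pc (TT M s) a v3 v4) (p5 : Pc (TT M s) a v4 ((a * ph M s r * a⁻¹) • v0))
    (n2 : Nice a v1 v2 v3) (n4 : Nice a v3 v4 ((a * ph M s r * a⁻¹) • v0))
    (n5 : Nice a v4 ((a * ph M s r * a⁻¹) • v0) ((a * ph M s r * a⁻¹) • v1)) : False := by
  obtain ⟨u1, L1, s1⟩ := pc_seg p1
  obtain ⟨u2, L2, s2⟩ := pc_seg p2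
  obtain ⟨u3, L3, s3⟩ := pc_seg p3
  obtain ⟨u4, L4, s4⟩ := pc_seg p4
  obtain ⟨u5, L5, s5⟩ := pc_seg p5
  have s6 := seg_rot s1 r
  obtain ⟨k1, e1⟩ := seg_next s1 s2
  obtain ⟨k2, e2⟩ := seg_next s2 s3
  obtain ⟨k3, e3⟩ := seg_next s3 s4
  obtain ⟨k4, e4⟩ := seg_next s4 s5
  obtain ⟨k5, e5⟩ := seg_next s5 s6
  have m2 := n2 _ _ _ _ _ s2 s3 e2
  have m4 := n4 _ _ _ _ _ s4 s5 e4
  have m5 := n5 _ _ _ _ _ s5 s6 e5
  generalize ((a * ph M s r * a⁻¹) • v0).1 = c at e5 m5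
  have := five_word hm s5.2.2.1 s4.2.2.1 s3.2.2.1 s2.2.2.1 s1.2.2.1 (wd_mem _) (wd_mem _)
    (wd_mem _) (wd_mem _) (wd_mem _) (c1 := v4.1) (c2 := v3.1) (c3 := v2.1) (c4 := v1.1) (c5 := c)
    (k1 := k4) (k2 := k3) (k3 := k2) (k4 := k1) (k5 := k5)
    (w := (FreeGroup.of c ^ k5 * u1⁻¹) * r * (FreeGroup.of c ^ k5 * u1⁻¹)⁻¹) (by
      rw [eq_mul_inv_of_mul_eq e5, e4, e3, e2, e1]
      group) (Subgroup.normalClosure_normal.conj_mem _ hr _) (by rwa [Ne, conj_eq_one_iff])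
  tauto

end Pool.Agent.Lib.MP_6d85b4_al
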