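import Mathlib
import Pool.Agent.Lib.MP_6d85b4_al.Geo

set_option autoImplicit false
set_option linter.unusedSectionVars false

namespace Pool.Agent.Lib.MP_6d85b4_al

open Monoid Monoid.PushoutI CoxeterSystem

theorem tr_pc {V I : Type} {P : PT V} {T : I → Set V} {i : I} {x q y : V} (h : Tr P T i x q y) :
    Pc T i x q ∧ Pc T i q y := by
  obtain ⟨h1, h2, h3, -, -, -, j, j', e, a1, a2, a3, a4, -, a6, a7, -⟩ := h
  exact ⟨⟨h1, h2, Or.inr ⟨j, a1, a3, a4⟩⟩, h2, h3, Or.inr ⟨j', a2, a7, a6⟩⟩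

variable {B : Type} [Fintype B] [DecidableEq B] {M : CoxeterMatrix B} {s : Bool ↪ B}

theorem two_nice {P : PT (VV M s)} {a : Ah M s} {x y : VV M s} (h : Two P (TT M s) a x y) :
    ∃ q, Pc (TT M s) a x q ∧ Pc (TT M s) a q y ∧ Nice a x q y := by
  rcases h with h | ⟨q, h⟩
  · exact ⟨y, h, ⟨h.2.1, h.2.1, Or.inl rfl⟩, nice_right _ _ _⟩
  · exact ⟨q, (tr_pc h).1, (tr_pc h).2, tr_nice h⟩

variable (M s) in
/-- the rotation groups -/
def RR (m : ℕ) (i : II M s) : Subgroup (Ah M s) where
  carrier := {h | ∀ a : Ah M s, (a : II M s) = i →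
    ∃ r ∈ Subgroup.normalClosure {brel m}, h = a * ph M s r * a⁻¹}
  one_mem' := fun a _ => ⟨1, one_mem _, by simp⟩
  mul_mem' := fun h h' a ha => by
    obtain ⟨r, hr, rfl⟩ := h a ha
    obtain ⟨r', hr', rfl⟩ := h' a ha
    exact ⟨r * r', mul_mem hr hr', by simp [mul_assoc]⟩
  inv_mem' := fun h a ha => by
    obtain ⟨r, hr, rfl⟩ := h a ha
    exact ⟨r⁻¹, inv_mem hr, by simp [mul_assoc]⟩

theorem mem_RR {m : ℕ} (a : Ah M s) {r : FreeGroup Bool}
    (hr : r ∈ Subgroup.normalClosure {brel m}) : a * ph M s r * a⁻¹ ∈ RR M s m a := by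
  intro a' e
  obtain ⟨u, g, hg, rfl⟩ := ii_eq.1 e
  refine ⟨u * r * u⁻¹, Subgroup.normalClosure_normal.conj_mem _ hr _, ?_⟩
  have := (comm_ph hg r).eq
  rw [mul_assoc a', mul_assoc _ (base _ g), this]
  simp [mul_assoc]

theorem tt_rch (a : Ah M s) (u : FreeGroup Bool) (b b' : Bool) :
    Rch (TT M s a) (vx b a) (vx b' (a * ph M s u)) := by
  have e : ∀ (a : Ah M s) c, vx c a ∈ TT M s a := fun a c => ⟨a, rfl, rfl⟩
  have step : ∀ (c : Bool) (k : ℤ) (w : FreeGroup Bool),
      (∀ (a : Ah M s) b, Rch (TT M s a) (vx b a) (vx b' (a * ph M s w))) → ∀ (a : Ah M s) b,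
      Rch (TT M s a) (vx b a) (vx b' (a * ph M s (FreeGroup.of c ^ k * w))) := by
    intro c k w ih a b
    have := ih (a * ph M s (FreeGroup.of c ^ k)) c
    rw [ii_ph, mul_assoc, ← map_mul, ph_pow, vx_of] at this
    exact (rch_edge (e a) b c).trans this
  induction u using free_ind generalizing a b with
  | h1 => simpa using rch_edge (e a) b b'
  | h2 c w ih => simpa using step c 1 w ih a b
  | h3 c w ih => simpa using step c (-1) w ih a b

theorem sys {m : ℕ} (hm : 6 ≤ m) :
    Sys (bsPT (G := fun b => GG M s b) inc_inj) (TT M s) (RR M s m) where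
  inv := bs_inv _
  conv i := bs_conv _ fun x hx y hy => by
    obtain ⟨a, rfl, ha⟩ := hx
    obtain ⟨u, hu⟩ := mem_TT.1 hy
    rw [ha, hu]
    exact tt_rch a u _ _
  ne i := by
    obtain ⟨a, rfl⟩ := QuotientGroup.mk_surjective i
    exact ⟨vx true a, a, rfl, rfl⟩
  smul := by
    rintro g _ x ⟨a, rfl, h⟩
    exact ⟨g * a, rfl, by rw [h]; rfl⟩
  conj g i h hh a ha := by
    obtain ⟨r, hr, e⟩ := hh (g⁻¹ * a) (by
      rw [← inv_smul_smul g i, ← ha]
      rfl)
    exact ⟨r, hr, by simp [e, mul_assoc]⟩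
  fix i h hh := by
    obtain ⟨a, rfl⟩ := QuotientGroup.mk_surjective i
    obtain ⟨r, -, rfl⟩ := hh a rfl
    have : (a * ph M s r * a⁻¹) • (a : II M s) = (a * ph M s r * a⁻¹ * a : Ah M s) := rfl
    rw [this, inv_mul_cancel_right, ii_ph]
  loc i h hh h1 y p p' x c1 c2 c3 := by
    obtain ⟨a, rfl⟩ := QuotientGroup.mk_surjective i
    obtain ⟨r, hr, rfl⟩ := hh a rfl
    have hr1 : r ≠ 1 := fun e => h1 (by simp [e])
    obtain ⟨q, d1, d2, d3⟩ := two_nice c2
    refine ⟨fun e => ?_, fun ⟨t1, t2⟩ =>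
      loop hm hr hr1 c1 d1 d2 c3 (tr_pc t1).2 d3 (tr_nice t1) (tr_nice t2)⟩
    subst e
    exact loop hm hr hr1 c1 d1 d2 c3 ⟨c3.2.1, c3.2.1, Or.inl rfl⟩ d3 (nice_right _ _ _)
      (nice_left _ _ _)

theorem hall (m : ℕ) (i : II M s) :
    ∃ k, i ∈ (nx (TT M s) (RR M s m))^[k] {((1 : Ah M s) : II M s)} := by
  obtain ⟨a, rfl⟩ := QuotientGroup.mk_surjective i
  induction a using push_ind with
  | h1 => exact ⟨0, rfl⟩
  | h2 a b γ ih =>
    obtain ⟨k, hk⟩ := ih
    refine ⟨k + 1, ?_⟩
    rw [Function.iterate_succ_apply']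
    exact Sys.jn_sub_nx ⟨vx b a, ⟨_, rfl, (vx_of b a γ).symm⟩, _, hk, a, rfl, rfl⟩

variable (M s) in
/-- the projection to the Artin group -/
def pj : Ah M s →* Art M :=
  PushoutI.lift (fun b => (GG M s b).subtype) (par M (TH s)).subtype fun _ => rfl

theorem pj_of (b : Bool) (γ : GG M s b) :
    pj M s (PushoutI.of (G := fun b => GG M s b) b γ) = γ := lift_of _ _ _ _

theorem pj_base (g : par M (TH s)) : pj M s (base (inc M s) g) = g := lift_base _ _ _ _

theorem pj_ph (b : Bool) : pj M s (ph M s (FreeGroup.of b)) = gen M (s b) := by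
  rw [ph, FreeGroup.lift_apply_of, pj_of]
  rfl

theorem alt_map {α β : Type} (f : α → β) (a b : α) (k : ℕ) :
    (alternatingWord a b k).map f = alternatingWord (f a) (f b) k := by
  induction k with
  | zero => rfl
  | succ k ih =>
    rw [alternatingWord_succ', alternatingWord_succ', List.map_cons, ih, apply_ite f]

theorem map_altw {Γ : Type} [Group Γ] (F : FreeGroup Bool →* Γ) (f : B → Γ)
    (h : ∀ b, F (FreeGroup.of b) = f (s b)) (b : Bool) (k : ℕ) :
    F (altw b k) = ((alternatingWord (s (!b)) (s b) k).map f).prod := by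
  rw [altw, map_list_prod, List.map_map, ← alt_map s, List.map_map]
  congr 2
  exact funext h

theorem pj_rel (h0 : M (s true) (s false) ≠ 0) {n : Ah M s}
    (hn : n ∈ Mg (RR M s (M (s true) (s false))) Set.univ) : pj M s n = 1 := by
  refine (Subgroup.closure_le (pj M s).ker).2 ?_ hn
  rintro h ⟨i, -, hh⟩
  obtain ⟨a, rfl⟩ := QuotientGroup.mk_surjective i
  obtain ⟨r, hr, rfl⟩ := hh a rfl
  have : r ∈ ((pj M s).comp (ph M s)).ker := by
    refine Subgroup.normalClosure_le_normal ?_ hr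
    rintro _ rfl
    rw [SetLike.mem_coe, MonoidHom.mem_ker, brel, map_mul, map_inv, mul_inv_eq_one,
      map_altw _ (gen M) pj_ph, map_altw _ (gen M) pj_ph]
    exact braid M h0
  have e : pj M s (ph M s r) = 1 := this
  simp [e]

theorem exists_side (u v : B) :
    (∃ b, u ≠ s (!b) ∧ v ≠ s (!b)) ∨ ∃ b, u = s (!b) ∧ v = s b := by
  have h : s true ≠ s false := fun e => by simpa using s.injective e
  by_cases h1 : u = s true
  · by_cases h2 : v = s false
    · exact Or.inr ⟨false, h1, h2⟩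
    · exact Or.inl ⟨true, fun e => h (h1.symm.trans e), h2⟩
  · by_cases h2 : v = s true
    · by_cases h3 : u = s false
      · exact Or.inr ⟨true, h3, h2⟩
      · exact Or.inl ⟨true, h3, fun e => h (h2.symm.trans e)⟩
    · exact Or.inl ⟨false, h1, h2⟩

theorem pj_ker (hm : 6 ≤ M (s true) (s false)) {n : Ah M s} (hn : pj M s n = 1) :
    n ∈ Mg (RR M s (M (s true) (s false))) Set.univ := by
  set N := Mg (RR M s (M (s true) (s false))) Set.univ with hN
  have : N.Normal := ⟨fun n hn g => (sys hm).mg_conj (fun _ _ => Set.mem_univ _) hn⟩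
  have h : s true ≠ s false := fun e => by simpa using s.injective e
  let f : B → Ah M s := fun u =>
    if e : u = s true then PushoutI.of (G := fun b => GG M s b) true
      ⟨gen M u, gen_mem (T := {u | u ≠ s (!true)}) (fun e' => h (e.symm.trans e'))⟩
    else PushoutI.of (G := fun b => GG M s b) false ⟨gen M u, gen_mem (T := {u | u ≠ s (!false)}) e⟩
  have hf : ∀ (b : Bool) (u : B) (hu : u ≠ s (!b)), f u =
      PushoutI.of (G := fun b => GG M s b) b ⟨gen M u, gen_mem (T := {u | u ≠ s (!b)}) hu⟩ := by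
    intro b u hu
    by_cases e : u = s true
    · cases b
      · exact absurd e hu
      · simp only [f, dif_pos e]
    · cases b
      · simp only [f, dif_neg e]
      · simp only [f, dif_neg e]
        have hm : gen M u ∈ par M (TH s) := gen_mem fun b => by cases b <;> assumption
        exact (of_apply_eq_base (G := fun b => GG M s b) (inc M s) false ⟨_, hm⟩).trans
          (of_apply_eq_base (G := fun b => GG M s b) (inc M s) true ⟨_, hm⟩).symm
  have hl : ∀ (b : Bool) (l : List B), (∀ x ∈ l, x ≠ s (!b)) →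
      ∃ hm : (l.map (gen M)).prod ∈ GG M s b,
        (l.map f).prod = PushoutI.of (G := fun b => GG M s b) b ⟨_, hm⟩ := by
    intro b l hx
    induction l with
    | nil => exact ⟨one_mem _, (map_one _).symm⟩
    | cons u l ih =>
      obtain ⟨hm, e⟩ := ih fun x h => hx x (List.mem_cons_of_mem _ h)
      have hu := hx u List.mem_cons_self
      refine ⟨mul_mem (gen_mem (T := {u | u ≠ s (!b)}) hu) hm, ?_⟩
      rw [List.map_cons, List.prod_cons, e, hf b u hu, ← map_mul]
      rfl
  have hp : ∀ b, ph M s (FreeGroup.of b) = f (s b) := fun b => by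
    rw [hf b (s b) (fun e => by simpa using s.injective e), ph, FreeGroup.lift_apply_of]
    rfl
  have hr : QuotientGroup.mk' N (ph M s (altw false (M (s true) (s false)))) =
      QuotientGroup.mk' N (ph M s (altw true (M (s true) (s false)))) := by
    rw [← mul_inv_eq_one, ← map_inv, ← map_mul, ← map_inv, ← map_mul]
    refine (QuotientGroup.eq_one_iff _).2 (Sys.rot_mg (Set.mem_univ ((1 : Ah M s) : II M s)) ?_)
    simpa [brel] using mem_RR (M := M) (s := s) 1
      (Subgroup.subset_normalClosure (Set.mem_singleton (brel (M (s true) (s false)))))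
  let F : Art M →* Ah M s ⧸ N :=
    PresentedGroup.toGroup (lift_ok M (fun u => QuotientGroup.mk' N (f u)) fun u v h => by
      have e : ∀ l : List B, (l.map fun u => QuotientGroup.mk' N (f u)).prod =
          QuotientGroup.mk' N (l.map f).prod := fun l => by
        rw [map_list_prod, List.map_map]
        rfl
      rw [e, e]
      rcases exists_side (s := s) u v with ⟨b, hu, hv⟩ | ⟨b, rfl, rfl⟩
      · obtain ⟨m1, e1⟩ := hl b (alternatingWord u v (M u v)) fun x hx => by
          rcases mem_alt hx with rfl | rfl <;> assumption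
        obtain ⟨m2, e2⟩ := hl b (alternatingWord v u (M u v)) fun x hx => by
          rcases mem_alt hx with rfl | rfl <;> assumption
        rw [e1, e2]
        congr 2
        exact Subtype.ext (braid M h)
      · rw [map_altw _ f hp, map_altw _ f hp] at hr
        cases b
        · exact hr
        · rw [M.symmetric] at hr
          exact hr.symm)
  have hF : ∀ u, F (gen M u) = QuotientGroup.mk' N (f u) := fun u => PresentedGroup.toGroup.of _
  have h2 : ∀ b (γ : Art M) (hγ : γ ∈ GG M s b),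
      F γ = QuotientGroup.mk' N (PushoutI.of (G := fun b => GG M s b) b ⟨γ, hγ⟩) := by
    intro b γ hγ
    induction hγ using Subgroup.closure_induction with
    | mem x hx =>
      obtain ⟨u, hu, rfl⟩ := hx
      rw [hF, hf b u hu]
    | one => exact (map_one F).trans ((map_one _).symm.trans (congrArg _ (map_one _).symm))
    | mul x y _ _ hx hy =>
      rw [map_mul, hx, hy, ← map_mul, ← map_mul]
      rfl
    | inv x _ hx =>
      rw [map_inv, hx, ← map_inv, ← map_inv]
      rfl
  have h3 : ∀ a, F (pj M s a) = QuotientGroup.mk' N a := by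
    intro a
    induction a using push_ind with
    | h1 => simp
    | h2 a b γ ih => rw [map_mul, map_mul, map_mul, ih, pj_of, h2 b γ γ.2]
  have := h3 n
  rw [hn, map_one] at this
  exact (QuotientGroup.eq_one_iff _).1 this.symm

theorem pj_surj (w : Art M) : ∃ a, pj M s a = w := by
  have : ∀ u, ∃ a, pj M s a = gen M u := fun u => by
    by_cases h : u ∈ TH s
    · exact ⟨_, pj_base ⟨_, gen_mem h⟩⟩
    · obtain ⟨b, hb⟩ := not_forall.1 h
      exact ⟨_, not_not.1 hb ▸ pj_ph b⟩
  induction w using art_ind with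
  | h1 => exact ⟨1, map_one _⟩
  | h2 u w ih =>
    obtain ⟨a, rfl⟩ := ih
    obtain ⟨c, hc⟩ := this u
    exact ⟨c * a, by rw [map_mul, hc]⟩
  | h3 u w ih =>
    obtain ⟨a, rfl⟩ := ih
    obtain ⟨c, hc⟩ := this u
    exact ⟨c⁻¹ * a, by rw [map_mul, map_inv, hc]⟩

theorem center_le_six (hm : 6 ≤ M (s true) (s false)) :
    Subgroup.center (Art M) ≤ par M (Set.range s ∪ TC M s) := by
  intro z hz
  obtain ⟨a, rfl⟩ := pj_surj (s := s) z
  by_cases hi : ∀ n ∈ Mg (RR M s (M (s true) (s false))) Set.univ,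
      n • (a : II M s) ≠ ((1 : Ah M s) : II M s)
  · exfalso
    obtain ⟨x, hx, h⟩ := (sys hm).main _ (hall _) _ hi
    obtain ⟨u, hu⟩ := mem_TT.1 hx
    let g := ph M s (u * altw true 6 * u⁻¹)
    have e : (a * g * a⁻¹ * g⁻¹) • g • x = vx x.1 (a * ph M s (u * altw true 6)) := by
      conv_lhs => rw [hu, smul_vx, smul_vx]
      simp [g, mul_assoc]
    obtain ⟨h, hh, t⟩ := h g (by simpa [g] using ii_ph (M := M) (s := s) 1 (u * altw true 6 * u⁻¹))
      (a * g * a⁻¹ * g⁻¹) (pj_ker hm (by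
        simp only [map_mul (pj M s), map_inv (pj M s), ← Subgroup.mem_center_iff.1 hz]
        simp)) (e ▸ mem_TT.2 ⟨_, rfl⟩)
    obtain ⟨r, hr, rfl⟩ := hh a rfl
    rw [e, rot_vx] at t
    obtain ⟨q, d1, d2, -⟩ := two_nice t
    obtain ⟨u1, L1, s1⟩ := pc_seg d1
    obtain ⟨u2, L2, s2⟩ := pc_seg d2
    obtain ⟨k0, e0⟩ := vx_ph (hu.symm.trans s1.1)
    obtain ⟨k1, e1⟩ := seg_next s1 s2
    obtain ⟨k2, e2⟩ := vx_ph s2.2.1.symm
    refine far_word hm s2.2.2.1 s1.2.2.1 (wd_mem _) (wd_mem _) (c0 := x.1) (c1 := q.1) (c2 := x.1)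
      (k0 := k2) (k1 := k1) (k2 := k0) (r := u⁻¹ * r * u⁻¹⁻¹)
      (Subgroup.normalClosure_normal.conj_mem _ hr _) true ?_
    rw [inv_inv, mul_assoc, mul_assoc, e2, e1, e0]
    simp only [mul_assoc, inv_mul_cancel_left, vx_fst]
  · push Not at hi
    obtain ⟨n, hn, e⟩ := hi
    obtain ⟨u, g, hg, e⟩ := (ii_eq (a := 1) (a' := n * a)).1 e.symm
    have e2 := congrArg (pj M s) e
    rw [map_mul, pj_rel (by omega) hn, one_mul, one_mul, map_mul, pj_base] at e2
    rw [e2]
    refine mul_mem ?_ (par_mono Set.subset_union_right hg)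
    clear e2 e
    have : ∀ b, pj M s (ph M s (FreeGroup.of b)) ∈ par M (Set.range s ∪ TC M s) := fun b =>
      pj_ph (M := M) b ▸ gen_mem (Or.inl ⟨b, rfl⟩)
    induction u using free_ind with
    | h1 => simp
    | h2 b w ih => rw [map_mul, map_mul]; exact mul_mem (this b) ih
    | h3 b w ih => rw [map_mul, map_mul, map_inv, map_inv]; exact mul_mem (inv_mem (this b)) ih

theorem finite_two {i j : B} (h : ∀ u, u = i ∨ u = j) (h0 : M i j ≠ 0) : Finite M.Group := by
  set cs := M.toCoxeterSystem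
  have hf : IsOfFinOrder (cs.simple i * cs.simple j) :=
    isOfFinOrder_iff_pow_eq_one.2 ⟨M i j, by omega, cs.simple_mul_simple_pow i j⟩
  have hZ := finite_zpowers.2 hf
  have key : ∀ w : M.Group, ∃ k : ℤ, w = (cs.simple i * cs.simple j) ^ k ∨
      w = cs.simple i * (cs.simple i * cs.simple j) ^ k := by
    intro w
    induction w using cs.simple_induction_left with
    | one => exact ⟨0, Or.inl rfl⟩
    | mul_simple_left w u ih =>
      obtain ⟨k, rfl | rfl⟩ := ih <;> rcases h u with rfl | rfl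
      · exact ⟨k, Or.inr rfl⟩
      · exact ⟨1 + k, Or.inr (by rw [zpow_one_add, mul_assoc, simple_mul_simple_cancel_left])⟩
      · exact ⟨k, Or.inl (by rw [simple_mul_simple_cancel_left])⟩
      · exact ⟨-1 + k, Or.inl (by simp [zpow_add, mul_assoc])⟩
  rw [← Set.finite_univ_iff]
  refine (hZ.union (hZ.image (cs.simple i * ·))).subset fun w _ => ?_
  obtain ⟨k, rfl | rfl⟩ := key w
  · exact Or.inl ⟨k, rfl⟩
  · exact Or.inr ⟨_, ⟨k, rfl⟩, rfl⟩

theorem center_large (hc : (SimpleGraph.fromRel fun i j : B => M i j ≠ 2).Connected)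
    (hi : Infinite M.Group) {i j : B} (hm : M i j = 0 ∨ 6 ≤ M i j) :
    Subgroup.center (Art M) = ⊥ := by
  rcases hm with hm | hm
  · exact center_eq_bot hc hm
  have hij : i ≠ j := by
    rintro rfl
    simp at hm
  let s : Bool ↪ B := ⟨fun b => if b then i else j, fun a b => by
    cases a <;> cases b <;> simp [hij, hij.symm]⟩
  refine normal_eq_bot hc _ inferInstance _ (fun e => ?_) (center_le_six (s := s) hm)
  obtain ⟨u, hu⟩ : ∃ u, u ∉ Set.range s := by
    by_contra hh
    push Not at hh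
    refine not_finite_iff_infinite.2 hi (finite_two (i := i) (j := j) (fun u => ?_) (by omega))
    obtain ⟨b, rfl⟩ := hh u
    cases b
    · exact Or.inr rfl
    · exact Or.inl rfl
  obtain ⟨p⟩ := hc.preconnected i u
  obtain ⟨d, -, ⟨b, d1⟩, d2⟩ := p.exists_boundary_dart (Set.range s) ⟨true, rfl⟩ hu
  have hadj := d.adj
  rw [SimpleGraph.fromRel_adj] at hadj
  have h2 : d.toProd.2 ∈ Set.range s ∪ TC M s := e ▸ Set.mem_univ _
  have h3 := (h2.resolve_left d2).2 b
  rw [d1] at h3
  rcases hadj.2 with e | e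
  · exact e h3
  · exact e (M.symmetric _ _ ▸ h3)

end Pool.Agent.Lib.MP_6d85b4_al
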